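import Pool.Agent.FLN.Targets

set_option autoImplicit false

/-!
# FLN-CONJ: the conjugation of a quadratic field
-/

namespace Pool.Agent.FLN

theorem p_CONJ : T_CONJ := by
  classical
  intro K _ _ h2
  have : Algebra.IsQuadraticExtension ℚ K := ⟨h2⟩
  have : IsGalois ℚ K := inferInstance
  have hcard : Nat.card (K ≃ₐ[ℚ] K) = 2 := by
    rw [IsGalois.card_aut_eq_finrank, h2]
  have : Finite (K ≃ₐ[ℚ] K) := inferInstance
  have : Nontrivial (K ≃ₐ[ℚ] K) := (Finite.one_lt_card_iff_nontrivial).1 (by omega)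
  obtain ⟨σ, hσ⟩ := exists_ne (1 : K ≃ₐ[ℚ] K)
  have hall : ∀ f : K ≃ₐ[ℚ] K, f = 1 ∨ f = σ := by
    intro f
    by_contra hf
    push Not at hf
    have h3 : ({1, σ, f} : Finset (K ≃ₐ[ℚ] K)).card = 3 := by
      rw [Finset.card_eq_three]
      exact ⟨1, σ, f, hσ.symm, hf.1.symm, hf.2.symm, rfl⟩
    have h4 := Finset.card_le_univ ({1, σ, f} : Finset (K ≃ₐ[ℚ] K))
    rw [← Nat.card_eq_fintype_card] at h4
    omega
  have hsq : ∀ x, σ (σ x) = x := by
    intro x
    have h := pow_card_eq_one' (x := σ)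
    rw [hcard, pow_two] at h
    have := congrArg (fun f : K ≃ₐ[ℚ] K => f x) h
    simpa using this
  have hfix : ∀ x, σ x = x → ∃ r : ℚ, x = r := by
    intro x hx
    have h : x ∈ (⊥ : IntermediateField ℚ K) := by
      rw [IsGalois.mem_bot_iff_fixed]
      intro f
      rcases hall f with rfl | rfl
      · rfl
      · exact hx
    obtain ⟨r, hr⟩ := IntermediateField.mem_bot.1 h
    exact ⟨r, by rw [← hr]; simp⟩
  refine ⟨(σ : K →+* K), hsq, hfix, ?_⟩
  obtain ⟨t, ht⟩ : ∃ t, σ t ≠ t := by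
    by_contra hcon
    push Not at hcon
    exact hσ (AlgEquiv.ext hcon)
  refine ⟨t - σ t, sub_ne_zero.2 (Ne.symm ht), ?_⟩
  change σ (t - σ t) = -(t - σ t)
  rw [map_sub, hsq]
  ring

end Pool.Agent.FLN
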