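import Pool.Agent.FLN.Targets

set_option autoImplicit false

/-!
# FLN, COUNT: one hundred per cent of the lines do not satisfy the conditions
-/

namespace Pool.Agent.FLN

namespace COUNT_

open Filter Topology

lemma box_finite (H : ℕ) : (Box H).Finite := by
  have h1 : ((Set.Icc (-(H : ℤ)) H) ×ˢ ((Set.Icc (-(H : ℤ)) H) ×ˢ (Set.Icc (-(H : ℤ)) H))).Finite :=
    (Set.finite_Icc _ _).prod ((Set.finite_Icc _ _).prod (Set.finite_Icc _ _))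
  refine h1.subset fun l hl => ?_
  exact ⟨abs_le.1 hl.1, abs_le.1 hl.2.1, abs_le.1 hl.2.2⟩

/-- The bound for the exponents below `P`. -/
lemma small (h1 : T_SMALLP) (P : ℕ) (ε : ℝ) (hε : 0 < ε) : ∃ C : ℝ, ∀ H : ℕ, 1 ≤ H →
    (Set.ncard {l | l ∈ Box H ∧ ∃ p : ℕ, p.Prime ∧ 5 ≤ p ∧ p < P ∧ Cond p l} : ℝ) ≤
      P * ε * (H : ℝ) ^ 3 + C * (H : ℝ) ^ 2 := by
  induction P with
  | zero =>
    refine ⟨0, fun H _ => ?_⟩
    have h : {l | l ∈ Box H ∧ ∃ p : ℕ, p.Prime ∧ 5 ≤ p ∧ p < 0 ∧ Cond p l} = ∅ := by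
      ext l
      simp
    rw [h]
    simp
  | succ P ih =>
    obtain ⟨C, hC⟩ := ih
    have hP : ∃ D : ℝ, ∀ H : ℕ, 1 ≤ H →
        (Set.ncard {l | l ∈ Box H ∧ P.Prime ∧ 5 ≤ P ∧ Cond P l} : ℝ) ≤
          ε * (H : ℝ) ^ 3 + D * (H : ℝ) ^ 2 := by
      by_cases hp : P.Prime ∧ 5 ≤ P
      · obtain ⟨D, hD⟩ := h1 P hp.1 hp.2 ε hε
        refine ⟨D, fun H hH => le_trans ?_ (hD H hH)⟩
        refine Nat.cast_le.2 (Set.ncard_le_ncard (fun l hl => ⟨hl.1, hl.2.2.2⟩)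
          ((box_finite H).subset fun l hl => hl.1))
      · refine ⟨0, fun H _ => ?_⟩
        have h : {l | l ∈ Box H ∧ P.Prime ∧ 5 ≤ P ∧ Cond P l} = ∅ := by
          ext l
          constructor
          · intro hl
            exact absurd ⟨hl.2.1, hl.2.2.1⟩ hp
          · intro hl
            exact absurd hl (Set.notMem_empty _)
        rw [h, Set.ncard_empty]
        push_cast
        positivity
    obtain ⟨D, hD⟩ := hP
    refine ⟨C + D, fun H hH => ?_⟩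
    have hsub : {l | l ∈ Box H ∧ ∃ p : ℕ, p.Prime ∧ 5 ≤ p ∧ p < P + 1 ∧ Cond p l} ⊆
        {l | l ∈ Box H ∧ ∃ p : ℕ, p.Prime ∧ 5 ≤ p ∧ p < P ∧ Cond p l} ∪
        {l | l ∈ Box H ∧ P.Prime ∧ 5 ≤ P ∧ Cond P l} := by
      rintro l ⟨hl, p, hp, h5, hlt, hc⟩
      rcases Nat.lt_succ_iff_lt_or_eq.1 hlt with h | h
      · exact Or.inl ⟨hl, p, hp, h5, h, hc⟩
      · subst h
        exact Or.inr ⟨hl, hp, h5, hc⟩
    have hfin : ({l | l ∈ Box H ∧ ∃ p : ℕ, p.Prime ∧ 5 ≤ p ∧ p < P ∧ Cond p l} ∪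
        {l | l ∈ Box H ∧ P.Prime ∧ 5 ≤ P ∧ Cond P l}).Finite :=
      (box_finite H).subset (by
        rintro l (hl | hl)
        · exact hl.1
        · exact hl.1)
    have h2 : (Set.ncard {l | l ∈ Box H ∧ ∃ p : ℕ, p.Prime ∧ 5 ≤ p ∧ p < P + 1 ∧ Cond p l} : ℝ) ≤
        (Set.ncard {l | l ∈ Box H ∧ ∃ p : ℕ, p.Prime ∧ 5 ≤ p ∧ p < P ∧ Cond p l} : ℝ) +
        (Set.ncard {l | l ∈ Box H ∧ P.Prime ∧ 5 ≤ P ∧ Cond P l} : ℝ) := by
      exact_mod_cast le_trans (Set.ncard_le_ncard hsub hfin) (Set.ncard_union_le _ _)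
    have h3 := hC H hH
    have h4 := hD H hH
    push_cast
    linarith

end COUNT_

open COUNT_ Filter Topology in
theorem p_COUNT (h1 : T_SMALLP) (h2 : T_LARGEP) (h3 : T_PRIM) : T_COUNT := by
  intro Bad hBad
  obtain ⟨C0, hC0⟩ := h2
  obtain ⟨c, hc, hlow⟩ := h3
  rw [Metric.tendsto_atTop]
  intro ε hε
  -- the choice of `P`
  obtain ⟨P0, hP0⟩ := exists_nat_gt (|C0| / (ε * c / 4))
  set P := max 7 P0 with hPdef
  have hP7 : 7 ≤ P := le_max_left _ _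
  have hPR : (0 : ℝ) < P := by
    have : 0 < P := by omega
    exact_mod_cast this
  have hCP : |C0| / P ≤ ε * c / 4 := by
    have h4 : |C0| / (ε * c / 4) ≤ P := le_trans hP0.le (by
      have : P0 ≤ P := le_max_right _ _
      exact_mod_cast this)
    rw [div_le_iff₀ (by positivity)] at h4
    rw [div_le_iff₀ hPR]
    linarith
  obtain ⟨C1, hC1⟩ := small h1 P (ε * c / (4 * P)) (by positivity)
  -- the choice of `H`
  obtain ⟨H0, hH0⟩ := exists_nat_gt (|C1| / (ε * c / 4))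
  refine ⟨max 1 H0, fun H hH => ?_⟩
  have hH1 : 1 ≤ H := le_trans (le_max_left _ _) hH
  have hHR : (0 : ℝ) < H := by exact_mod_cast hH1
  have hC1H : |C1| ≤ ε * c / 4 * H := by
    have h4 : |C1| / (ε * c / 4) ≤ H := le_trans hH0.le (by
      have : H0 ≤ H := le_trans (le_max_right _ _) hH
      exact_mod_cast this)
    rw [div_le_iff₀ (by positivity)] at h4
    linarith
  have hsub : {l | l ∈ Lines H ∧ l ∈ Bad} ⊆
      {l | l ∈ Box H ∧ ∃ p : ℕ, p.Prime ∧ 5 ≤ p ∧ p < P ∧ Cond p l} ∪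
      {l | l ∈ Box H ∧ ∃ p : ℕ, p.Prime ∧ P ≤ p ∧ Cond p l} := by
    rintro l ⟨hl, hb⟩
    have hbox : l ∈ Box H := ⟨hl.1, hl.2.1, hl.2.2.1⟩
    obtain ⟨p, hp, h5, hcond⟩ := hBad l hb
    rcases lt_or_ge p P with h | h
    · exact Or.inl ⟨hbox, p, hp, h5, h, hcond⟩
    · exact Or.inr ⟨hbox, p, hp, h, hcond⟩
  have hfin : ({l | l ∈ Box H ∧ ∃ p : ℕ, p.Prime ∧ 5 ≤ p ∧ p < P ∧ Cond p l} ∪
      {l | l ∈ Box H ∧ ∃ p : ℕ, p.Prime ∧ P ≤ p ∧ Cond p l}).Finite :=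
    (box_finite H).subset (by
      rintro l (hl | hl)
      · exact hl.1
      · exact hl.1)
  have h5 : (Set.ncard {l | l ∈ Lines H ∧ l ∈ Bad} : ℝ) ≤
      (Set.ncard {l | l ∈ Box H ∧ ∃ p : ℕ, p.Prime ∧ 5 ≤ p ∧ p < P ∧ Cond p l} : ℝ) +
      (Set.ncard {l | l ∈ Box H ∧ ∃ p : ℕ, p.Prime ∧ P ≤ p ∧ Cond p l} : ℝ) := by
    exact_mod_cast le_trans (Set.ncard_le_ncard hsub hfin) (Set.ncard_union_le _ _)
  have h6 := hC1 H hH1
  have h7 := hC0 P H hP7 hH1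
  have h8 := hlow H hH1
  have h9 : (P : ℝ) * (ε * c / (4 * P)) = ε * c / 4 := by
    field_simp
  rw [h9] at h6
  have h10 : C0 * (H : ℝ) ^ 3 / P ≤ ε * c / 4 * (H : ℝ) ^ 3 := by
    have : C0 * (H : ℝ) ^ 3 / P = C0 / P * (H : ℝ) ^ 3 := by ring
    rw [this]
    refine mul_le_mul_of_nonneg_right (le_trans ?_ hCP) (by positivity)
    exact div_le_div_of_nonneg_right (le_abs_self _) hPR.le
  have h11 : C1 * (H : ℝ) ^ 2 ≤ ε * c / 4 * (H : ℝ) ^ 3 := by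
    calc C1 * (H : ℝ) ^ 2 ≤ (ε * c / 4 * H) * (H : ℝ) ^ 2 :=
          mul_le_mul_of_nonneg_right (le_trans (le_abs_self _) hC1H) (by positivity)
      _ = _ := by ring
  have hH3 : (0 : ℝ) < c * (H : ℝ) ^ 3 := by positivity
  have hL : (0 : ℝ) < ((Lines H).ncard : ℝ) := lt_of_lt_of_le hH3 h8
  rw [Real.dist_eq, sub_zero, abs_of_nonneg (div_nonneg (Nat.cast_nonneg _) hL.le),
    div_lt_iff₀ hL]
  have h12 : ε * (c * (H : ℝ) ^ 3) ≤ ε * ((Lines H).ncard : ℝ) :=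
    mul_le_mul_of_nonneg_left h8 hε.le
  have h13 : 0 < ε * (c * (H : ℝ) ^ 3) := by positivity
  linarith

end Pool.Agent.FLN
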