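import Pool.Agent.FLN.Targets

set_option autoImplicit false

/-!
# FLN, CRT: number of the integers in a period that are exactly divisible by none of the primes
-/

namespace Pool.Agent.FLN

namespace CRT_

open Finset

/-- Chinese remainder theorem as a count. -/
lemma card_mul (A m : ℕ) (hA : 0 < A) (hm : 0 < m) (co : A.Coprime m) (p r : ℕ → Prop)
    [DecidablePred p] [DecidablePred r] (hp : ∀ n, p n ↔ p (n % A)) (hr : ∀ n, r n ↔ r (n % m)) :
    ((range (A * m)).filter fun n => p n ∧ r n).card =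
      ((range A).filter p).card * ((range m).filter r).card := by
  rw [← card_product]
  refine card_bij (fun n _ => (n % A, n % m)) ?_ ?_ ?_
  · intro n hn
    rw [mem_filter, mem_range] at hn
    rw [mem_product, mem_filter, mem_filter, mem_range, mem_range]
    exact ⟨⟨Nat.mod_lt _ hA, (hp n).1 hn.2.1⟩, ⟨Nat.mod_lt _ hm, (hr n).1 hn.2.2⟩⟩
  · intro a ha b hb hab
    rw [mem_filter, mem_range] at ha hb
    have h1 : a ≡ b [MOD A] := (Prod.ext_iff.1 hab).1
    have h2 : a ≡ b [MOD m] := (Prod.ext_iff.1 hab).2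
    have h3 : a ≡ b [MOD A * m] := (Nat.modEq_and_modEq_iff_modEq_mul co).1 ⟨h1, h2⟩
    exact Nat.ModEq.eq_of_lt_of_lt h3 ha.1 hb.1
  · intro b hb
    rw [mem_product, mem_filter, mem_filter, mem_range, mem_range] at hb
    obtain ⟨⟨h1, h2⟩, h3, h4⟩ := hb
    have hk := (Nat.chineseRemainder co b.1 b.2).2
    have hlt := Nat.chineseRemainder_lt_mul co b.1 b.2 hA.ne' hm.ne'
    set k : ℕ := (Nat.chineseRemainder co b.1 b.2 : ℕ) with hkdef
    have e1 : k % A = b.1 := by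
      have := hk.1
      rw [Nat.ModEq, Nat.mod_eq_of_lt h1] at this
      exact this
    have e2 : k % m = b.2 := by
      have := hk.2
      rw [Nat.ModEq, Nat.mod_eq_of_lt h3] at this
      exact this
    refine ⟨k, ?_, Prod.ext e1 e2⟩
    rw [mem_filter, mem_range]
    exact ⟨hlt, (hp k).2 (by rw [e1]; exact h2), (hr k).2 (by rw [e2]; exact h4)⟩

/-- One prime. -/
lemma card_one (q : ℕ) (hq : q.Prime) :
    ((range (q ^ 2)).filter fun n => ¬ (q ∣ n ∧ ¬ q ^ 2 ∣ n)).card = q ^ 2 - q + 1 := by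
  have h1 : ((range (q ^ 2)).filter fun n => q ∣ n ∧ ¬ q ^ 2 ∣ n) =
      (Ico 1 q).image fun j => q * j := by
    ext n
    simp only [mem_filter, mem_range, mem_image, mem_Ico]
    constructor
    · rintro ⟨hn, ⟨j, rfl⟩, h2⟩
      refine ⟨j, ⟨?_, ?_⟩, rfl⟩
      · rcases Nat.eq_zero_or_pos j with rfl | h
        · exact absurd (dvd_zero (q ^ 2)) (by rw [mul_zero] at h2; exact h2)
        · exact h
      · rw [pow_two] at hn
        exact Nat.lt_of_mul_lt_mul_left hn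
    · rintro ⟨j, ⟨h1, h2⟩, rfl⟩
      refine ⟨?_, dvd_mul_right _ _, ?_⟩
      · rw [pow_two]
        exact Nat.mul_lt_mul_of_pos_left h2 hq.pos
      · rw [pow_two]
        intro h
        have := Nat.dvd_of_mul_dvd_mul_left hq.pos h
        exact absurd (Nat.le_of_dvd h1 this) (not_le.2 h2)
  have h2 : ((range (q ^ 2)).filter fun n => q ∣ n ∧ ¬ q ^ 2 ∣ n).card = q - 1 := by
    rw [h1, card_image_of_injective _ fun a b h => Nat.eq_of_mul_eq_mul_left hq.pos h,
      Nat.card_Ico]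
  have h3 := card_filter_add_card_filter_not (s := range (q ^ 2))
    (fun n => q ∣ n ∧ ¬ q ^ 2 ∣ n)
  rw [h2, card_range] at h3
  have h4 : q ≤ q ^ 2 := Nat.le_self_pow two_ne_zero q
  have h5 := hq.one_lt
  omega

lemma dvd_mod {a n m : ℕ} (h : a ∣ m) : a ∣ n ↔ a ∣ n % m := (Nat.dvd_mod_iff h).symm

end CRT_

open CRT_ in
theorem p_CRT : T_CRT := by
  intro S
  classical
  induction S using Finset.induction_on with
  | empty => intro _; simp
  | insert q S hqS ih =>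
    intro hS
    have hq : q.Prime := hS q (Finset.mem_insert_self _ _)
    have hS' : ∀ r ∈ S, r.Prime := fun r hr => hS r (Finset.mem_insert_of_mem hr)
    rw [Finset.prod_insert hqS, Finset.prod_insert hqS, ← ih hS', ← card_one q hq]
    have hm : 0 < ∏ r ∈ S, r ^ 2 := Finset.prod_pos fun r hr => pow_pos (hS' r hr).pos 2
    have co : (q ^ 2).Coprime (∏ r ∈ S, r ^ 2) := by
      refine Nat.Coprime.prod_right fun r hr => ?_
      refine Nat.Coprime.pow 2 2 ((Nat.coprime_primes hq (hS' r hr)).2 ?_)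
      rintro rfl
      exact hqS hr
    rw [← card_mul (q ^ 2) (∏ r ∈ S, r ^ 2) (pow_pos hq.pos 2) hm co
      (fun n => ¬ (q ∣ n ∧ ¬ q ^ 2 ∣ n)) (fun n => ∀ r ∈ S, ¬ (r ∣ n ∧ ¬ r ^ 2 ∣ n))]
    · congr 1
      ext n
      simp only [Finset.mem_filter, Finset.forall_mem_insert]
    · intro n
      show (¬ (q ∣ n ∧ ¬ q ^ 2 ∣ n)) ↔ ¬ (q ∣ n % q ^ 2 ∧ ¬ q ^ 2 ∣ n % q ^ 2)
      rw [← dvd_mod (a := q) (dvd_pow_self q two_ne_zero), ← dvd_mod (a := q ^ 2) dvd_rfl]
    · intro n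
      show (∀ r ∈ S, ¬ (r ∣ n ∧ ¬ r ^ 2 ∣ n)) ↔
        ∀ r ∈ S, ¬ (r ∣ n % ∏ r ∈ S, r ^ 2 ∧ ¬ r ^ 2 ∣ n % ∏ r ∈ S, r ^ 2)
      refine forall₂_congr fun r hr => ?_
      have h1 : r ^ 2 ∣ ∏ r ∈ S, r ^ 2 := Finset.dvd_prod_of_mem _ hr
      rw [← dvd_mod (a := r) (dvd_trans (dvd_pow_self r two_ne_zero) h1),
        ← dvd_mod (a := r ^ 2) h1]

end Pool.Agent.FLN
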