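import Pool.Agent.FLN.Final

set_option autoImplicit false

/-!
# FLN: the coefficients of the lines form a set of density zero
-/

open Filter Topology

namespace Pool.Agent.FLN

/-- `n` is a coefficient of a rational line `a X + b Y = c Z`, `gcd(a, b, c) = 1`, that contains a
nontrivial quadratic point of some Fermat curve of prime exponent `p ≥ 5`. -/
def IsCoeff (n : ℤ) : Prop :=
  ∃ a b c : ℤ, Int.gcd (Int.gcd a b) c = 1 ∧ HasPoint a b c ∧ (n = a ∨ n = b ∨ n = c)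

namespace Coef_

/-- the arithmetic condition on a coefficient -/
def CondC (p : ℕ) (n : ℤ) : Prop :=
  n ≠ 0 ∧ ∀ q : ℕ, q.Prime → ¬ p ∣ q * (q ^ 2 - 1) → (p - 1) ∣ 2 * padicValInt q n

theorem not_exact {p : ℕ} (h5 : 5 ≤ p) {n : ℤ} (h : CondC p n) {q : ℕ} (hq : q.Prime)
    (hd : ¬ p ∣ q * (q ^ 2 - 1)) : ¬ ((q : ℤ) ∣ n ∧ ¬ (q : ℤ) ^ 2 ∣ n) := by
  rintro ⟨k1, k2⟩
  have : Fact q.Prime := ⟨hq⟩
  have g1 := h.2 q hq hd
  have h1 : padicValInt q n = 1 := by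
    have k3 : 1 ≤ padicValInt q n := by
      rcases (padicValInt_dvd_iff (p := q) 1 n).1 (by simpa using k1) with h0 | h0
      · exact absurd h0 h.1
      · exact h0
    have k4 : ¬ 2 ≤ padicValInt q n :=
      fun h0 => k2 ((padicValInt_dvd_iff (p := q) 2 n).2 (Or.inr h0))
    omega
  rw [h1] at g1
  have := Nat.le_of_dvd (by norm_num) g1
  omega

theorem not_dvd_of_mod {p q : ℕ} (hp : p.Prime) (h5 : 5 ≤ p) (hq : q.Prime) (hqp : q % p = 2) :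
    ¬ p ∣ q * (q ^ 2 - 1) := by
  intro hd
  rcases (Nat.Prime.dvd_mul hp).1 hd with hd | hd
  · have := Nat.mod_eq_zero_of_dvd hd
    omega
  · have h3 : (q : ZMod p) = 2 := by
      have h4 : ((q % p : ℕ) : ZMod p) = (q : ZMod p) := ZMod.natCast_mod q p
      rw [← h4, hqp]
      norm_num
    have h5 : ((q ^ 2 - 1 : ℕ) : ZMod p) = 0 := (ZMod.natCast_eq_zero_iff _ _).2 hd
    have h6 : 1 ≤ q ^ 2 := Nat.one_le_pow _ _ hq.pos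
    rw [Nat.cast_sub h6] at h5
    push_cast at h5
    rw [h3] at h5
    have h7 : ((3 : ℕ) : ZMod p) = 0 := by
      push_cast
      linear_combination h5
    have h8 := (ZMod.natCast_eq_zero_iff _ _).1 h7
    have := Nat.le_of_dvd (by norm_num) h8
    omega

theorem not_dvd_of_lt {p q : ℕ} (hp : p.Prime) (hq : q.Prime) (hqp : q + 1 < p) :
    ¬ p ∣ q * (q ^ 2 - 1) := by
  intro hd
  rcases (Nat.Prime.dvd_mul hp).1 hd with hd | hd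
  · have := Nat.le_of_dvd hq.pos hd
    omega
  · have h5 : q ^ 2 - 1 = (q + 1) * (q - 1) := by
      have := Nat.sq_sub_sq q 1
      rwa [one_pow] at this
    rw [h5] at hd
    have h2 := hq.two_le
    rcases (Nat.Prime.dvd_mul hp).1 hd with hd | hd
    · have := Nat.le_of_dvd (by omega) hd
      omega
    · have := Nat.le_of_dvd (by omega) hd
      omega

theorem fin_abs (N : ℕ) (P : ℤ → Prop) : {n : ℤ | |n| ≤ (N : ℤ) ∧ P n}.Finite := by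
  refine (Set.finite_Icc (-(N : ℤ)) (N : ℤ)).subset ?_
  rintro n ⟨hn, _⟩
  exact abs_le.1 hn

/-- a fixed exponent -/
theorem one (p : ℕ) (hp : p.Prime) (h5 : 5 ≤ p) (ε : ℝ) (hε : 0 < ε) : ∃ C : ℝ, ∀ N : ℕ,
    (Set.ncard {n : ℤ | |n| ≤ (N : ℤ) ∧ CondC p n} : ℝ) ≤ ε * N + C := by
  obtain ⟨C, hC⟩ := p_DENS p_CRT {q : ℕ | q.Prime ∧ q % p = 2} (fun q hq => hq.1)
    (p_DIV p hp h5) ε hε
  refine ⟨C, fun N => le_trans ?_ (hC N)⟩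
  have h1 : {n : ℤ | |n| ≤ (N : ℤ) ∧ CondC p n} ⊆ {n : ℤ | |n| ≤ (N : ℤ) ∧
      ∀ q ∈ {q : ℕ | q.Prime ∧ q % p = 2}, ¬ ((q : ℤ) ∣ n ∧ ¬ (q : ℤ) ^ 2 ∣ n)} := by
    rintro n ⟨h2, h3⟩
    exact ⟨h2, fun q hq => not_exact h5 h3 hq.1 (not_dvd_of_mod hp h5 hq.1 hq.2)⟩
  exact_mod_cast Set.ncard_le_ncard h1 (fin_abs N _)

/-- the exponents below a bound -/
theorem below (P : ℕ) : ∀ ε : ℝ, 0 < ε → ∃ C : ℝ, ∀ N : ℕ,
    (Set.ncard {n : ℤ | |n| ≤ (N : ℤ) ∧ ∃ p < P, p.Prime ∧ 5 ≤ p ∧ CondC p n} : ℝ) ≤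
      ε * N + C := by
  induction P with
  | zero =>
    intro ε hε
    refine ⟨0, fun N => ?_⟩
    have h1 : {n : ℤ | |n| ≤ (N : ℤ) ∧ ∃ p < 0, p.Prime ∧ 5 ≤ p ∧ CondC p n} = ∅ := by
      ext n
      simp
    rw [h1, Set.ncard_empty]
    push_cast
    positivity
  | succ P ih =>
    intro ε hε
    obtain ⟨C1, hC1⟩ := ih (ε / 2) (half_pos hε)
    by_cases hP : P.Prime ∧ 5 ≤ P
    · obtain ⟨C2, hC2⟩ := one P hP.1 hP.2 (ε / 2) (half_pos hε)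
      refine ⟨C1 + C2, fun N => ?_⟩
      have h1 : {n : ℤ | |n| ≤ (N : ℤ) ∧ ∃ p < P + 1, p.Prime ∧ 5 ≤ p ∧ CondC p n} ⊆
          {n : ℤ | |n| ≤ (N : ℤ) ∧ ∃ p < P, p.Prime ∧ 5 ≤ p ∧ CondC p n} ∪
            {n : ℤ | |n| ≤ (N : ℤ) ∧ CondC P n} := by
        rintro n ⟨h2, p, h3, h4⟩
        rcases Nat.lt_succ_iff_lt_or_eq.1 h3 with h6 | h6
        · exact Or.inl ⟨h2, p, h6, h4⟩
        · subst h6
          exact Or.inr ⟨h2, h4.2.2⟩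
      have h2 := (Set.ncard_le_ncard h1 ((fin_abs N _).union (fin_abs N _))).trans
        (Set.ncard_union_le _ _)
      have h3 : (Set.ncard {n : ℤ | |n| ≤ (N : ℤ) ∧
          ∃ p < P + 1, p.Prime ∧ 5 ≤ p ∧ CondC p n} : ℝ) ≤
          (Set.ncard {n : ℤ | |n| ≤ (N : ℤ) ∧ ∃ p < P, p.Prime ∧ 5 ≤ p ∧ CondC p n} : ℝ) +
          (Set.ncard {n : ℤ | |n| ≤ (N : ℤ) ∧ CondC P n} : ℝ) := by
        exact_mod_cast h2
      have h4 := hC1 N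
      have h5 := hC2 N
      linarith
    · refine ⟨C1, fun N => ?_⟩
      have h1 : {n : ℤ | |n| ≤ (N : ℤ) ∧ ∃ p < P + 1, p.Prime ∧ 5 ≤ p ∧ CondC p n} ⊆
          {n : ℤ | |n| ≤ (N : ℤ) ∧ ∃ p < P, p.Prime ∧ 5 ≤ p ∧ CondC p n} := by
        rintro n ⟨h2, p, h3, h4⟩
        rcases Nat.lt_succ_iff_lt_or_eq.1 h3 with h6 | h6
        · exact ⟨h2, p, h6, h4⟩
        · subst h6
          exact absurd ⟨h4.1, h4.2.1⟩ hP
      have h2 : (Set.ncard {n : ℤ | |n| ≤ (N : ℤ) ∧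
          ∃ p < P + 1, p.Prime ∧ 5 ≤ p ∧ CondC p n} : ℝ) ≤
          (Set.ncard {n : ℤ | |n| ≤ (N : ℤ) ∧ ∃ p < P, p.Prime ∧ 5 ≤ p ∧ CondC p n} : ℝ) := by
        exact_mod_cast Set.ncard_le_ncard h1 (fin_abs N _)
      have h3 := hC1 N
      have h4 : ε / 2 * (N : ℝ) ≤ ε * N := by
        have : (0 : ℝ) ≤ N := Nat.cast_nonneg _
        nlinarith
      linarith

/-- finitely many primes are enough -/
theorem fin_dens (ε : ℝ) (hε : 0 < ε) : ∃ (T : Finset ℕ) (C : ℝ), (∀ q ∈ T, q.Prime) ∧ ∀ N : ℕ,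
    (Set.ncard {n : ℤ | |n| ≤ (N : ℤ) ∧ ∀ q ∈ T, ¬ ((q : ℤ) ∣ n ∧ ¬ (q : ℤ) ^ 2 ∣ n)} : ℝ) ≤
      ε * N + C := by
  obtain ⟨T, hTS, hsum⟩ := DENS_.exists_finset {q : ℕ | q.Prime} not_summable_one_div_on_primes
    (-(2 * Real.log (ε / 2)))
  have hT : ∀ q ∈ T, q.Prime := fun q hq => hTS q hq
  have hQ : 0 < ∏ q ∈ T, q ^ 2 := Finset.prod_pos fun r hr => pow_pos (hT r hr).pos 2
  set Q := ∏ q ∈ T, q ^ 2 with hQdef
  set M := ∏ q ∈ T, (q ^ 2 - q + 1) with hMdef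
  have hQR : (0 : ℝ) < Q := by exact_mod_cast hQ
  have hM : (M : ℝ) ≤ Q * (ε / 2) := by
    refine le_trans (DENS_.prod_le T hT) (mul_le_mul_of_nonneg_left ?_ hQR.le)
    rw [← Real.exp_log (half_pos hε)]
    exact Real.exp_le_exp.2 (by linarith)
  refine ⟨T, 2 * M, hT, fun N => ?_⟩
  have h1 := DENS_.count_int p_CRT (T : Set ℕ) T (fun q hq => hq) hT N
  have h2 : (Set.ncard {n : ℤ | |n| ≤ (N : ℤ) ∧
      ∀ q ∈ T, ¬ ((q : ℤ) ∣ n ∧ ¬ (q : ℤ) ^ 2 ∣ n)} : ℝ) ≤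
      2 * (((N / Q : ℕ) + 1) * M) := by
    exact_mod_cast h1
  refine le_trans h2 ?_
  have h3 : ((N / Q : ℕ) : ℝ) ≤ (N : ℝ) / Q := Nat.cast_div_le
  have h4 : ((N / Q : ℕ) : ℝ) * M ≤ (N : ℝ) / Q * (Q * (ε / 2)) :=
    mul_le_mul h3 hM (Nat.cast_nonneg _) (by positivity)
  have h5 : (N : ℝ) / Q * (Q * (ε / 2)) = N * ε / 2 := by
    field_simp
  rw [h5] at h4
  linarith

/-- all exponents -/
theorem all (ε : ℝ) (hε : 0 < ε) : ∃ C : ℝ, ∀ N : ℕ,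
    (Set.ncard {n : ℤ | |n| ≤ (N : ℤ) ∧ ∃ p : ℕ, p.Prime ∧ 5 ≤ p ∧ CondC p n} : ℝ) ≤
      ε * N + C := by
  obtain ⟨T, C1, hT, hC1⟩ := fin_dens (ε / 2) (half_pos hε)
  obtain ⟨C2, hC2⟩ := below (T.sup id + 2) (ε / 2) (half_pos hε)
  refine ⟨C1 + C2, fun N => ?_⟩
  have h1 : {n : ℤ | |n| ≤ (N : ℤ) ∧ ∃ p : ℕ, p.Prime ∧ 5 ≤ p ∧ CondC p n} ⊆
      {n : ℤ | |n| ≤ (N : ℤ) ∧ ∀ q ∈ T, ¬ ((q : ℤ) ∣ n ∧ ¬ (q : ℤ) ^ 2 ∣ n)} ∪
      {n : ℤ | |n| ≤ (N : ℤ) ∧ ∃ p < T.sup id + 2, p.Prime ∧ 5 ≤ p ∧ CondC p n} := by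
    rintro n ⟨h2, p, hp, h5, hc⟩
    by_cases h3 : p < T.sup id + 2
    · exact Or.inr ⟨h2, p, h3, hp, h5, hc⟩
    · refine Or.inl ⟨h2, fun q hq => not_exact h5 hc (hT q hq) (not_dvd_of_lt hp (hT q hq) ?_)⟩
      have h4 : q ≤ T.sup id := Finset.le_sup (f := id) hq
      omega
  have h2 := (Set.ncard_le_ncard h1 ((fin_abs N _).union (fin_abs N _))).trans
    (Set.ncard_union_le _ _)
  have h3 : (Set.ncard {n : ℤ | |n| ≤ (N : ℤ) ∧ ∃ p : ℕ, p.Prime ∧ 5 ≤ p ∧ CondC p n} : ℝ) ≤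
      (Set.ncard {n : ℤ | |n| ≤ (N : ℤ) ∧ ∀ q ∈ T, ¬ ((q : ℤ) ∣ n ∧ ¬ (q : ℤ) ^ 2 ∣ n)} : ℝ) +
      (Set.ncard {n : ℤ | |n| ≤ (N : ℤ) ∧
        ∃ p < T.sup id + 2, p.Prime ∧ 5 ≤ p ∧ CondC p n} : ℝ) := by
    exact_mod_cast h2
  have h4 := hC1 N
  have h5 := hC2 N
  linarith

theorem cond_of_coeff {n : ℤ} (h : IsCoeff n) : ∃ p : ℕ, p.Prime ∧ 5 ≤ p ∧ CondC p n := by
  obtain ⟨a, b, c, hg, ⟨p, K, _, _, x, y, z, hp, h5, hq, hline⟩, hn⟩ := h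
  obtain ⟨a', b', c', _, _, hu, ha, hb, hc, hval, -⟩ := tSTR p K x y z hp h5 hq
  obtain ⟨t, e1, e2, e3⟩ := hu a b c hline
  have ht : t = 1 ∨ t = -1 := by
    have h1 : t.natAbs ∣ Int.gcd (Int.gcd a b) c := by
      apply Int.dvd_gcd
      · rw [Int.natCast_dvd_natCast]
        apply Int.dvd_gcd
        · rw [e1]; exact Int.natAbs_dvd.2 (Dvd.intro _ rfl)
        · rw [e2]; exact Int.natAbs_dvd.2 (Dvd.intro _ rfl)
      · rw [e3]; exact Int.natAbs_dvd.2 (Dvd.intro _ rfl)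
    rw [hg] at h1
    have h2 : t.natAbs = 1 := Nat.dvd_one.1 h1
    omega
  have key : ∀ m : ℤ, m ≠ 0 → (∀ q : ℕ, q.Prime → ¬ p ∣ q * (q ^ 2 - 1) →
      (p - 1) ∣ 2 * padicValInt q m) → CondC p (t * m) := by
    intro m hm hv
    rcases ht with rfl | rfl
    · rw [one_mul]
      exact ⟨hm, hv⟩
    · rw [neg_one_mul]
      refine ⟨neg_ne_zero.2 hm, fun q hq hd => ?_⟩
      have : padicValInt q (-m) = padicValInt q m := by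
        unfold padicValInt
        rw [Int.natAbs_neg]
      rw [this]
      exact hv q hq hd
  refine ⟨p, hp, h5, ?_⟩
  rcases hn with rfl | rfl | rfl
  · rw [e1]
    exact key a' ha fun q hq hd => (hval q hq hd).1
  · rw [e2]
    exact key b' hb fun q hq hd => (hval q hq hd).2.1
  · rw [e3]
    exact key c' hc fun q hq hd => (hval q hq hd).2.2.1

end Coef_

open Coef_ in
/-- The coefficients of the lines that contain a nontrivial quadratic point form a set of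
density zero. -/
theorem coeff_density :
    Tendsto (fun H : ℕ => (Set.ncard {n : ℤ | |n| ≤ (H : ℤ) ∧ IsCoeff n} : ℝ) / (2 * H + 1))
      atTop (𝓝 0) := by
  rw [Metric.tendsto_atTop]
  intro ε hε
  obtain ⟨C, hC⟩ := all ε hε
  obtain ⟨N0, hN0⟩ := exists_nat_gt (C / ε)
  refine ⟨N0, fun N hN => ?_⟩
  have hN' : C / ε < N := lt_of_lt_of_le hN0 (by exact_mod_cast hN)
  rw [div_lt_iff₀ hε] at hN'
  have h1 : (Set.ncard {n : ℤ | |n| ≤ (N : ℤ) ∧ IsCoeff n} : ℝ) ≤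
      (Set.ncard {n : ℤ | |n| ≤ (N : ℤ) ∧ ∃ p : ℕ, p.Prime ∧ 5 ≤ p ∧ CondC p n} : ℝ) := by
    have : {n : ℤ | |n| ≤ (N : ℤ) ∧ IsCoeff n} ⊆
        {n : ℤ | |n| ≤ (N : ℤ) ∧ ∃ p : ℕ, p.Prime ∧ 5 ≤ p ∧ CondC p n} := by
      rintro n ⟨h2, h3⟩
      exact ⟨h2, cond_of_coeff h3⟩
    exact_mod_cast Set.ncard_le_ncard this (fin_abs N _)
  have h2 := hC N
  have hpos : (0 : ℝ) < 2 * N + 1 := by positivity
  rw [Real.dist_eq, sub_zero, abs_of_nonneg (by positivity), div_lt_iff₀ hpos]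
  nlinarith

end Pool.Agent.FLN
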