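import Pool.Agent.FLN.Targets

set_option autoImplicit false

/-!
# FLN, DENS: almost all integers are exactly divisible by a prime of a thick set of primes
-/

namespace Pool.Agent.FLN

namespace DENS_

open Finset

/-- The natural numbers up to `N` that are exactly divisible by no prime of `T`. -/
lemma count_nat (h : T_CRT) (T : Finset ℕ) (hT : ∀ q ∈ T, q.Prime) (N : ℕ) :
    ((range (N + 1)).filter fun n => ∀ q ∈ T, ¬ (q ∣ n ∧ ¬ q ^ 2 ∣ n)).card ≤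
      (N / (∏ q ∈ T, q ^ 2) + 1) * ∏ q ∈ T, (q ^ 2 - q + 1) := by
  classical
  set Q := ∏ q ∈ T, q ^ 2 with hQdef
  have hQ : 0 < Q := Finset.prod_pos fun r hr => pow_pos (hT r hr).pos 2
  have hper : ∀ n, (∀ q ∈ T, ¬ (q ∣ n ∧ ¬ q ^ 2 ∣ n)) ↔
      ∀ q ∈ T, ¬ (q ∣ n % Q ∧ ¬ q ^ 2 ∣ n % Q) := by
    intro n
    refine forall₂_congr fun r hr => ?_
    have h1 : r ^ 2 ∣ Q := Finset.dvd_prod_of_mem _ hr
    rw [Nat.dvd_mod_iff (dvd_trans (dvd_pow_self r two_ne_zero) h1), Nat.dvd_mod_iff h1]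
  rw [← h T hT, ← card_range (N / Q + 1), ← card_product]
  refine card_le_card_of_injOn (fun n => (n / Q, n % Q)) ?_ ?_
  · intro n hn
    rw [coe_filter, Set.mem_ofPred_eq, mem_range] at hn
    simp only [coe_product, Set.mem_prod, mem_coe, mem_filter, mem_range]
    refine ⟨?_, Nat.mod_lt _ hQ, (hper n).1 hn.2⟩
    exact Nat.lt_succ_of_le (Nat.div_le_div_right (Nat.lt_succ_iff.1 hn.1))
  · intro a _ b _ hab
    have h1 : a / Q = b / Q := (Prod.ext_iff.1 hab).1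
    have h2 : a % Q = b % Q := (Prod.ext_iff.1 hab).2
    rw [← Nat.div_add_mod a Q, ← Nat.div_add_mod b Q, h1, h2]

/-- The integers in `[-N, N]` that are exactly divisible by no prime of `S`, `T ⊆ S`. -/
lemma count_int (h : T_CRT) (S : Set ℕ) (T : Finset ℕ) (hTS : ∀ q ∈ T, q ∈ S)
    (hT : ∀ q ∈ T, q.Prime) (N : ℕ) :
    Set.ncard {n : ℤ | |n| ≤ (N : ℤ) ∧ ∀ q ∈ S, ¬ ((q : ℤ) ∣ n ∧ ¬ (q : ℤ) ^ 2 ∣ n)} ≤
      2 * ((N / (∏ q ∈ T, q ^ 2) + 1) * ∏ q ∈ T, (q ^ 2 - q + 1)) := by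
  classical
  set F := (range (N + 1)).filter fun n => ∀ q ∈ T, ¬ (q ∣ n ∧ ¬ q ^ 2 ∣ n) with hF
  have h1 : {n : ℤ | |n| ≤ (N : ℤ) ∧ ∀ q ∈ S, ¬ ((q : ℤ) ∣ n ∧ ¬ (q : ℤ) ^ 2 ∣ n)} ⊆
      ((F.image fun n : ℕ => (n : ℤ)) ∪ (F.image fun n : ℕ => -(n : ℤ)) : Finset ℤ) := by
    rintro n ⟨hn, hq⟩
    have hmem : n.natAbs ∈ F := by
      rw [hF, mem_filter, mem_range]
      constructor
      · rw [Int.abs_eq_natAbs] at hn
        omega
      · intro q hqT hc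
        refine hq q (hTS q hqT) ⟨Int.natCast_dvd.2 hc.1, fun h2 => hc.2 ?_⟩
        have h3 : ((q ^ 2 : ℕ) : ℤ) ∣ n := by
          rw [Nat.cast_pow]; exact h2
        exact Int.natCast_dvd.1 h3
    rw [coe_union, Set.mem_union, mem_coe, mem_coe, mem_image, mem_image]
    rcases Int.natAbs_eq n with h | h
    · exact Or.inl ⟨n.natAbs, hmem, h.symm⟩
    · exact Or.inr ⟨n.natAbs, hmem, h.symm⟩
  calc _ ≤ _ := Set.ncard_le_ncard h1 (Finset.finite_toSet _)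
    _ = _ := Set.ncard_coe_finset _
    _ ≤ _ := card_union_le _ _
    _ ≤ F.card + F.card := add_le_add card_image_le card_image_le
    _ = 2 * F.card := (two_mul _).symm
    _ ≤ _ := Nat.mul_le_mul_left 2 (count_nat h T hT N)

/-- One factor of the product. -/
lemma factor_le (q : ℕ) (hq : q.Prime) :
    ((q ^ 2 - q + 1 : ℕ) : ℝ) ≤ (q : ℝ) ^ 2 * Real.exp (-(1 / 2) * (1 / (q : ℝ))) := by
  have h2 : (2 : ℝ) ≤ q := by exact_mod_cast hq.two_le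
  have h0 : (0 : ℝ) < q := by linarith
  have h4 : q ≤ q ^ 2 := Nat.le_self_pow two_ne_zero q
  rw [Nat.cast_add, Nat.cast_sub h4, Nat.cast_pow, Nat.cast_one]
  have h5 := Real.add_one_le_exp (-(1 / 2) * (1 / (q : ℝ)))
  have h6 : (q : ℝ) ^ 2 * (-(1 / 2) * (1 / (q : ℝ)) + 1) ≤
      (q : ℝ) ^ 2 * Real.exp (-(1 / 2) * (1 / (q : ℝ))) :=
    mul_le_mul_of_nonneg_left h5 (by positivity)
  have h7 : (q : ℝ) ^ 2 * (-(1 / 2) * (1 / (q : ℝ)) + 1) = (q : ℝ) ^ 2 - q / 2 := by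
    field_simp
    ring
  rw [h7] at h6
  linarith

/-- The product. -/
lemma prod_le (T : Finset ℕ) (hT : ∀ q ∈ T, q.Prime) :
    ((∏ q ∈ T, (q ^ 2 - q + 1) : ℕ) : ℝ) ≤
      ((∏ q ∈ T, q ^ 2 : ℕ) : ℝ) * Real.exp (-(1 / 2) * ∑ q ∈ T, 1 / (q : ℝ)) := by
  rw [Nat.cast_prod, Nat.cast_prod, Finset.mul_sum, Real.exp_sum, ← Finset.prod_mul_distrib]
  refine Finset.prod_le_prod (fun q _ => Nat.cast_nonneg _) fun q hq => ?_
  rw [Nat.cast_pow]
  exact factor_le q (hT q hq)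

/-- A finite subset with a large sum of reciprocals. -/
lemma exists_finset (S : Set ℕ) (hs : ¬ Summable (Set.indicator S fun q => (1 : ℝ) / q)) (c : ℝ) :
    ∃ T : Finset ℕ, (∀ q ∈ T, q ∈ S) ∧ c < ∑ q ∈ T, 1 / (q : ℝ) := by
  classical
  by_contra hcon
  push Not at hcon
  refine hs (summable_of_sum_le (c := c) (fun q => ?_) fun u => ?_)
  · exact Set.indicator_nonneg (fun q _ => by positivity) q
  · have h1 := hcon (u.filter fun q => q ∈ S) fun q hq => (Finset.mem_filter.1 hq).2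
    refine le_trans (le_of_eq ?_) h1
    rw [Finset.sum_filter]
    exact Finset.sum_congr rfl fun q _ => Set.indicator_apply _ _ _

end DENS_

open DENS_ in
theorem p_DENS (h : T_CRT) : T_DENS := by
  intro S hS hs ε hε
  obtain ⟨T, hTS, hsum⟩ := exists_finset S hs (-(2 * Real.log (ε / 2)))
  have hT : ∀ q ∈ T, q.Prime := fun q hq => hS q (hTS q hq)
  have hQ : 0 < ∏ q ∈ T, q ^ 2 := Finset.prod_pos fun r hr => pow_pos (hT r hr).pos 2
  set Q := ∏ q ∈ T, q ^ 2 with hQdef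
  set M := ∏ q ∈ T, (q ^ 2 - q + 1) with hMdef
  have hQR : (0 : ℝ) < Q := by exact_mod_cast hQ
  have hM : (M : ℝ) ≤ Q * (ε / 2) := by
    refine le_trans (prod_le T hT) (mul_le_mul_of_nonneg_left ?_ hQR.le)
    rw [← Real.exp_log (half_pos hε)]
    exact Real.exp_le_exp.2 (by linarith)
  refine ⟨2 * M, fun N => ?_⟩
  have h1 := count_int h S T hTS hT N
  have h2 : (Set.ncard {n : ℤ | |n| ≤ (N : ℤ) ∧
      ∀ q ∈ S, ¬ ((q : ℤ) ∣ n ∧ ¬ (q : ℤ) ^ 2 ∣ n)} : ℝ) ≤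
      2 * (((N / Q : ℕ) + 1) * M) := by
    exact_mod_cast h1
  refine le_trans h2 ?_
  have h3 : ((N / Q : ℕ) : ℝ) ≤ (N : ℝ) / Q := Nat.cast_div_le
  have h4 : ((N / Q : ℕ) : ℝ) * M ≤ (N : ℝ) / Q * (Q * (ε / 2)) :=
    mul_le_mul h3 hM (Nat.cast_nonneg _) (by positivity)
  have h5 : (N : ℝ) / Q * (Q * (ε / 2)) = N * ε / 2 := by
    field_simp
  rw [h5] at h4
  linarith

end Pool.Agent.FLN
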