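import Pool.Agent.FLN.Targets

set_option autoImplicit false

/-!
# The sum of the reciprocals of the primes congruent to 2 modulo `p` diverges
-/

open ArithmeticFunction ArithmeticFunction.vonMangoldt

namespace Pool.Agent.FLN

namespace DIV_

theorem log_bound (n : ℕ) (hn : 1 ≤ n) (δ : ℝ) (hδ : 0 < δ) :
    Real.log n / (n : ℝ) ^ (1 + δ) ≤ (1 / δ) * (1 / n) := by
  have hn0 : (0 : ℝ) < n := by exact_mod_cast hn
  have h1 : Real.log n ≤ (n : ℝ) ^ δ / δ := Real.log_le_rpow_div hn0.le hδ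
  have h2 : (0 : ℝ) < (n : ℝ) ^ δ := Real.rpow_pos_of_pos hn0 _
  rw [Real.rpow_add hn0, Real.rpow_one, div_le_iff₀ (by positivity)]
  calc Real.log n ≤ (n : ℝ) ^ δ / δ := h1
    _ = 1 / δ * (1 / n) * (n * (n : ℝ) ^ δ) := by field_simp

theorem rpow_ge (n : ℕ) (hn : 1 ≤ n) (δ : ℝ) (hδ : 0 ≤ δ) : (n : ℝ) ≤ (n : ℝ) ^ (1 + δ) := by
  have h1 : (1 : ℝ) ≤ n := by exact_mod_cast hn
  calc (n : ℝ) = (n : ℝ) ^ (1 : ℝ) := (Real.rpow_one _).symm
    _ ≤ _ := Real.rpow_le_rpow_of_exponent_le h1 (by linarith)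

theorem term_bound (p : ℕ) [NeZero p] (hp : 5 ≤ p) (T : Finset ℕ) (δ : ℝ) (hδ : 0 < δ) (n : ℕ) :
    residueClass (2 : ZMod p) n / (n : ℝ) ^ (1 + δ) ≤
      (if n.Prime then 0 else residueClass (2 : ZMod p) n) / n + (if n ∈ T then 1 else 0) +
      (1 / δ) * (if n ∈ T then 0 else
        Set.indicator {q : ℕ | q.Prime ∧ q % p = 2} (fun q => (1 : ℝ) / q) n) := by
  rcases n.eq_zero_or_pos with rfl | hn
  · have h0 : ¬ (0 : ℕ) ∈ {q : ℕ | q.Prime ∧ q % p = 2} := by
      intro h
      exact Nat.not_prime_zero h.1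
    have h1 : residueClass (2 : ZMod p) 0 = 0 := residueClass_apply_zero _
    rw [h1, Set.indicator_of_notMem h0]
    have h2 : (0 : ℝ) ≤ if (0 : ℕ) ∈ T then 1 else 0 := by split_ifs <;> norm_num
    simpa using h2
  have hn0 : (0 : ℝ) < n := by exact_mod_cast hn
  have hge := rpow_ge n hn δ hδ.le
  have hres := residueClass_nonneg (2 : ZMod p) n
  have hind : 0 ≤ Set.indicator {q : ℕ | q.Prime ∧ q % p = 2} (fun q => (1 : ℝ) / q) n := by
    apply Set.indicator_nonneg
    intro q _
    positivity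
  by_cases hpr : n.Prime
  · rw [if_pos hpr, zero_div, zero_add]
    by_cases hc : (n : ZMod p) = 2
    · have hr : residueClass (2 : ZMod p) n = Real.log n := by
        unfold residueClass
        rw [Set.indicator_of_mem (show n ∈ {n : ℕ | (n : ZMod p) = 2} from hc)]
        exact vonMangoldt_apply_prime hpr
      rw [hr]
      by_cases hT : n ∈ T
      · rw [if_pos hT, if_pos hT, mul_zero, add_zero, div_le_iff₀ (by positivity), one_mul]
        refine le_trans ?_ hge
        have := Real.log_le_sub_one_of_pos hn0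
        linarith
      · rw [if_neg hT, if_neg hT, zero_add]
        have hm : n ∈ {q : ℕ | q.Prime ∧ q % p = 2} := by
          refine ⟨hpr, ?_⟩
          have h1 : ((n : ℕ) : ZMod p) = ((2 : ℕ) : ZMod p) := by
            rw [hc, Nat.cast_ofNat]
          rw [ZMod.natCast_eq_natCast_iff'] at h1
          rw [h1]
          exact Nat.mod_eq_of_lt (by omega)
        rw [Set.indicator_of_mem hm]
        exact log_bound n hn δ hδ
    · have hr : residueClass (2 : ZMod p) n = 0 := by
        unfold residueClass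
        exact Set.indicator_of_notMem (show n ∉ {n : ℕ | (n : ZMod p) = 2} from hc) _
      rw [hr, zero_div]
      have h1 : (0 : ℝ) ≤ if n ∈ T then 1 else 0 := by split_ifs <;> norm_num
      have h2 : (0 : ℝ) ≤ if n ∈ T then 0 else
        Set.indicator {q : ℕ | q.Prime ∧ q % p = 2} (fun q => (1 : ℝ) / q) n := by
        split_ifs
        · exact le_rfl
        · exact hind
      positivity
  · rw [if_neg hpr]
    have h1 : (0 : ℝ) ≤ if n ∈ T then 1 else 0 := by split_ifs <;> norm_num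
    have h2 : (0 : ℝ) ≤ if n ∈ T then 0 else
        Set.indicator {q : ℕ | q.Prime ∧ q % p = 2} (fun q => (1 : ℝ) / q) n := by
      split_ifs
      · exact le_rfl
      · exact hind
    have h3 : residueClass (2 : ZMod p) n / (n : ℝ) ^ (1 + δ) ≤ residueClass (2 : ZMod p) n / n :=
      div_le_div_of_nonneg_left hres hn0 hge
    have h4 : 0 ≤ 1 / δ * (if n ∈ T then 0 else
        Set.indicator {q : ℕ | q.Prime ∧ q % p = 2} (fun q => (1 : ℝ) / q) n) := by positivity
    linarith

end DIV_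

open DIV_ in
theorem p_DIV : T_DIV := by
  intro p hp hp5 hsum
  have : NeZero p := ⟨hp.ne_zero⟩
  have : Fact p.Prime := ⟨hp⟩
  set u : ℕ → ℝ := Set.indicator {q : ℕ | q.Prime ∧ q % p = 2} (fun q => (1 : ℝ) / q) with hu
  have ha : IsUnit (2 : ZMod p) := by
    rw [isUnit_iff_ne_zero]
    intro h
    have h1 : ((2 : ℕ) : ZMod p) = 0 := by rw [Nat.cast_ofNat]; exact h
    rw [ZMod.natCast_eq_zero_iff] at h1
    have := Nat.le_of_dvd (by norm_num) h1
    omega
  obtain ⟨C, hC⟩ := LSeries_residueClass_lower_bound ha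
  have hc : 0 < (p.totient : ℝ)⁻¹ := inv_pos.mpr (mod_cast p.totient.pos_of_neZero)
  set c : ℝ := (p.totient : ℝ)⁻¹ with hcdef
  have hg := summable_residueClass_non_primes_div (2 : ZMod p)
  set g : ℕ → ℝ := fun n : ℕ ↦ (if n.Prime then 0 else residueClass (2 : ZMod p) n) / n with hgdef
  -- the finite set
  obtain ⟨T, hT⟩ : ∃ T : Finset ℕ, ∑' n, u n - c / 2 < ∑ n ∈ T, u n := by
    have h1 := hsum.hasSum
    have h2 : ∀ᶠ s : Finset ℕ in Filter.atTop, ∑' n, u n - c / 2 < ∑ n ∈ s, u n :=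
      h1.eventually (lt_mem_nhds (by linarith))
    exact h2.exists
  have hT1 : HasSum (fun n : ℕ => if n ∈ T then (1 : ℝ) else 0) (T.card : ℝ) := by
    have h1 : HasSum (fun n : ℕ => if n ∈ T then (1 : ℝ) else 0)
        (∑ n ∈ T, if n ∈ T then (1 : ℝ) else 0) := by
      apply hasSum_sum_of_ne_finset_zero
      intro n hn
      rw [if_neg hn]
    have h2 : (∑ n ∈ T, if n ∈ T then (1 : ℝ) else 0) = T.card := by
      rw [Finset.sum_congr rfl (fun n hn => if_pos hn)]
      simp
    rwa [h2] at h1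
  have hT2 : HasSum (fun n : ℕ => if n ∈ T then (0 : ℝ) else u n) (∑' n, u n - ∑ n ∈ T, u n) := by
    have h1 : HasSum (fun n : ℕ => if n ∈ T then u n else 0) (∑ n ∈ T, if n ∈ T then u n else 0) := by
      apply hasSum_sum_of_ne_finset_zero
      intro n hn
      rw [if_neg hn]
    have h2 : (∑ n ∈ T, if n ∈ T then u n else 0) = ∑ n ∈ T, u n :=
      Finset.sum_congr rfl (fun n hn => if_pos hn)
    rw [h2] at h1
    have h3 := hsum.hasSum.sub h1
    have h4 : (fun n : ℕ => if n ∈ T then (0 : ℝ) else u n) =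
        fun n : ℕ => u n - if n ∈ T then u n else 0 := by
      funext n
      split_ifs <;> simp
    rw [h4]
    exact h3
  set G : ℝ := ∑' n, g n with hG
  have hGn : 0 ≤ G := by
    apply tsum_nonneg
    intro n
    rw [hgdef]
    have := residueClass_nonneg (2 : ZMod p) n
    simp only
    split_ifs <;> positivity
  have main : ∀ δ : ℝ, 0 < δ → δ ≤ 1 → c / δ - C ≤ G + T.card + (1 / δ) * (c / 2) := by
    intro δ hδ hδ1
    have h1 := hC (x := 1 + δ) ⟨by linarith, by linarith⟩
    rw [add_sub_cancel_left] at h1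
    have h2 : HasSum (fun n : ℕ => g n + (if n ∈ T then (1 : ℝ) else 0) +
        (1 / δ) * (if n ∈ T then (0 : ℝ) else u n))
        (G + T.card + (1 / δ) * (∑' n, u n - ∑ n ∈ T, u n)) :=
      (hg.hasSum.add hT1).add (hT2.mul_left _)
    have h3 : ∀ n : ℕ, residueClass (2 : ZMod p) n / (n : ℝ) ^ (1 + δ) ≤
        g n + (if n ∈ T then (1 : ℝ) else 0) + (1 / δ) * (if n ∈ T then (0 : ℝ) else u n) :=
      fun n => term_bound p hp5 T δ hδ n
    have h4 : ∀ n : ℕ, 0 ≤ residueClass (2 : ZMod p) n / (n : ℝ) ^ (1 + δ) := by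
      intro n
      have := residueClass_nonneg (2 : ZMod p) n
      positivity
    have h5 : Summable fun n : ℕ => residueClass (2 : ZMod p) n / (n : ℝ) ^ (1 + δ) :=
      Summable.of_nonneg_of_le h4 h3 h2.summable
    have h6 := hasSum_le h3 h5.hasSum h2
    have h7 : (1 / δ) * (∑' n, u n - ∑ n ∈ T, u n) ≤ (1 / δ) * (c / 2) := by
      apply mul_le_mul_of_nonneg_left _ (by positivity)
      linarith
    linarith
  have main2 : ∀ δ : ℝ, 0 < δ → δ ≤ 1 → c / 2 ≤ (|C| + G + T.card + 1) * δ := by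
    intro δ hδ hδ1
    have h1 := main δ hδ hδ1
    have h2 : c / δ = (1 / δ) * c := by ring
    rw [h2] at h1
    have h3 : (1 / δ) * (c / 2) ≤ |C| + G + T.card := by
      have := le_abs_self C
      nlinarith
    rw [div_mul_eq_mul_div, one_mul, div_le_iff₀ hδ] at h3
    linarith
  have hM : 0 < |C| + G + T.card + 1 := by positivity
  set M : ℝ := |C| + G + T.card + 1 with hMdef
  have h1 := main2 (min 1 (c / (4 * M))) (lt_min one_pos (by positivity)) (min_le_left _ _)
  have h2 : M * min 1 (c / (4 * M)) ≤ M * (c / (4 * M)) :=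
    mul_le_mul_of_nonneg_left (min_le_right _ _) hM.le
  have h3 : M * (c / (4 * M)) = c / 4 := by field_simp
  linarith

end Pool.Agent.FLN
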