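import Mathlib

set_option autoImplicit false

/-!
# Quadratic points of Fermat curves and rational lines (MP_50a406_nt): definitions
-/

namespace Pool.Agent.FLN

/-- `K` is a quadratic field and `(x, y, z)` is a solution of `x ^ p + y ^ p = z ^ p` in `K` with
`x y z ≠ 0`, which is nontrivial (`x / z` and `y / z` are not both roots of unity) and not
proportional to a rational solution. -/
structure IsQuadPoint (p : ℕ) (K : Type) [Field K] [NumberField K] (x y z : K) : Prop where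
  quad : Module.finrank ℚ K = 2
  eqn : x ^ p + y ^ p = z ^ p
  hx : x ≠ 0
  hy : y ≠ 0
  hz : z ≠ 0
  nontrivial : ¬ ∃ m : ℕ, 0 < m ∧ (x / z) ^ m = 1 ∧ (y / z) ^ m = 1
  irrational : ¬ ∃ r s : ℚ, x = r * z ∧ y = s * z

/-- The rational line `a X + b Y = c Z` contains a nontrivial quadratic point of some Fermat curve
`X ^ p + Y ^ p = Z ^ p` with prime exponent `p ≥ 5`. -/
def HasPoint (a b c : ℤ) : Prop :=
  ∃ (p : ℕ) (K : Type) (_ : Field K) (_ : NumberField K) (x y z : K),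
    p.Prime ∧ 5 ≤ p ∧ IsQuadPoint p K x y z ∧ (a : K) * x + b * y = c * z

/-- The rational lines `a X + b Y = c Z` of height at most `H`, `gcd(a, b, c) = 1`. -/
def Lines (H : ℕ) : Set (ℤ × ℤ × ℤ) :=
  {l | |l.1| ≤ (H : ℤ) ∧ |l.2.1| ≤ (H : ℤ) ∧ |l.2.2| ≤ (H : ℤ) ∧
    Int.gcd (Int.gcd l.1 l.2.1) l.2.2 = 1}

end Pool.Agent.FLN
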