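import Pool.Agent.FLN.Targets

set_option autoImplicit false

/-!
# MP_50a406_nt, target GP1: the coefficients of the line at `p`, if `p` divides one of them
-/

namespace Pool.Agent.FLN

open IsDedekindDomain NumberField
open scoped WithZero

namespace GP1_

variable {K : Type} [Field K]

/-- the logarithm of the value -/
noncomputable def lg (v : Valuation K ℤᵐ⁰) (x : K) : ℤ := WithZero.log (v x)

theorem lg_mul (v : Valuation K ℤᵐ⁰) {x y : K} (hx : x ≠ 0) (hy : y ≠ 0) :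
    lg v (x * y) = lg v x + lg v y := by
  unfold lg
  rw [map_mul, WithZero.log_mul ((v.ne_zero_iff).2 hx) ((v.ne_zero_iff).2 hy)]

theorem lg_pow (v : Valuation K ℤᵐ⁰) (x : K) (n : ℕ) : lg v (x ^ n) = n * lg v x := by
  unfold lg
  rw [map_pow, WithZero.log_pow, nsmul_eq_mul]

theorem lg_neg (v : Valuation K ℤᵐ⁰) (x : K) : lg v (-x) = lg v x := by
  unfold lg
  rw [Valuation.map_neg]

theorem lg_le (v : Valuation K ℤᵐ⁰) {x y : K} (hx : x ≠ 0) (hy : y ≠ 0) :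
    v x ≤ v y ↔ lg v x ≤ lg v y := by
  unfold lg
  rw [WithZero.log_le_log ((v.ne_zero_iff).2 hx) ((v.ne_zero_iff).2 hy)]

theorem lg_lt (v : Valuation K ℤᵐ⁰) {x y : K} (hx : x ≠ 0) (hy : y ≠ 0) :
    v x < v y ↔ lg v x < lg v y := by
  unfold lg
  rw [WithZero.log_lt_log ((v.ne_zero_iff).2 hx) ((v.ne_zero_iff).2 hy)]

theorem lg_eq (v : Valuation K ℤᵐ⁰) {x y : K} (hx : x ≠ 0) (hy : y ≠ 0) :
    v x = v y ↔ lg v x = lg v y := by
  rw [le_antisymm_iff, le_antisymm_iff, lg_le v hx hy, lg_le v hy hx]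

theorem lg_add_le (v : Valuation K ℤᵐ⁰) {x y : K} (hx : x ≠ 0) (hy : y ≠ 0) (h : x + y ≠ 0) :
    lg v (x + y) ≤ max (lg v x) (lg v y) := by
  rw [le_max_iff, ← lg_le v h hx, ← lg_le v h hy, ← le_max_iff]
  exact v.map_add x y

theorem lg_sub_le (v : Valuation K ℤᵐ⁰) {x y : K} (hx : x ≠ 0) (hy : y ≠ 0) (h : x - y ≠ 0) :
    lg v (x - y) ≤ max (lg v x) (lg v y) := by
  rw [le_max_iff, ← lg_le v h hx, ← lg_le v h hy, ← le_max_iff]
  exact v.map_sub x y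

theorem lg_sub_eq (v : Valuation K ℤᵐ⁰) {x y : K} (hx : x ≠ 0) (hy : y ≠ 0)
    (h : lg v x ≠ lg v y) : lg v (x - y) = max (lg v x) (lg v y) := by
  rcases lt_or_gt_of_ne h with h | h
  · have h1 := v.map_sub_eq_of_lt_right ((lg_lt v hx hy).2 h)
    rw [max_eq_right h.le]
    unfold lg
    rw [h1]
  · have h1 := v.map_sub_eq_of_lt_left ((lg_lt v hy hx).2 h)
    rw [max_eq_left h.le]
    unfold lg
    rw [h1]

/-- three `p`-th powers with sum zero -/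
theorem three (v : Valuation K ℤᵐ⁰) (p : ℕ) (hp : 0 < p) {x y z : K} (hx : x ≠ 0) (hy : y ≠ 0)
    (hz : z ≠ 0) (h : x ^ p + y ^ p + z ^ p = 0) : lg v x ≤ max (lg v y) (lg v z) := by
  have h1 : y ^ p + z ^ p = - x ^ p := by linear_combination h
  have h2 : y ^ p + z ^ p ≠ 0 := by
    rw [h1]
    exact neg_ne_zero.2 (pow_ne_zero p hx)
  have h3 := lg_add_le v (pow_ne_zero p hy) (pow_ne_zero p hz) h2
  rw [h1, lg_neg, lg_pow, lg_pow, lg_pow] at h3
  have hp' : (0 : ℤ) < p := by exact_mod_cast hp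
  rw [le_max_iff] at h3 ⊢
  rcases h3 with h3 | h3
  · left
    exact le_of_mul_le_mul_left h3 hp'
  · right
    exact le_of_mul_le_mul_left h3 hp'

/-- two of three are maximal -/
theorem two_max {f1 f2 f3 : ℤ} (h1 : f1 ≤ max f2 f3) (h2 : f2 ≤ max f3 f1) (h3 : f3 ≤ max f1 f2) :
    (f1 = f2 ∧ f3 ≤ f1) ∨ (f2 = f3 ∧ f1 ≤ f2) ∨ (f3 = f1 ∧ f2 ≤ f3) := by
  omega

theorem shape {f1 f2 f3 g1 g2 g3 M1 M2 M3 : ℤ}
    (hf1 : f1 ≤ max f2 f3) (hf2 : f2 ≤ max f3 f1) (hf3 : f3 ≤ max f1 f2)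
    (hg1 : g1 ≤ max g2 g3) (hg2 : g2 ≤ max g3 g1) (hg3 : g3 ≤ max g1 g2)
    (h1 : M1 = max (f2 + g3) (f3 + g2)) (h2 : M2 = max (f3 + g1) (f1 + g3))
    (h3 : M3 = max (f1 + g2) (f2 + g1)) :
    (M1 = M2 ∧ M2 = M3) ∨ (M2 = M3 ∧ M2 < M1) ∨ (M3 = M1 ∧ M3 < M2) ∨ (M1 = M2 ∧ M1 < M3) := by
  rcases two_max hf1 hf2 hf3 with ⟨ha, hb⟩ | ⟨ha, hb⟩ | ⟨ha, hb⟩ <;>
    rcases two_max hg1 hg2 hg3 with ⟨hc, hd⟩ | ⟨hc, hd⟩ | ⟨hc, hd⟩ <;>
    clear hf1 hf2 hf3 hg1 hg2 hg3 <;> omega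

/-- the case of a small coordinate -/
theorem small {n n' n'' M M' θ θ' θ'' L P e : ℤ} (hP : 4 ≤ P) (hM : M' < M)
    (E1 : L + n + P * M + θ = L + n' + P * M' + θ')
    (E2 : L + n + P * M + θ = L + n'' + P * M' + θ'')
    (hθ : -e ≤ θ) (hθ' : θ' ≤ 0) (hθ'' : θ'' ≤ 0) (hn' : n' ≤ 0) (one : n = 0 ∨ n' = 0 ∨ n'' = 0) :
    n ≤ e - P := by
  have h1 : P * M' ≤ P * M - P := by nlinarith
  rcases one with h | h | h
  · omega
  · omega
  · omega

/-- the case without a small coordinate -/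
theorem nosmall {A B M θ1 θ2 L X P e : ℤ}
    (E : L + A + P * M + θ1 = L + B + P * M + θ2) (hA : A < 0) (hB : B = 0) (hL : L + B ≤ M)
    (hθ2 : -e ≤ θ2) (h1 : X = M ∨ L + A = M)
    (h2 : X = M → L + A < X → θ1 = -e) : False := by
  rcases h1 with h | h
  · have := h2 h (by omega)
    omega
  · omega

/-- the value at an integer -/
theorem lg_int [CharZero K] {v : Valuation K ℤᵐ⁰} {q e : ℕ} (h : Adm v q e) {n : ℤ} (hn : n ≠ 0) :
    lg v (n : K) = -((e : ℤ) * padicValInt q n) := by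
  unfold lg
  rw [h.2.2 n hn, WithZero.log_exp]
  push_cast
  ring

/-- the logarithmic form of LP -/
theorem lp [CharZero K] (hLP : T_LP) {v : Valuation K ℤᵐ⁰} {p e : ℕ} (h : Adm v p e) (hp : 5 ≤ p)
    {α β : K} (hα : α ≠ 0) (hβ : β ≠ 0) (hαβ : α ≠ β) :
    ∃ θ : ℤ, lg v (α ^ p - β ^ p) =
      lg v (α - β) + ((p : ℤ) - 1) * max (lg v α) (lg v β) + θ ∧ -(e : ℤ) ≤ θ ∧ θ ≤ 0 ∧
      (lg v α = lg v β → lg v (α - β) < lg v α → θ = -(e : ℤ)) := by
  have hs : α - β ≠ 0 := sub_ne_zero.2 hαβ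
  have hp1 : ((p - 1 : ℕ) : ℤ) = (p : ℤ) - 1 := by
    rw [Nat.cast_sub (by omega)]
    simp
  have hpK : ((p : ℤ) : K) ≠ 0 := by
    have : (p : K) ≠ 0 := by exact_mod_cast h.1.ne_zero
    push_cast
    exact this
  have hlp : lg v ((p : ℤ) : K) = -(e : ℤ) := by
    rw [lg_int h (by exact_mod_cast h.1.ne_zero)]
    have : Fact p.Prime := ⟨h.1⟩
    rw [padicValInt_self]
    simp
  by_cases hc : v α = v β ∧ v (α - β) < v α
  · refine ⟨-(e : ℤ), ?_, le_rfl, by omega, fun _ _ => rfl⟩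
    have h1 := (hLP K v p e h hp α β hα hβ hαβ).1 hc
    have h2 : v (α ^ p - β ^ p) = v ((α - β) * α ^ (p - 1) * ((p : ℤ) : K)) := by
      rw [h1, map_mul, map_mul, map_pow]
      push_cast
      rfl
    have h3 : lg v (α ^ p - β ^ p) = lg v ((α - β) * α ^ (p - 1) * ((p : ℤ) : K)) := by
      unfold lg
      rw [h2]
    have h4 : lg v α = lg v β := (lg_eq v hα hβ).1 hc.1
    rw [h3, lg_mul v (mul_ne_zero hs (pow_ne_zero _ hα)) hpK, lg_mul v hs (pow_ne_zero _ hα),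
      lg_pow, hlp, hp1, ← h4, max_self]
  · refine ⟨0, ?_, by omega, le_rfl, ?_⟩
    · have h1 := (hLP K v p e h hp α β hα hβ hαβ).2 hc
      rcases le_total (v β) (v α) with h5 | h5
      · rw [max_eq_left h5] at h1
        have h2 : v (α ^ p - β ^ p) = v ((α - β) * α ^ (p - 1)) := by
          rw [h1, map_mul, map_pow]
        have h3 : lg v (α ^ p - β ^ p) = lg v ((α - β) * α ^ (p - 1)) := by
          unfold lg
          rw [h2]
        rw [h3, lg_mul v hs (pow_ne_zero _ hα), lg_pow, hp1,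
          max_eq_left ((lg_le v hβ hα).1 h5), add_zero]
      · rw [max_eq_right h5] at h1
        have h2 : v (α ^ p - β ^ p) = v ((α - β) * β ^ (p - 1)) := by
          rw [h1, map_mul, map_pow]
        have h3 : lg v (α ^ p - β ^ p) = lg v ((α - β) * β ^ (p - 1)) := by
          unfold lg
          rw [h2]
        rw [h3, lg_mul v hs (pow_ne_zero _ hβ), lg_pow, hp1,
          max_eq_right ((lg_le v hα hβ).1 h5), add_zero]
    · intro h6 h7
      exact absurd ⟨(lg_eq v hα hβ).2 h6, (lg_lt v hs hα).2 h7⟩ hc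

/-- the local data of one index -/
theorem index [CharZero K] (hLP : T_LP) {v : Valuation K ℤᵐ⁰} {p e : ℕ} (h : Adm v p e)
    (hp : 5 ≤ p) {X Y X' Y' l : K} {n : ℤ} (hX : X ≠ 0) (hY : Y ≠ 0) (hX' : X' ≠ 0) (hY' : Y' ≠ 0)
    (hl : l ≠ 0) (hn : n ≠ 0) (hd : X * Y' - Y * X' = l * n) :
    ∃ M θ : ℤ, M = max (lg v X + lg v Y') (lg v Y + lg v X') ∧
      lg v (X ^ p * Y' ^ p - Y ^ p * X' ^ p) = lg v l + lg v (n : K) + ((p : ℤ) - 1) * M + θ ∧
      -(e : ℤ) ≤ θ ∧ θ ≤ 0 ∧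
      (lg v X + lg v Y' = M → lg v X + lg v Y' = lg v Y + lg v X' →
        lg v l + lg v (n : K) < M → θ = -(e : ℤ)) ∧
      lg v l + lg v (n : K) ≤ M ∧
      (lg v X + lg v Y' ≠ lg v Y + lg v X' → lg v l + lg v (n : K) = M) := by
  have hnK : (n : K) ≠ 0 := by exact_mod_cast hn
  have hα : X * Y' ≠ 0 := mul_ne_zero hX hY'
  have hβ : Y * X' ≠ 0 := mul_ne_zero hY hX'
  have hs : X * Y' - Y * X' ≠ 0 := by
    rw [hd]
    exact mul_ne_zero hl hnK
  obtain ⟨θ, h1, h2, h3, h4⟩ := lp hLP h hp hα hβ (sub_ne_zero.1 hs)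
  have h5 : lg v (X * Y' - Y * X') = lg v l + lg v (n : K) := by rw [hd, lg_mul v hl hnK]
  rw [mul_pow, mul_pow, h5, lg_mul v hX hY', lg_mul v hY hX'] at h1
  rw [h5, lg_mul v hX hY', lg_mul v hY hX'] at h4
  refine ⟨_, θ, rfl, h1, h2, h3, ?_, ?_, ?_⟩
  · intro h6 h7 h8
    exact h4 h7 (by rw [h6]; exact h8)
  · have := lg_sub_le v hα hβ hs
    rw [h5, lg_mul v hX hY', lg_mul v hY hX'] at this
    exact this
  · intro h6
    have := lg_sub_eq v hα hβ (by rw [lg_mul v hX hY', lg_mul v hY hX']; exact h6)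
    rw [h5, lg_mul v hX hY', lg_mul v hY hX'] at this
    exact this

/-- from the value to divisibility -/
theorem dvd_of [CharZero K] {v : Valuation K ℤᵐ⁰} {p e : ℕ} (h : Adm v p e) (hp : 5 ≤ p) {n : ℤ}
    (hn : n ≠ 0) (hle : lg v (n : K) ≤ (e : ℤ) - ((p : ℤ) - 1)) :
    (p : ℤ) ^ ((p - 3) / 2) ∣ n := by
  have : Fact p.Prime := ⟨h.1⟩
  rw [padicValInt_dvd_iff]
  right
  rw [lg_int h hn] at hle
  rcases h.2.1 with he | he
  · subst he
    push_cast at hle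
    omega
  · subst he
    push_cast at hle
    omega

end GP1_

open GP1_ in
/-- GP1: the coefficients of the line at `p`, if `p` divides one of them. -/
theorem p_GP1 (h1 : T_VAL) (h2 : T_LP) : T_GP1 := by
  intro p K _ _ σ X1 X2 X3 l a b c hpp hp5 hK hD hpa
  obtain ⟨Pi, e, hv⟩ := (h1 K hK).2 p hpp
  generalize Pi.valuation K = v at hv
  have hσ : ∀ x : K, x ≠ 0 → σ x ≠ 0 := fun x hx => by
    rwa [Ne, map_eq_zero]
  have hs1 := hσ _ hD.h1
  have hs2 := hσ _ hD.h2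
  have hs3 := hσ _ hD.h3
  have hpos : 0 < p := by omega
  have eqσ : (σ X1) ^ p + (σ X2) ^ p + (σ X3) ^ p = 0 := by
    have := congrArg σ hD.eqn
    simpa using this
  -- the values
  have hf1 := three v p hpos hD.h1 hD.h2 hD.h3 hD.eqn
  have hf2 := three v p hpos hD.h2 hD.h3 hD.h1 (by linear_combination hD.eqn)
  have hf3 := three v p hpos hD.h3 hD.h1 hD.h2 (by linear_combination hD.eqn)
  have hg1 := three v p hpos hs1 hs2 hs3 eqσ
  have hg2 := three v p hpos hs2 hs3 hs1 (by linear_combination eqσ)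
  have hg3 := three v p hpos hs3 hs1 hs2 (by linear_combination eqσ)
  obtain ⟨M1, θ1, m1, E1, t1, t1', c1, s1, d1⟩ :=
    index h2 hv hp5 hD.h2 hD.h3 hs2 hs3 hD.l0 hD.a0 hD.la
  obtain ⟨M2, θ2, m2, E2, t2, t2', c2, s2, d2⟩ :=
    index h2 hv hp5 hD.h3 hD.h1 hs3 hs1 hD.l0 hD.b0 hD.lb
  obtain ⟨M3, θ3, m3, E3, t3, t3', c3, s3, d3⟩ :=
    index h2 hv hp5 hD.h1 hD.h2 hs1 hs2 hD.l0 hD.c0 hD.lc
  have e12 : X2 ^ p * (σ X3) ^ p - X3 ^ p * (σ X2) ^ p =
      X3 ^ p * (σ X1) ^ p - X1 ^ p * (σ X3) ^ p := by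
    linear_combination (σ X3) ^ p * hD.eqn - X3 ^ p * eqσ
  have e13 : X2 ^ p * (σ X3) ^ p - X3 ^ p * (σ X2) ^ p =
      X1 ^ p * (σ X2) ^ p - X2 ^ p * (σ X1) ^ p := by
    linear_combination X2 ^ p * eqσ - (σ X2) ^ p * hD.eqn
  rw [← e12] at E2
  rw [← e13] at E3
  have E12 := E1.symm.trans E2
  have E13 := E1.symm.trans E3
  -- the coefficients
  have la := lg_int hv hD.a0
  have lb := lg_int hv hD.b0
  have lc := lg_int hv hD.c0
  have he : (0 : ℤ) < e ∧ (e : ℤ) ≤ 2 := by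
    rcases hv.2.1 with h | h <;> subst h <;> norm_num
  have hneg : ∀ n : ℤ, n ≠ 0 → lg v (n : K) ≤ 0 := by
    intro n hn
    rw [lg_int hv hn]
    have : (0 : ℤ) ≤ (e : ℤ) * padicValInt p n := by positivity
    omega
  have hzero : ∀ n : ℤ, n ≠ 0 → ¬ (p : ℤ) ∣ n → lg v (n : K) = 0 := by
    intro n hn hd
    rw [lg_int hv hn, padicValInt.eq_zero_of_not_dvd hd]
    simp
  have hlt : lg v (a : K) < 0 := by
    rw [la]
    have : Fact p.Prime := ⟨hpp⟩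
    have h3 : 1 ≤ padicValInt p a := by
      have := (padicValInt_dvd_iff (p := p) 1 a).1 (by simpa using hpa)
      rcases this with h | h
      · exact absurd h hD.a0
      · exact h
    have h4 : (1 : ℤ) ≤ (padicValInt p a : ℤ) := by exact_mod_cast h3
    nlinarith [he.1]
  have one : lg v (b : K) = 0 ∨ lg v (c : K) = 0 := by
    by_contra hcon
    rw [not_or] at hcon
    have hb : (p : ℤ) ∣ b := by
      by_contra h
      exact hcon.1 (hzero b hD.b0 h)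
    have hc : (p : ℤ) ∣ c := by
      by_contra h
      exact hcon.2 (hzero c hD.c0 h)
    have hg : (p : ℤ) ∣ (Int.gcd (Int.gcd a b) c : ℤ) :=
      Int.dvd_coe_gcd (Int.dvd_coe_gcd hpa hb) hc
    rw [hD.gcd] at hg
    have := Int.le_of_dvd (by norm_num) hg
    omega
  have hna := hneg a hD.a0
  have hnb := hneg b hD.b0
  have hnc := hneg c hD.c0
  have hP : (4 : ℤ) ≤ (p : ℤ) - 1 := by omega
  rcases shape hf1 hf2 hf3 hg1 hg2 hg3 m1 m2 m3 with ⟨ha, hb⟩ | ⟨ha, hb⟩ | ⟨ha, hb⟩ | ⟨ha, hb⟩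
  · exfalso
    subst ha
    subst hb
    have hX : lg v X2 + lg v (σ X3) = M1 ∨ lg v l + lg v (a : K) = M1 := by
      by_cases h : lg v X2 + lg v (σ X3) = lg v X3 + lg v (σ X2)
      · left
        rw [m1, ← h, max_self]
      · exact Or.inr (d1 h)
    have hθ : lg v X2 + lg v (σ X3) = M1 → lg v l + lg v (a : K) < lg v X2 + lg v (σ X3) →
        θ1 = -(e : ℤ) := by
      intro h3 h4
      by_cases h : lg v X2 + lg v (σ X3) = lg v X3 + lg v (σ X2)
      · exact c1 h3 h (by rw [← h3]; exact h4)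
      · have := d1 h
        omega
    rcases one with h0 | h0
    · exact nosmall E12 hlt h0 s2 t2 hX hθ
    · exact nosmall E13 hlt h0 s3 t3 hX hθ
  · left
    subst ha
    exact dvd_of hv hp5 hD.a0 (small hP hb E12 E13 t1 t2' t3' hnb (Or.inr one))
  · right; left
    subst ha
    exact dvd_of hv hp5 hD.b0 (small hP hb E12.symm (E12.symm.trans E13) t2 t1' t3' hna
      (one.elim Or.inl fun h => Or.inr (Or.inr h)))
  · right; right
    subst ha
    exact dvd_of hv hp5 hD.c0 (small hP hb E13.symm (E13.symm.trans E12) t3 t1' t2' hna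
      (one.elim (fun h => Or.inr (Or.inr h)) Or.inl))

end Pool.Agent.FLN
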