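import Pool.Agent.FLN.Targets

set_option autoImplicit false

/-!
# FLN-GP2: the coefficients of the line at `p`, if `p` divides none of them
-/

namespace Pool.Agent.FLN

open IsDedekindDomain NumberField
open scoped WithZero

namespace GP2_

theorem le_exp_neg_one {x : ℤᵐ⁰} (h : x < 1) : x ≤ WithZero.exp (-1 : ℤ) := by
  rcases eq_or_ne x 0 with rfl | hx
  · simp
  · rw [← WithZero.log_le_iff_le_exp hx]
    have h1 : WithZero.log x < 0 := by
      rw [WithZero.log_lt_iff_lt_exp hx]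
      simpa using h
    omega

section val

variable {K : Type} [Field K] {v : Valuation K ℤᵐ⁰} {q e : ℕ}

theorem v_prime (hv : Adm v q e) : v (q : K) = WithZero.exp (-(e : ℤ)) := by
  have h := hv.2.2 (q : ℤ) (by exact_mod_cast hv.1.ne_zero)
  have h1 : padicValInt q (q : ℤ) = 1 := by
    have : Fact q.Prime := ⟨hv.1⟩
    rw [padicValInt.of_nat]
    exact padicValNat_self
  rw [h1, mul_one] at h
  simpa using h

theorem v_int_le (hv : Adm v q e) (n : ℤ) : v (n : K) ≤ 1 := by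
  rcases eq_or_ne n 0 with rfl | hn
  · simp
  · rw [hv.2.2 n hn, ← WithZero.exp_zero, WithZero.exp_le_exp]
    omega

theorem v_int_lt (hv : Adm v q e) (n : ℤ) : v (n : K) < 1 ↔ (q : ℤ) ∣ n := by
  have : Fact q.Prime := ⟨hv.1⟩
  rcases eq_or_ne n 0 with rfl | hn
  · simp
  · rw [hv.2.2 n hn, ← WithZero.exp_zero, WithZero.exp_lt_exp]
    have he : 1 ≤ e := by rcases hv.2.1 with h | h <;> omega
    have h1 : (q : ℤ) ∣ n ↔ 1 ≤ padicValInt q n := by
      have := padicValInt_dvd_iff (p := q) 1 n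
      rw [pow_one] at this
      rw [this]
      simp [hn]
    rw [h1]
    constructor
    · intro h
      by_contra hcon
      have : padicValInt q n = 0 := by omega
      rw [this] at h
      simp at h
    · intro h
      have : 1 ≤ e * padicValInt q n := Nat.one_le_iff_ne_zero.2 (by positivity)
      omega

theorem v_int_eq (hv : Adm v q e) {n : ℤ} (hn : ¬ (q : ℤ) ∣ n) : v (n : K) = 1 :=
  le_antisymm (v_int_le hv n) (not_lt.1 fun h => hn ((v_int_lt hv n).1 h))

theorem pow_lt (hv : Adm v q e) {n : ℕ} (h5 : 4 ≤ n) {x : ℤᵐ⁰} (hx : x < 1) :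
    x ^ n < v (q : K) := by
  have h1 := le_exp_neg_one hx
  have h2 : x ^ n ≤ WithZero.exp (-1 : ℤ) ^ n := pow_le_pow_left₀ (zero_le) h1 n
  refine lt_of_le_of_lt h2 ?_
  rw [v_prime hv, ← WithZero.exp_nsmul, WithZero.exp_lt_exp]
  have he : e ≤ 2 := by rcases hv.2.1 with h | h <;> omega
  rw [nsmul_eq_mul]
  omega

theorem v_prime_ne (hv : Adm v q e) : v (q : K) ≠ 0 := by
  rw [v_prime hv]
  exact WithZero.exp_ne_zero

theorem v_prime_lt (hv : Adm v q e) : v (q : K) < 1 := by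
  have := (v_int_lt hv (q : ℤ)).2 dvd_rfl
  simpa using this

theorem sub_pow_lt {x y : K} (hx : v x ≤ 1) (hy : v y ≤ 1) (h : v (x - y) < 1) (n : ℕ) :
    v (x ^ n - y ^ n) < 1 := by
  induction n with
  | zero => simp
  | succ n ih =>
    have h1 : x ^ (n + 1) - y ^ (n + 1) = x * (x ^ n - y ^ n) + (x - y) * y ^ n := by ring
    rw [h1]
    refine Valuation.map_add_lt v ?_ ?_
    · rw [map_mul]
      exact lt_of_le_of_lt (mul_le_of_le_one_left' hx) ih
    · rw [map_mul, map_pow]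
      exact lt_of_le_of_lt (mul_le_of_le_one_right' (pow_le_one' hy n)) h

/-- Fermat's little theorem for rational units -/
theorem rat_pow [CharZero K] (hv : Adm v q e) (r : ℚ) (hr : v (r : K) = 1) :
    v ((r : K) ^ (q - 1) - 1) < 1 := by
  have : Fact q.Prime := ⟨hv.1⟩
  have hd : (r.den : K) ≠ 0 := by exact_mod_cast r.den_ne_zero
  have h1 : (r : K) = (r.num : K) / (r.den : K) := by
    conv_lhs => rw [← Rat.num_div_den r]
    push_cast
    rfl
  have h2 : v (r.num : K) = v (r.den : K) := by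
    rw [h1, map_div₀] at hr
    have h3 : v (r.den : K) ≠ 0 := (Valuation.ne_zero_iff v).2 hd
    exact (div_eq_one_iff_eq h3).1 hr
  have h4 : ¬ ((q : ℤ) ∣ r.num) := by
    intro h
    have h5 := (v_int_lt hv r.num).2 h
    rw [h2] at h5
    have h6 : (q : ℤ) ∣ (r.den : ℤ) := (v_int_lt hv (r.den : ℤ)).1 (by simpa using h5)
    have h7 : q ∣ r.num.natAbs := Int.natCast_dvd.1 h
    have h8 : q ∣ r.den := by exact_mod_cast h6
    have h9 := Nat.dvd_gcd h7 h8
    rw [r.reduced.gcd_eq_one] at h9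
    exact hv.1.one_lt.ne' (Nat.dvd_one.1 h9)
  have h5 : ¬ ((q : ℤ) ∣ (r.den : ℤ)) := by
    intro h
    have h6 := (v_int_lt hv (r.den : ℤ)).2 h
    have h7 : v (r.num : K) < 1 := by
      rw [h2]
      simpa using h6
    exact h4 ((v_int_lt hv r.num).1 h7)
  have fl : ∀ n : ℤ, ¬ ((q : ℤ) ∣ n) → (q : ℤ) ∣ n ^ (q - 1) - 1 := by
    intro n hn
    have h6 : (n : ZMod q) ≠ 0 := by
      intro h
      exact hn ((ZMod.intCast_zmod_eq_zero_iff_dvd n q).1 h)
    have h7 := ZMod.pow_card_sub_one_eq_one h6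
    rw [← ZMod.intCast_zmod_eq_zero_iff_dvd]
    push_cast
    rw [h7, sub_self]
  have h6 : (q : ℤ) ∣ r.num ^ (q - 1) - (r.den : ℤ) ^ (q - 1) := by
    have := dvd_sub (fl _ h4) (fl _ h5)
    have e1 : r.num ^ (q - 1) - 1 - ((r.den : ℤ) ^ (q - 1) - 1) =
      r.num ^ (q - 1) - (r.den : ℤ) ^ (q - 1) := by ring
    rwa [e1] at this
  have h7 := (v_int_lt hv _).2 h6
  push_cast at h7
  have h8 : v (r.den : K) = 1 := by
    have := v_int_eq hv h5
    simpa using this
  have h9 : (r : K) ^ (q - 1) - 1 =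
      ((r.num : K) ^ (q - 1) - (r.den : K) ^ (q - 1)) / (r.den : K) ^ (q - 1) := by
    rw [h1, div_pow, sub_div, div_self (pow_ne_zero _ hd)]
  rw [h9, map_div₀, map_pow, h8, one_pow, div_one]
  exact h7

end val

/-- binomial theorem modulo the second power -/
theorem binom2 {A : Type} [CommRing A] {p : ℕ} (hp : p.Prime) (h3 : 3 ≤ p) (t : A) :
    ∃ g : A, (t + 1) ^ p = 1 + p * t + p * t ^ 2 * g + t ^ p := by
  obtain ⟨n, rfl⟩ : ∃ n, p = n + 2 := ⟨p - 2, by omega⟩
  have hc : ∀ m : ℕ, ∃ c : ℕ, m < n → (n + 2).choose (m + 2) = (n + 2) * c := by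
    intro m
    by_cases hm : m < n
    · obtain ⟨c, hc⟩ := hp.dvd_choose_self (k := m + 2) (by omega) (by omega)
      exact ⟨c, fun _ => hc⟩
    · exact ⟨0, fun h => absurd h hm⟩
  choose c hc using hc
  refine ⟨∑ m ∈ Finset.range n, t ^ m * (c m : A), ?_⟩
  rw [add_pow, Finset.sum_range_succ, Finset.sum_range_succ', Finset.sum_range_succ']
  have h1 : ∑ k ∈ Finset.range n, t ^ (k + 1 + 1) * 1 ^ (n + 2 - (k + 1 + 1)) *
      ((n + 2).choose (k + 1 + 1) : A) =
      ((n + 2 : ℕ) : A) * t ^ 2 * ∑ m ∈ Finset.range n, t ^ m * (c m : A) := by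
    rw [Finset.mul_sum]
    refine Finset.sum_congr rfl fun k hk => ?_
    rw [hc k (Finset.mem_range.1 hk)]
    push_cast
    rw [one_pow]
    ring
  rw [h1]
  simp only [zero_add, pow_one, one_pow, mul_one, Nat.choose_one_right, pow_zero,
    Nat.choose_zero_right, Nat.cast_one, Nat.choose_self]
  ring

section two

variable {K : Type} [Field K] [CharZero K] {v : Valuation K ℤᵐ⁰} {p e : ℕ}

/-- the case of distinct reductions -/
theorem case1 (hv : Adm v p e) (h5 : 5 ≤ p) {l α1 β1 α2 β2 : K} {a b : ℤ} (hl : l ≠ 0)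
    (e1 : α1 - β1 = l * a) (e2 : α2 - β2 = l * b) (hE : α1 ^ p - β1 ^ p = α2 ^ p - β2 ^ p)
    (m1 : v α1 ≤ v l) (m2 : v β1 ≤ v l) (m3 : v α2 ≤ v l) (m4 : v β2 ≤ v l) :
    (p : ℤ) ∣ a - b := by
  have hodd : Odd p := hv.1.odd_of_ne_two (by omega)
  have hvl : v l ≠ 0 := (Valuation.ne_zero_iff v).2 hl
  have key : ∀ α β : K, ∀ n : ℤ, α - β = l * n → v α ≤ v l → v β ≤ v l →
      ∃ r : K, v r ≤ 1 ∧ (n : K) ^ p = (α ^ p - β ^ p) / l ^ p + p * r := by
    intro α β n h1 h2 h3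
    let x : v.integer := ⟨α / l, by
      rw [Valuation.mem_integer_iff, map_div₀]
      exact div_le_one_of_le₀ h2 (zero_le)⟩
    let y : v.integer := ⟨-(β / l), by
      rw [Valuation.mem_integer_iff, Valuation.map_neg, map_div₀]
      exact div_le_one_of_le₀ h3 (zero_le)⟩
    obtain ⟨r, hr⟩ := exists_add_pow_prime_eq hv.1 x y
    refine ⟨((x * y * r : v.integer) : K), (x * y * r).2, ?_⟩
    have h4 := congrArg (fun z : v.integer => (z : K)) hr
    simp only [Subring.coe_add, Subring.coe_pow, Subring.coe_mul, Subring.coe_natCast] at h4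
    have h5 : (x : K) + (y : K) = n := by
      show α / l + -(β / l) = n
      field_simp
      linear_combination h1
    rw [h5] at h4
    rw [h4]
    have h6 : (y : K) ^ p = -(β ^ p / l ^ p) := by
      show (-(β / l)) ^ p = _
      rw [hodd.neg_pow, div_pow]
    have h7 : (x : K) ^ p = α ^ p / l ^ p := by
      show (α / l) ^ p = _
      rw [div_pow]
    rw [h6, h7]
    push_cast
    ring
  obtain ⟨r1, hr1, q1⟩ := key α1 β1 a e1 m1 m2
  obtain ⟨r2, hr2, q2⟩ := key α2 β2 b e2 m3 m4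
  have h1 : ((a ^ p - b ^ p : ℤ) : K) = p * (r1 - r2) := by
    push_cast
    rw [q1, q2, hE]
    ring
  have h2 : v ((a ^ p - b ^ p : ℤ) : K) < 1 := by
    rw [h1, map_mul]
    exact lt_of_le_of_lt (mul_le_of_le_one_right' (Valuation.map_sub_le v hr1 hr2))
      (v_prime_lt hv)
  have h3 := (v_int_lt hv _).1 h2
  have : Fact p.Prime := ⟨hv.1⟩
  rw [← ZMod.intCast_zmod_eq_zero_iff_dvd] at h3 ⊢
  push_cast at h3 ⊢
  rwa [ZMod.pow_card, ZMod.pow_card] at h3

/-- all coordinates have the same valuation, if the reductions are equal -/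
theorem equal_vals (hLP : T_LP) (hv : Adm v p e) (h5 : 5 ≤ p) {X1 X2 X3 Y1 Y2 Y3 E : K}
    {L : ℤᵐ⁰} (hL : L ≠ 0)
    (x1 : X1 ≠ 0) (x2 : X2 ≠ 0) (x3 : X3 ≠ 0) (y1 : Y1 ≠ 0) (y2 : Y2 ≠ 0) (y3 : Y3 ≠ 0)
    (A1 : v X1 ≤ max (v X2) (v X3)) (A2 : v X2 ≤ max (v X1) (v X3))
    (A3 : v X3 ≤ max (v X1) (v X2))
    (B1 : v Y1 ≤ max (v Y2) (v Y3)) (B2 : v Y2 ≤ max (v Y1) (v Y3))
    (B3 : v Y3 ≤ max (v Y1) (v Y2))
    (d1 : v (X2 * Y3 - X3 * Y2) = L) (d2 : v (X3 * Y1 - X1 * Y3) = L)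
    (d3 : v (X1 * Y2 - X2 * Y1) = L)
    (E1 : (X2 * Y3) ^ p - (X3 * Y2) ^ p = E) (E2 : (X3 * Y1) ^ p - (X1 * Y3) ^ p = E)
    (E3 : (X1 * Y2) ^ p - (X2 * Y1) ^ p = E)
    (h : v (X2 * Y3) = v (X3 * Y2)) (hlt : L < v (X2 * Y3)) :
    v X1 = v X2 ∧ v X3 = v X2 ∧ v Y1 = v Y2 ∧ v Y3 = v Y2 := by
  have hp0 : p - 1 ≠ 0 := by omega
  have hvp := v_prime_ne hv
  have LP := hLP K v p e hv h5
  have ne1 : X2 * Y3 ≠ X3 * Y2 := by
    intro hc
    rw [hc, sub_self, map_zero] at d1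
    exact hL d1.symm
  have ne2 : X3 * Y1 ≠ X1 * Y3 := by
    intro hc
    rw [hc, sub_self, map_zero] at d2
    exact hL d2.symm
  have ne3 : X1 * Y2 ≠ X2 * Y1 := by
    intro hc
    rw [hc, sub_self, map_zero] at d3
    exact hL d3.symm
  have F1 : v E = L * v (X2 * Y3) ^ (p - 1) * v (p : K) := by
    have := (LP _ _ (mul_ne_zero x2 y3) (mul_ne_zero x3 y2) ne1).1 ⟨h, by rw [d1]; exact hlt⟩
    rw [E1, d1] at this
    exact this
  -- if another pair has equal valuations larger than `L`, they are the same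
  have same : ∀ N : ℤᵐ⁰, v E = L * N ^ (p - 1) * v (p : K) → N = v (X2 * Y3) := by
    intro N hN
    rw [F1] at hN
    have h1 := mul_right_cancel₀ hvp hN
    have h2 := mul_left_cancel₀ hL h1
    exact ((pow_left_inj₀ zero_le zero_le hp0).1 h2).symm
  have h23 : v X2 * v Y3 = v X3 * v Y2 := by rw [← map_mul, ← map_mul]; exact h
  have vx1 : v X1 ≠ 0 := (Valuation.ne_zero_iff v).2 x1
  have vx2 : v X2 ≠ 0 := (Valuation.ne_zero_iff v).2 x2
  have vx3 : v X3 ≠ 0 := (Valuation.ne_zero_iff v).2 x3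
  have vy1 : v Y1 ≠ 0 := (Valuation.ne_zero_iff v).2 y1
  have vy2 : v Y2 ≠ 0 := (Valuation.ne_zero_iff v).2 y2
  have vy3 : v Y3 ≠ 0 := (Valuation.ne_zero_iff v).2 y3
  have px1 := zero_lt_iff.2 vx1
  have px2 := zero_lt_iff.2 vx2
  have px3 := zero_lt_iff.2 vx3
  have py1 := zero_lt_iff.2 vy1
  have py2 := zero_lt_iff.2 vy2
  have py3 := zero_lt_iff.2 vy3
  have hX : v X2 = v X3 := by
    rcases lt_trichotomy (v X2) (v X3) with h1 | h1 | h1
    · exfalso
      have h2 : v Y2 < v Y3 := by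
        by_contra hc
        rw [not_lt] at hc
        have h3 : v X2 * v Y3 < v X3 * v Y3 := mul_lt_mul_of_pos_right h1 py3
        have h4 : v X3 * v Y3 ≤ v X3 * v Y2 := mul_le_mul_right hc _
        exact absurd h23 (ne_of_lt (lt_of_lt_of_le h3 h4))
      have h3 : v X1 = v X3 := by
        apply le_antisymm
        · exact A1.trans (max_le h1.le le_rfl)
        · rcases le_max_iff.1 A3 with h4 | h4
          · exact h4
          · exact absurd h1 (not_lt.2 h4)
      have h4 : v Y1 = v Y3 := by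
        apply le_antisymm
        · exact B1.trans (max_le h2.le le_rfl)
        · rcases le_max_iff.1 B3 with h4 | h4
          · exact h4
          · exact absurd h2 (not_lt.2 h4)
      have h5' : v (X3 * Y1) = v (X1 * Y3) := by rw [map_mul, map_mul, h3, h4]
      have h6 : v (X2 * Y3) < v (X3 * Y1) := by
        rw [map_mul, map_mul, h4]
        exact mul_lt_mul_of_pos_right h1 py3
      have h7 := (LP _ _ (mul_ne_zero x3 y1) (mul_ne_zero x1 y3) ne2).1
        ⟨h5', by rw [d2]; exact hlt.trans h6⟩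
      rw [E2, d2] at h7
      exact absurd (same _ h7) (ne_of_gt h6)
    · exact h1
    · exfalso
      have h2 : v Y3 < v Y2 := by
        by_contra hc
        rw [not_lt] at hc
        have h3 : v X3 * v Y2 < v X2 * v Y2 := mul_lt_mul_of_pos_right h1 py2
        have h4 : v X2 * v Y2 ≤ v X2 * v Y3 := mul_le_mul_right hc _
        exact absurd h23.symm (ne_of_lt (lt_of_lt_of_le h3 h4))
      have h3 : v X1 = v X2 := by
        apply le_antisymm
        · exact A1.trans (max_le le_rfl h1.le)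
        · rcases le_max_iff.1 A2 with h4 | h4
          · exact h4
          · exact absurd h1 (not_lt.2 h4)
      have h4 : v Y1 = v Y2 := by
        apply le_antisymm
        · exact B1.trans (max_le le_rfl h2.le)
        · rcases le_max_iff.1 B2 with h4 | h4
          · exact h4
          · exact absurd h2 (not_lt.2 h4)
      have h5' : v (X1 * Y2) = v (X2 * Y1) := by rw [map_mul, map_mul, h3, h4]
      have h6 : v (X2 * Y3) < v (X1 * Y2) := by
        rw [map_mul, map_mul, h3]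
        exact mul_lt_mul_of_pos_left h2 px2
      have h7 := (LP _ _ (mul_ne_zero x1 y2) (mul_ne_zero x2 y1) ne3).1
        ⟨h5', by rw [d3]; exact hlt.trans h6⟩
      rw [E3, d3] at h7
      exact absurd (same _ h7) (ne_of_gt h6)
  have hY : v Y3 = v Y2 := by
    rw [hX] at h23
    exact mul_left_cancel₀ vx3 h23
  have A1' : v X1 ≤ v X2 := A1.trans (max_le le_rfl hX.symm.le)
  have B1' : v Y1 ≤ v Y2 := B1.trans (max_le le_rfl hY.le)
  by_cases hc : v (X3 * Y1) = v (X1 * Y3) ∧ v (X3 * Y1 - X1 * Y3) < v (X3 * Y1)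
  · have h7 := (LP _ _ (mul_ne_zero x3 y1) (mul_ne_zero x1 y3) ne2).1 hc
    rw [E2, d2] at h7
    have h8 := same _ h7
    have h9 : v X1 = v X2 := by
      have h10 := hc.1.symm.trans h8
      rw [map_mul, map_mul] at h10
      exact mul_right_cancel₀ vy3 h10
    have h10 : v Y1 = v Y2 := by
      rw [map_mul, map_mul, hX, hY] at h8
      exact mul_left_cancel₀ vx3 h8
    exact ⟨h9, hX.symm, h10, hY⟩
  · exfalso
    have h7 := (LP _ _ (mul_ne_zero x3 y1) (mul_ne_zero x1 y3) ne2).2 hc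
    rw [E2, d2, F1, mul_assoc] at h7
    have h8 := mul_left_cancel₀ hL h7
    have h9 : max (v (X3 * Y1)) (v (X1 * Y3)) ≤ v (X2 * Y3) := by
      rw [map_mul, map_mul, map_mul, hX, hY]
      refine max_le (mul_le_mul_right B1' _) ?_
      rw [hX] at A1'
      exact mul_le_mul_left A1' _
    have hN : v (X2 * Y3) ≠ 0 := (Valuation.ne_zero_iff v).2 (mul_ne_zero x2 y3)
    have h10 : (max (v (X3 * Y1)) (v (X1 * Y3)) / v (X2 * Y3)) ^ (p - 1) = v (p : K) := by
      rw [div_pow, ← h8, mul_div_cancel_left₀ _ (pow_ne_zero _ hN)]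
    rcases lt_or_eq_of_le h9 with h11 | h11
    · have h12 : max (v (X3 * Y1)) (v (X1 * Y3)) / v (X2 * Y3) < 1 :=
        (div_lt_one₀ (zero_lt_iff.2 hN)).2 h11
      exact absurd h10 (ne_of_lt (pow_lt hv (by omega) h12))
    · rw [h11, div_self hN, one_pow] at h10
      exact absurd h10 (ne_of_gt (v_prime_lt hv))

/-- a unit that is congruent to its conjugate is congruent to a rational number -/
theorem pow_one_lt (hv : Adm v p e) (h5 : 5 ≤ p) {σ : K →+* K} (inv : ∀ x, σ (σ x) = x)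
    (fix : ∀ x, σ x = x → ∃ r : ℚ, x = r) {u : K} (hu : v u = 1) (h : v (u - σ u) < 1) :
    v (u ^ (p - 1) - 1) < 1 := by
  obtain ⟨r, hr⟩ := fix ((u + σ u) / 2) (by
    rw [map_div₀, map_add, inv, map_ofNat, add_comm])
  have h2 : v (2 : K) = 1 := by
    have : ¬ (p : ℤ) ∣ 2 := by
      intro h3
      have h4 : p ∣ 2 := by exact_mod_cast h3
      have := Nat.le_of_dvd (by norm_num) h4
      omega
    simpa using v_int_eq hv this
  have h3 : v (u - r) < 1 := by
    have h4 : u - (r : K) = (u - σ u) / 2 := by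
      rw [← hr]
      ring
    rw [h4, map_div₀, h2, div_one]
    exact h
  have h4 : v (r : K) = 1 := by
    have h5' : (r : K) = u - (u - r) := by ring
    rw [h5', Valuation.map_sub_eq_of_lt_left v (by rw [hu]; exact h3), hu]
  have h6 := rat_pow hv r h4
  have h7 := sub_pow_lt hu.le h4.le h3 (p - 1)
  have h8 : u ^ (p - 1) - 1 = (u ^ (p - 1) - (r : K) ^ (p - 1)) + ((r : K) ^ (p - 1) - 1) := by
    ring
  rw [h8]
  exact Valuation.map_add_lt v h7 h6

/-- the first terms of the expansion -/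
theorem expand (hv : Adm v p e) (h5 : 5 ≤ p) {α β l : K} {n : ℤ} (hβ : β ≠ 0) (hl : l ≠ 0)
    (hd : α - β = l * n) (hlt : v (l * n) < v β) :
    ∃ κ : K, v κ < 1 ∧ (α ^ p - β ^ p) / l = n * β ^ (p - 1) * (p * (1 + κ)) := by
  have hvβ : v β ≠ 0 := (Valuation.ne_zero_iff v).2 hβ
  have ht : v (l * n / β) < 1 := by
    rw [map_div₀]
    exact (div_lt_one₀ (zero_lt_iff.2 hvβ)).2 hlt
  let t : v.integer := ⟨l * n / β, by
    rw [Valuation.mem_integer_iff]
    exact ht.le⟩
  obtain ⟨g, hg⟩ := binom2 hv.1 (by omega) t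
  have h4 := congrArg (fun z : v.integer => (z : K)) hg
  simp only [Subring.coe_add, Subring.coe_pow, Subring.coe_mul, Subring.coe_natCast,
    Subring.coe_one] at h4
  have htc : (t : K) = l * n / β := rfl
  have hp0 : (p : K) ≠ 0 := by exact_mod_cast hv.1.ne_zero
  refine ⟨(t : K) * (g : K) + (t : K) ^ (p - 1) / p, ?_, ?_⟩
  · refine Valuation.map_add_lt v ?_ ?_
    · rw [map_mul]
      exact lt_of_le_of_lt (mul_le_of_le_one_right' g.2) ht
    · rw [map_div₀, map_pow]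
      exact (div_lt_one₀ (zero_lt_iff.2 (v_prime_ne hv))).2 (pow_lt hv (by omega) ht)
  · have h6 : α = β * ((t : K) + 1) := by
      rw [htc]
      field_simp
      linear_combination hd
    have h7 : α ^ p - β ^ p = β ^ p * (((t : K) + 1) ^ p - 1) := by
      rw [h6, mul_pow]
      ring
    obtain ⟨m, hm⟩ : ∃ m, p = m + 1 := ⟨p - 1, by omega⟩
    have h8 : β * (t : K) = l * n := by
      rw [htc]
      field_simp
    have h9 : (t : K) ^ p = (t : K) * (t : K) ^ (p - 1) := by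
      rw [← pow_succ']
      congr 1
      omega
    have h10 : β ^ p = β * β ^ (p - 1) := by
      rw [← pow_succ']
      congr 1
      omega
    have h11 : α ^ p - β ^ p = l * (n * β ^ (p - 1) *
        (p * (1 + ((t : K) * (g : K) + (t : K) ^ (p - 1) / p)))) := by
      have h12 : (p : K) * (1 + ((t : K) * (g : K) + (t : K) ^ (p - 1) / p)) =
          p + p * ((t : K) * (g : K)) + (t : K) ^ (p - 1) := by
        field_simp
        ring
      rw [h7, h4, h9, h10, h12]
      linear_combination (β ^ (p - 1) * (p + p * ((t : K) * (g : K)) + (t : K) ^ (p - 1))) * h8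
    rw [h11, mul_div_cancel_left₀ _ hl]

/-- the case of equal reductions -/
theorem case2 (hv : Adm v p e) (h5 : 5 ≤ p) {σ : K →+* K} (inv : ∀ x, σ (σ x) = x)
    (fix : ∀ x, σ x = x → ∃ r : ℚ, x = r) {X1 X2 X3 l : K} {a b : ℤ}
    (x1 : X1 ≠ 0) (x2 : X2 ≠ 0) (x3 : X3 ≠ 0)
    (la : X2 * σ X3 - X3 * σ X2 = l * a) (lb : X3 * σ X1 - X1 * σ X3 = l * b) (hl : l ≠ 0)
    (hE : (X2 * σ X3) ^ p - (X3 * σ X2) ^ p = (X3 * σ X1) ^ p - (X1 * σ X3) ^ p)
    (hx1 : v X1 = v X2) (hx3 : v X3 = v X2)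
    (hy3 : v (σ X3) = v (σ X2)) (hlt : v l < v (X2 * σ X3)) : (p : ℤ) ∣ a - b := by
  have y1 : σ X1 ≠ 0 := (map_ne_zero σ).2 x1
  have y2 : σ X2 ≠ 0 := (map_ne_zero σ).2 x2
  have y3 : σ X3 ≠ 0 := (map_ne_zero σ).2 x3
  have vx2 : v X2 ≠ 0 := (Valuation.ne_zero_iff v).2 x2
  have vy2 : v (σ X2) ≠ 0 := (Valuation.ne_zero_iff v).2 y2
  have hM : v (X2 * σ X3) = v X2 * v (σ X2) := by rw [map_mul, hy3]
  rw [hM] at hlt
  have hln : ∀ n : ℤ, v (l * n) < v X2 * v (σ X2) := by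
    intro n
    rw [map_mul]
    exact lt_of_le_of_lt (mul_le_of_le_one_right' (v_int_le hv n)) hlt
  have hq : ∀ n : ℤ, v (l * n / (X3 * σ X3)) < 1 := by
    intro n
    rw [map_div₀, map_mul v X3, hx3, hy3]
    exact (div_lt_one₀ (zero_lt_iff.2 (mul_ne_zero vx2 vy2))).2 (hln n)
  -- the two units
  have u1 : v (X1 / X3) = 1 := by rw [map_div₀, hx1, hx3, div_self vx2]
  have u2 : v (σ (X2 / X3)) = 1 := by rw [map_div₀, map_div₀, hy3, div_self vy2]
  have w1 : v (X1 / X3 - σ (X1 / X3)) < 1 := by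
    have : X1 / X3 - σ (X1 / X3) = -(l * b / (X3 * σ X3)) := by
      rw [map_div₀]
      field_simp
      linear_combination -lb
    rw [this, Valuation.map_neg]
    exact hq b
  have w2 : v (σ (X2 / X3) - σ (σ (X2 / X3))) < 1 := by
    have : σ (X2 / X3) - σ (σ (X2 / X3)) = -(l * a / (X3 * σ X3)) := by
      rw [inv, map_div₀]
      field_simp
      linear_combination -la
    rw [this, Valuation.map_neg]
    exact hq a
  have z1 := pow_one_lt hv h5 inv fix u1 w1
  have z2 := pow_one_lt hv h5 inv fix u2 w2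
  -- the expansions
  have hb1 : v (X3 * σ X2) = v X2 * v (σ X2) := by rw [map_mul, hx3]
  have hb2 : v (X1 * σ X3) = v X2 * v (σ X2) := by rw [map_mul, hx1, hy3]
  obtain ⟨κ1, hκ1, q1⟩ := expand hv h5 (mul_ne_zero x3 y2) hl la (by rw [hb1]; exact hln a)
  obtain ⟨κ2, hκ2, q2⟩ := expand hv h5 (mul_ne_zero x1 y3) hl lb (by rw [hb2]; exact hln b)
  rw [hE] at q1
  have hp0 : (p : K) ≠ 0 := by exact_mod_cast hv.1.ne_zero
  set h : K := σ (X2 / X3) / (X1 / X3) with hh
  have hvh : v h = 1 := by rw [hh, map_div₀, u1, u2, div_one]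
  have hβ : X3 * σ X2 = h * (X1 * σ X3) := by
    rw [hh, map_div₀]
    field_simp
  have hh1 : v (h ^ (p - 1) - 1) < 1 := by
    have h6 : h ^ (p - 1) - 1 = ((σ (X2 / X3) ^ (p - 1) - 1) - ((X1 / X3) ^ (p - 1) - 1)) /
        (X1 / X3) ^ (p - 1) := by
      rw [hh, div_pow]
      have : (X1 / X3) ^ (p - 1) ≠ 0 := pow_ne_zero _ (div_ne_zero x1 x3)
      field_simp
      ring
    rw [h6, map_div₀, map_pow, u1, one_pow, div_one]
    exact Valuation.map_sub_lt v z2 z1
  have h7 : (a : K) * h ^ (p - 1) * (1 + κ1) = b * (1 + κ2) := by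
    have h8 := q1.symm.trans q2
    rw [hβ, mul_pow] at h8
    have h9 : (X1 * σ X3) ^ (p - 1) * (p : K) ≠ 0 :=
      mul_ne_zero (pow_ne_zero _ (mul_ne_zero x1 y3)) hp0
    apply mul_left_cancel₀ h9
    linear_combination h8
  have h8 : ((a - b : ℤ) : K) = -(a * (h ^ (p - 1) - 1)) - a * h ^ (p - 1) * κ1 + b * κ2 := by
    push_cast
    linear_combination h7
  have h9 : v ((a - b : ℤ) : K) < 1 := by
    rw [h8]
    refine Valuation.map_add_lt v (Valuation.map_sub_lt v ?_ ?_) ?_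
    · rw [Valuation.map_neg, map_mul]
      exact lt_of_le_of_lt (mul_le_of_le_one_left' (v_int_le hv a)) hh1
    · rw [map_mul, map_mul, map_pow, hvh, one_pow, mul_one]
      exact lt_of_le_of_lt (mul_le_of_le_one_left' (v_int_le hv a)) hκ1
    · rw [map_mul]
      exact lt_of_le_of_lt (mul_le_of_le_one_left' (v_int_le hv b)) hκ2
  exact (v_int_lt hv _).1 h9

omit [CharZero K] in
/-- the maximum of three valuations is attained twice -/
theorem max_le_of_eq (hp : p ≠ 0) {x y z : K} (h : x ^ p + y ^ p + z ^ p = 0) :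
    v x ≤ max (v y) (v z) := by
  have h1 : x ^ p = -(y ^ p + z ^ p) := by linear_combination h
  have h2 : v x ^ p ≤ max (v y) (v z) ^ p := by
    rw [← map_pow, h1, Valuation.map_neg]
    refine Valuation.map_add_le v ?_ ?_
    · rw [map_pow]
      exact pow_le_pow_left₀ zero_le (le_max_left _ _) _
    · rw [map_pow]
      exact pow_le_pow_left₀ zero_le (le_max_right _ _) _
  exact (pow_le_pow_iff_left₀ zero_le zero_le hp).1 h2

end two

end GP2_

open GP2_ in
/-- GP2: the coefficients of the line at `p`, if `p` divides none of them. -/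
theorem p_GP2 (h1 : T_VAL) (h2 : T_LP) : T_GP2 := by
  intro p K _ _ σ X1 X2 X3 l a b c hp h5 hK D ha hb hc
  obtain ⟨P, e, hv⟩ := (h1 K hK).2 p hp
  set v := P.valuation K with hvdef
  have hp0 : p ≠ 0 := hp.ne_zero
  have y1 : σ X1 ≠ 0 := (map_ne_zero σ).2 D.h1
  have y2 : σ X2 ≠ 0 := (map_ne_zero σ).2 D.h2
  have y3 : σ X3 ≠ 0 := (map_ne_zero σ).2 D.h3
  have eqn' : σ X1 ^ p + σ X2 ^ p + σ X3 ^ p = 0 := by
    rw [← map_pow, ← map_pow, ← map_pow, ← map_add, ← map_add, D.eqn, map_zero]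
  have s1 : X1 ^ p = -(X2 ^ p + X3 ^ p) := by linear_combination D.eqn
  have s2 : σ X1 ^ p = -(σ X2 ^ p + σ X3 ^ p) := by linear_combination eqn'
  have E2 : (X3 * σ X1) ^ p - (X1 * σ X3) ^ p = (X2 * σ X3) ^ p - (X3 * σ X2) ^ p := by
    simp only [mul_pow]
    rw [s1, s2]
    ring
  have E3 : (X1 * σ X2) ^ p - (X2 * σ X1) ^ p = (X2 * σ X3) ^ p - (X3 * σ X2) ^ p := by
    simp only [mul_pow]
    rw [s1, s2]
    ring
  have da : v (X2 * σ X3 - X3 * σ X2) = v l := by
    rw [D.la, map_mul, v_int_eq hv ha, mul_one]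
  have db : v (X3 * σ X1 - X1 * σ X3) = v l := by
    rw [D.lb, map_mul, v_int_eq hv hb, mul_one]
  have dc : v (X1 * σ X2 - X2 * σ X1) = v l := by
    rw [D.lc, map_mul, v_int_eq hv hc, mul_one]
  have hL : v l ≠ 0 := (Valuation.ne_zero_iff v).2 D.l0
  have A1 : v X1 ≤ max (v X2) (v X3) := max_le_of_eq hp0 D.eqn
  have A2 : v X2 ≤ max (v X1) (v X3) :=
    max_le_of_eq (p := p) hp0 (by linear_combination D.eqn)
  have A3 : v X3 ≤ max (v X1) (v X2) :=
    max_le_of_eq (p := p) hp0 (by linear_combination D.eqn)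
  have B1 : v (σ X1) ≤ max (v (σ X2)) (v (σ X3)) := max_le_of_eq hp0 eqn'
  have B2 : v (σ X2) ≤ max (v (σ X1)) (v (σ X3)) :=
    max_le_of_eq (p := p) hp0 (by linear_combination eqn')
  have B3 : v (σ X3) ≤ max (v (σ X1)) (v (σ X2)) :=
    max_le_of_eq (p := p) hp0 (by linear_combination eqn')
  -- valuations of a pair of conjugates
  have pair : ∀ α β : K, v (α - β) = v l → (v l < v α ∨ v l < v β) → v α = v β ∧ v l < v α := by
    intro α β h3 h4
    rcases lt_trichotomy (v α) (v β) with h6 | h6 | h6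
    · rw [Valuation.map_sub_eq_of_lt_right v h6] at h3
      rcases h4 with h4 | h4
      · exact absurd (h3 ▸ h4) (not_lt.2 h6.le)
      · exact absurd h4 (by rw [h3]; exact lt_irrefl _)
    · rcases h4 with h4 | h4
      · exact ⟨h6, h4⟩
      · exact ⟨h6, h6 ▸ h4⟩
    · rw [Valuation.map_sub_eq_of_lt_left v h6] at h3
      rcases h4 with h4 | h4
      · exact absurd h4 (by rw [h3]; exact lt_irrefl _)
      · exact absurd (h3 ▸ h4) (not_lt.2 h6.le)
  by_cases hc1 : v l < v (X2 * σ X3) ∨ v l < v (X3 * σ X2)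
  · obtain ⟨h6, h7⟩ := pair _ _ da hc1
    obtain ⟨g1, g2, g3, g4⟩ := equal_vals h2 hv h5 hL D.h1 D.h2 D.h3 y1 y2 y3 A1 A2 A3 B1 B2 B3
      da db dc rfl E2 E3 h6 h7
    exact case2 hv h5 D.inv D.fix D.h1 D.h2 D.h3 D.la D.lb D.l0 E2.symm g1 g2 g4 h7
  · by_cases hc2 : v l < v (X3 * σ X1) ∨ v l < v (X1 * σ X3)
    · obtain ⟨h6, h7⟩ := pair _ _ db hc2
      obtain ⟨g1, g2, g3, g4⟩ := equal_vals h2 hv h5 hL D.h2 D.h3 D.h1 y2 y3 y1
        (by rw [max_comm]; exact A2) (by rw [max_comm]; exact A3) A1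
        (by rw [max_comm]; exact B2) (by rw [max_comm]; exact B3) B1
        db dc da E2 E3 rfl h6 h7
      have k1 : v X1 = v X2 := g2.trans g1.symm
      have k2 : v X3 = v X2 := g1.symm
      have k3 : v (σ X1) = v (σ X2) := g4.trans g3.symm
      have k4 : v (σ X3) = v (σ X2) := g3.symm
      refine case2 hv h5 D.inv D.fix D.h1 D.h2 D.h3 D.la D.lb D.l0 E2.symm k1 k2 k4 ?_
      rw [map_mul, k4]
      rw [map_mul, k2, k3] at h7
      exact h7
    · push Not at hc1 hc2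
      exact case1 hv h5 D.l0 D.la D.lb E2.symm hc1.1 hc1.2 hc2.1 hc2.2

end Pool.Agent.FLN
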