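import Pool.Agent.FLN.Targets

set_option autoImplicit false

/-!
# GQ: the coefficients of the line at the primes which are not `0, 1, -1` modulo `p`
-/

namespace Pool.Agent.FLN

open IsDedekindDomain NumberField
open scoped WithZero

namespace GQ_

theorem arith (N : ℤ) (hN : 1 ≤ N) (e : ℕ) (he : e = 1 ∨ e = 2) (a b c : ℕ)
    (x1 x2 x3 y1 y2 y3 : ℤ) (hx1 : x1 ≤ max x2 x3) (hx2 : x2 ≤ max x3 x1) (hx3 : x3 ≤ max x1 x2)
    (hy1 : y1 ≤ max y2 y3) (hy2 : y2 ≤ max y3 y1) (hy3 : y3 ≤ max y1 y2)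
    (h12 : -((e * a : ℕ) : ℤ) + N * max (x2 + y3) (x3 + y2) =
      -((e * b : ℕ) : ℤ) + N * max (x3 + y1) (x1 + y3))
    (h13 : -((e * a : ℕ) : ℤ) + N * max (x2 + y3) (x3 + y2) =
      -((e * c : ℕ) : ℤ) + N * max (x1 + y2) (x2 + y1))
    (hmin : a = 0 ∨ b = 0 ∨ c = 0) :
    N ∣ 2 * (a : ℤ) ∧ (a ≠ 0 → b = 0 ∧ c = 0) := by
  obtain ⟨M1, hM1⟩ : ∃ M, M = max (x2 + y3) (x3 + y2) := ⟨_, rfl⟩
  obtain ⟨M2, hM2⟩ : ∃ M, M = max (x3 + y1) (x1 + y3) := ⟨_, rfl⟩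
  obtain ⟨M3, hM3⟩ : ∃ M, M = max (x1 + y2) (x2 + y1) := ⟨_, rfl⟩
  rw [← hM1, ← hM2] at h12
  rw [← hM1, ← hM3] at h13
  have key : (M1 = M2 ∧ M1 = M3) ∨ (M2 = M3 ∧ M2 < M1) ∨ (M1 = M3 ∧ M1 < M2) ∨
      (M1 = M2 ∧ M1 < M3) := by
    omega
  rcases key with ⟨k1, k2⟩ | ⟨k1, k2⟩ | ⟨k1, k2⟩ | ⟨k1, k2⟩
  · rw [← k1] at h12
    rw [← k2] at h13
    have ha : a = 0 := by
      rcases he with rfl | rfl <;> omega
    exact ⟨by simp [ha], fun h => absurd ha h⟩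
  · obtain ⟨k, hk⟩ : ∃ k, k = M1 - M2 := ⟨_, rfl⟩
    have hk1 : 1 ≤ k := by omega
    have hM : M1 = M2 + k := by omega
    rw [hM, mul_add] at h12 h13
    rw [← k1] at h13
    have hpos : 1 ≤ N * k := by nlinarith
    have hb : b = 0 ∧ c = 0 := by
      rcases he with rfl | rfl <;> omega
    refine ⟨?_, fun _ => hb⟩
    rw [hb.1] at h12
    rcases he with rfl | rfl
    · refine ⟨2 * k, ?_⟩
      push_cast at h12
      linear_combination (-2) * h12
    · refine ⟨k, ?_⟩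
      push_cast at h12
      linear_combination (-1) * h12
  · obtain ⟨k, hk⟩ : ∃ k, k = M2 - M1 := ⟨_, rfl⟩
    have hk1 : 1 ≤ k := by omega
    have hM : M2 = M1 + k := by omega
    rw [hM, mul_add] at h12
    rw [← k1] at h13
    have hpos : 1 ≤ N * k := by nlinarith
    have ha : a = 0 := by
      rcases he with rfl | rfl <;> omega
    exact ⟨by simp [ha], fun h => absurd ha h⟩
  · obtain ⟨k, hk⟩ : ∃ k, k = M3 - M1 := ⟨_, rfl⟩
    have hk1 : 1 ≤ k := by omega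
    have hM : M3 = M1 + k := by omega
    rw [hM, mul_add] at h13
    rw [← k1] at h12
    have hpos : 1 ≤ N * k := by nlinarith
    have ha : a = 0 := by
      rcases he with rfl | rfl <;> omega
    exact ⟨by simp [ha], fun h => absurd ha h⟩

theorem exp_max (a b : ℤ) : max (WithZero.exp a) (WithZero.exp b) = WithZero.exp (max a b) := by
  rcases le_total a b with h | h
  · rw [max_eq_right h, max_eq_right (WithZero.exp_le_exp.mpr h)]
  · rw [max_eq_left h, max_eq_left (WithZero.exp_le_exp.mpr h)]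

theorem exp_pow (a : ℤ) (n : ℕ) : WithZero.exp a ^ n = WithZero.exp ((n : ℤ) * a) := by
  rw [← WithZero.exp_nsmul, nsmul_eq_mul]

theorem exists_exp {K : Type} [Field K] (v : Valuation K ℤᵐ⁰) {x : K} (hx : x ≠ 0) :
    ∃ n : ℤ, v x = WithZero.exp n := by
  have h : v x ≠ 0 := (Valuation.ne_zero_iff v).mpr hx
  exact ⟨WithZero.log (v x), (WithZero.exp_log h).symm⟩

theorem le_max_of_eqn {K : Type} [Field K] (v : Valuation K ℤᵐ⁰) {p : ℕ} (hp : p ≠ 0)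
    {x y z : K} (h : x ^ p + y ^ p + z ^ p = 0) {a b c : ℤ} (ha : v x = WithZero.exp a)
    (hb : v y = WithZero.exp b) (hc : v z = WithZero.exp c) : a ≤ max b c := by
  have h1 : x ^ p = -(y ^ p + z ^ p) := by linear_combination h
  have h2 : v (x ^ p) ≤ max (v (y ^ p)) (v (z ^ p)) := by
    rw [h1, Valuation.map_neg]
    exact v.map_add _ _
  rw [map_pow, map_pow, map_pow, ha, hb, hc, exp_pow, exp_pow, exp_pow, exp_max,
    WithZero.exp_le_exp] at h2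
  have hp' : (0 : ℤ) < p := by exact_mod_cast Nat.pos_of_ne_zero hp
  rcases le_total b c with hbc | hbc
  · rw [max_eq_right hbc]
    rw [max_eq_right (mul_le_mul_of_nonneg_left hbc hp'.le)] at h2
    exact le_of_mul_le_mul_left h2 hp'
  · rw [max_eq_left hbc]
    rw [max_eq_left (mul_le_mul_of_nonneg_left hbc hp'.le)] at h2
    exact le_of_mul_le_mul_left h2 hp'

end GQ_

open GQ_ in
theorem p_GQ (h1 : T_VAL) (h2 : T_LQ) : T_GQ := by
  intro p K _ _ σ X1 X2 X3 l a b c hp hp5 hK hD q hq hpq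
  obtain ⟨P, e, hadm⟩ := (h1 K hK).2 q hq
  obtain ⟨v, hv⟩ : ∃ v : Valuation K ℤᵐ⁰, v = P.valuation K := ⟨_, rfl⟩
  rw [← hv] at hadm
  clear hv
  have : Fact q.Prime := ⟨hq⟩
  have hs0 : ∀ x : K, x ≠ 0 → σ x ≠ 0 := fun x hx h => hx (by rw [← hD.inv x, h, map_zero])
  obtain ⟨x1, hx1⟩ := exists_exp v hD.h1
  obtain ⟨x2, hx2⟩ := exists_exp v hD.h2
  obtain ⟨x3, hx3⟩ := exists_exp v hD.h3
  obtain ⟨y1, hy1⟩ := exists_exp v (hs0 _ hD.h1)
  obtain ⟨y2, hy2⟩ := exists_exp v (hs0 _ hD.h2)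
  obtain ⟨y3, hy3⟩ := exists_exp v (hs0 _ hD.h3)
  obtain ⟨L, hL⟩ := exists_exp v hD.l0
  have hp0 : p ≠ 0 := hp.ne_zero
  have eqs : (σ X1) ^ p + (σ X2) ^ p + (σ X3) ^ p = 0 := by
    rw [← map_pow, ← map_pow, ← map_pow, ← map_add, ← map_add, hD.eqn, map_zero]
  have eX := hD.eqn
  -- one of the three expressions
  have main : ∀ (Y Z : K) (n : ℤ) (r s r' s' : ℤ), Y ≠ 0 → Z ≠ 0 → n ≠ 0 →
      v Y = WithZero.exp r → v Z = WithZero.exp s → v (σ Y) = WithZero.exp r' →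
      v (σ Z) = WithZero.exp s' → Y * σ Z - Z * σ Y = l * n →
      v ((Y * σ Z) ^ p - (Z * σ Y) ^ p) =
        WithZero.exp (L + (-((e * padicValInt q n : ℕ) : ℤ)) +
          ((p - 1 : ℕ) : ℤ) * max (r + s') (s + r')) := by
    intro Y Z n r s r' s' hY hZ hn hr hs hr' hs' hln
    have hσ : σ (Y * σ Z) = Z * σ Y := by rw [map_mul, hD.inv, mul_comm]
    have hne : Y * σ Z ≠ 0 := mul_ne_zero hY (hs0 _ hZ)
    have hn' : (n : K) ≠ 0 := by exact_mod_cast hn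
    have hne2 : σ (Y * σ Z) ≠ Y * σ Z := by
      rw [hσ]
      intro h
      rw [← h, sub_self] at hln
      exact mul_ne_zero hD.l0 hn' hln.symm
    have h3 := h2 K σ hD.inv hD.fix v p q e hadm hp hp5 hpq (Y * σ Z) hne hne2
    rw [hσ, hln, map_mul, map_mul, map_mul, hr, hs, hr', hs', hL, hadm.2.2 n hn,
      ← WithZero.exp_add, ← WithZero.exp_add, ← WithZero.exp_add, exp_max, exp_pow,
      ← WithZero.exp_add] at h3
    exact h3
  have m1 := main X2 X3 a x2 x3 y2 y3 hD.h2 hD.h3 hD.a0 hx2 hx3 hy2 hy3 hD.la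
  have m2 := main X3 X1 b x3 x1 y3 y1 hD.h3 hD.h1 hD.b0 hx3 hx1 hy3 hy1 hD.lb
  have m3 := main X1 X2 c x1 x2 y1 y2 hD.h1 hD.h2 hD.c0 hx1 hx2 hy1 hy2 hD.lc
  have e12 : (X2 * σ X3) ^ p - (X3 * σ X2) ^ p = (X3 * σ X1) ^ p - (X1 * σ X3) ^ p := by
    simp only [mul_pow]
    linear_combination (σ X3) ^ p * eX - X3 ^ p * eqs
  have e13 : (X2 * σ X3) ^ p - (X3 * σ X2) ^ p = (X1 * σ X2) ^ p - (X2 * σ X1) ^ p := by
    simp only [mul_pow]
    linear_combination X2 ^ p * eqs - (σ X2) ^ p * eX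
  rw [← e12, m1, WithZero.exp_inj] at m2
  rw [← e13, m1, WithZero.exp_inj] at m3
  have hmin : padicValInt q a = 0 ∨ padicValInt q b = 0 ∨ padicValInt q c = 0 := by
    by_contra hcon
    push Not at hcon
    have da : (q : ℤ) ∣ a := by
      by_contra h
      exact hcon.1 (padicValInt.eq_zero_of_not_dvd h)
    have db : (q : ℤ) ∣ b := by
      by_contra h
      exact hcon.2.1 (padicValInt.eq_zero_of_not_dvd h)
    have dc : (q : ℤ) ∣ c := by
      by_contra h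
      exact hcon.2.2 (padicValInt.eq_zero_of_not_dvd h)
    have h4 : (q : ℤ) ∣ ((Int.gcd (Int.gcd a b) c : ℕ) : ℤ) :=
      Int.dvd_coe_gcd (Int.dvd_coe_gcd da db) dc
    rw [hD.gcd] at h4
    have h5 : q ∣ 1 := by exact_mod_cast h4
    exact hq.one_lt.ne' (Nat.dvd_one.mp h5)
  have hfin := arith ((p - 1 : ℕ) : ℤ) (by omega) e hadm.2.1 (padicValInt q a) (padicValInt q b)
    (padicValInt q c) x1 x2 x3 y1 y2 y3
    (le_max_of_eqn v hp0 eX hx1 hx2 hx3)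
    (le_max_of_eqn v hp0 (by linear_combination eX) hx2 hx3 hx1)
    (le_max_of_eqn v hp0 (by linear_combination eX) hx3 hx1 hx2)
    (le_max_of_eqn v hp0 eqs hy1 hy2 hy3)
    (le_max_of_eqn v hp0 (by linear_combination eqs) hy2 hy3 hy1)
    (le_max_of_eqn v hp0 (by linear_combination eqs) hy3 hy1 hy2)
    (by linear_combination m2) (by linear_combination m3) hmin
  have zero_iff : ∀ n : ℤ, n ≠ 0 → (q : ℤ) ∣ n → padicValInt q n ≠ 0 := by
    intro n hn hd h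
    have h6 := (padicValInt_dvd_iff 1 n).mp (by simpa using hd)
    rcases h6 with h6 | h6
    · exact hn h6
    · omega
  refine ⟨?_, fun hqa => ?_⟩
  · have h7 := hfin.1
    exact_mod_cast h7
  · have h8 := hfin.2 (zero_iff a hD.a0 hqa)
    exact ⟨fun h => zero_iff b hD.b0 h h8.1, fun h => zero_iff c hD.c0 h h8.2⟩

end Pool.Agent.FLN
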