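import Pool.Agent.FLN.Targets

set_option autoImplicit false

/-!
# LARGEP: the vectors that satisfy the conditions for a large exponent
-/

namespace Pool.Agent.FLN

open Finset

namespace LARGEP_

/-- the interval -/
noncomputable def I (H : ℕ) : Finset ℤ := Finset.Icc (-(H : ℤ)) H

theorem mem_I {H : ℕ} {x : ℤ} : x ∈ I H ↔ |x| ≤ (H : ℤ) := by
  unfold I
  rw [Finset.mem_Icc, abs_le]

theorem card_I (H : ℕ) (hH : 1 ≤ H) : ((I H).card : ℝ) ≤ 3 * H := by
  unfold I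
  have h1 : (Finset.Icc (-(H : ℤ)) H).card = 2 * H + 1 := by
    rw [Int.card_Icc]
    omega
  rw [h1]
  have : (1 : ℝ) ≤ H := by exact_mod_cast hH
  push_cast
  linarith

/-- residue class in the interval -/
noncomputable def A (H p : ℕ) (b : ℤ) : Finset ℤ := (I H).filter (fun x => (p : ℤ) ∣ x - b)

theorem card_A (H p : ℕ) (b : ℤ) (hp : 1 ≤ p) (hpH : p < 2 * H) :
    ((A H p b).card : ℝ) ≤ 5 * H / p := by
  have hpz : (0 : ℤ) < p := by exact_mod_cast hp
  have h1 : A H p b = (Finset.Ioc (-(H : ℤ) - 1) H).filter (fun x => x ≡ b [ZMOD (p : ℤ)]) := by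
    ext x
    unfold A I
    simp only [Finset.mem_filter, Finset.mem_Icc, Finset.mem_Ioc]
    constructor
    · rintro ⟨⟨h1, h2⟩, h3⟩
      refine ⟨⟨by omega, h2⟩, ?_⟩
      exact (Int.modEq_iff_dvd.2 (by
        have := (Int.dvd_neg).2 h3
        simpa using this))
    · rintro ⟨⟨h1, h2⟩, h3⟩
      refine ⟨⟨by omega, h2⟩, ?_⟩
      have := Int.modEq_iff_dvd.1 h3
      have h4 := (Int.dvd_neg).2 this
      simpa using h4
  have h2 := Int.Ioc_filter_modEq_card (-(H : ℤ) - 1) H hpz b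
  rw [h1]
  have hHp : (1 : ℝ) ≤ p := by exact_mod_cast hp
  have hH1 : (1 : ℝ) ≤ H := by
    have : 1 ≤ H := by omega
    exact_mod_cast this
  have hpH' : (p : ℝ) ≤ 2 * H := by exact_mod_cast hpH.le
  have hp0 : (0 : ℝ) < p := by linarith
  have h3 : ((Finset.filter (fun x => x ≡ b [ZMOD (p : ℤ)])
      (Finset.Ioc (-(H : ℤ) - 1) H)).card : ℤ) ≤
      max (⌊(((H : ℤ) : ℚ) - b) / ((p : ℤ) : ℚ)⌋ - ⌊(((-(H : ℤ) - 1 : ℤ) : ℚ) - b) / ((p : ℤ) : ℚ)⌋) 0 :=
    h2.le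
  have h4 : ((max (⌊(((H : ℤ) : ℚ) - b) / ((p : ℤ) : ℚ)⌋ -
      ⌊(((-(H : ℤ) - 1 : ℤ) : ℚ) - b) / ((p : ℤ) : ℚ)⌋) 0 : ℤ) : ℝ) ≤ (2 * H + 1) / p + 1 := by
    rw [Int.cast_max, Int.cast_zero]
    apply max_le
    · have h5 : ((⌊(((H : ℤ) : ℚ) - b) / ((p : ℤ) : ℚ)⌋ : ℤ) : ℚ) ≤
          (((H : ℤ) : ℚ) - b) / ((p : ℤ) : ℚ) := Int.floor_le _
      have h6 : (((-(H : ℤ) - 1 : ℤ) : ℚ) - b) / ((p : ℤ) : ℚ) <
          ((⌊(((-(H : ℤ) - 1 : ℤ) : ℚ) - b) / ((p : ℤ) : ℚ)⌋ : ℤ) : ℚ) + 1 :=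
        Int.lt_floor_add_one _
      have h7 : (((⌊(((H : ℤ) : ℚ) - b) / ((p : ℤ) : ℚ)⌋ -
          ⌊(((-(H : ℤ) - 1 : ℤ) : ℚ) - b) / ((p : ℤ) : ℚ)⌋ : ℤ)) : ℚ) ≤
          (2 * H + 1) / p + 1 := by
        push_cast at h5 h6 ⊢
        have h8 : ((H : ℚ) - b) / p - ((-(H : ℚ) - 1) - b) / p = (2 * H + 1) / p := by
          ring
        linarith
      have h10 := (Rat.cast_le (K := ℝ)).2 h7
      push_cast at h10 ⊢
      exact h10
    · positivity
  have h9 : ((Finset.filter (fun x => x ≡ b [ZMOD (p : ℤ)])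
      (Finset.Ioc (-(H : ℤ) - 1) H)).card : ℝ) ≤ (2 * H + 1) / p + 1 := by
    refine le_trans ?_ h4
    exact_mod_cast h3
  refine h9.trans ?_
  rw [div_add_one hp0.ne', div_le_div_iff_of_pos_right hp0]
  linarith

/-- nonzero multiples of a square -/
noncomputable def M (H p : ℕ) : Finset ℤ := (I H).filter (fun x => x ≠ 0 ∧ (p : ℤ) ^ 2 ∣ x)

theorem card_M (H p : ℕ) (hp : 1 ≤ p) : ((M H p).card : ℝ) ≤ 2 * H / (p : ℝ) ^ 2 := by
  set K : ℕ := H / p ^ 2 with hK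
  have hp2 : 0 < p ^ 2 := by positivity
  have hsub : M H p ⊆ ((I K).erase 0).image (fun t => (p : ℤ) ^ 2 * t) := by
    intro x hx
    unfold M at hx
    rw [Finset.mem_filter, mem_I] at hx
    obtain ⟨h1, h2, t, h3⟩ := hx
    rw [Finset.mem_image]
    refine ⟨t, ?_, h3.symm⟩
    rw [Finset.mem_erase, mem_I]
    refine ⟨?_, ?_⟩
    · rintro rfl
      apply h2
      rw [h3, mul_zero]
    · rw [h3, abs_mul] at h1
      have h4 : |((p : ℤ)) ^ 2| = (p : ℤ) ^ 2 := abs_of_nonneg (by positivity)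
      rw [h4] at h1
      rw [hK]
      push_cast
      rw [Int.le_ediv_iff_mul_le (by exact_mod_cast hp2)]
      linarith
  have h5 : (M H p).card ≤ 2 * K := by
    calc (M H p).card ≤ (((I K).erase 0).image (fun t => (p : ℤ) ^ 2 * t)).card :=
          Finset.card_le_card hsub
      _ ≤ ((I K).erase 0).card := Finset.card_image_le
      _ = 2 * K := by
        rw [Finset.card_erase_of_mem (by rw [mem_I]; simp)]
        unfold I
        rw [Int.card_Icc]
        omega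
  have h6 : ((K : ℕ) : ℝ) ≤ (H : ℝ) / (p : ℝ) ^ 2 := by
    rw [hK]
    have := @Nat.cast_div_le ℝ _ _ _ H (p ^ 2)
    simpa using this
  calc ((M H p).card : ℝ) ≤ ((2 * K : ℕ) : ℝ) := by exact_mod_cast h5
    _ = 2 * (K : ℝ) := by push_cast; ring
    _ ≤ 2 * ((H : ℝ) / (p : ℝ) ^ 2) := by linarith
    _ = 2 * H / (p : ℝ) ^ 2 := by ring

/-- cover for the prime `p` -/
noncomputable def F (H p : ℕ) : Finset (ℤ × ℤ × ℤ) :=
  ((I H).biUnion (fun b => A H p b ×ˢ ({b} ×ˢ A H p b))) ∪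
    ((M H p ×ˢ (I H ×ˢ I H)) ∪ ((I H ×ˢ (M H p ×ˢ I H)) ∪ (I H ×ˢ (I H ×ˢ M H p))))

theorem card_F (H p : ℕ) (hH : 1 ≤ H) (hp : 1 ≤ p) (hpH : p < 2 * H) :
    ((F H p).card : ℝ) ≤ 129 * (H : ℝ) ^ 3 * ((p : ℝ) ^ 2)⁻¹ := by
  have hI := card_I H hH
  have hM := card_M H p hp
  have hI0 : (0 : ℝ) ≤ ((I H).card : ℝ) := Nat.cast_nonneg _
  have hM0 : (0 : ℝ) ≤ ((M H p).card : ℝ) := Nat.cast_nonneg _
  have hH0 : (0 : ℝ) ≤ H := Nat.cast_nonneg _
  have h1 : (((I H).biUnion (fun b => A H p b ×ˢ ({b} ×ˢ A H p b))).card : ℝ) ≤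
      75 * (H : ℝ) ^ 3 * ((p : ℝ) ^ 2)⁻¹ := by
    calc (((I H).biUnion (fun b => A H p b ×ˢ ({b} ×ˢ A H p b))).card : ℝ)
        ≤ ((∑ b ∈ I H, (A H p b ×ˢ ({b} ×ˢ A H p b)).card : ℕ) : ℝ) := by
          exact_mod_cast Finset.card_biUnion_le
      _ = ∑ b ∈ I H, ((A H p b).card : ℝ) * ((A H p b).card : ℝ) := by
          push_cast
          apply Finset.sum_congr rfl
          intro b _
          rw [Finset.card_product, Finset.card_product, Finset.card_singleton, one_mul]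
          push_cast
          ring
      _ ≤ ∑ b ∈ I H, (5 * H / p : ℝ) * (5 * H / p) := by
          apply Finset.sum_le_sum
          intro b _
          have := card_A H p b hp hpH
          exact mul_le_mul this this (Nat.cast_nonneg _) (by positivity)
      _ = ((I H).card : ℝ) * ((5 * H / p : ℝ) * (5 * H / p)) := by
          rw [Finset.sum_const, nsmul_eq_mul]
      _ ≤ (3 * H) * ((5 * H / p : ℝ) * (5 * H / p)) := by gcongr
      _ = 75 * (H : ℝ) ^ 3 * ((p : ℝ) ^ 2)⁻¹ := by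
          rw [div_mul_div_comm, div_eq_mul_inv]
          ring
  have h2 : ((M H p).card : ℝ) * (((I H).card : ℝ) * ((I H).card : ℝ)) ≤
      18 * (H : ℝ) ^ 3 * ((p : ℝ) ^ 2)⁻¹ := by
    calc ((M H p).card : ℝ) * (((I H).card : ℝ) * ((I H).card : ℝ))
        ≤ (2 * H / (p : ℝ) ^ 2) * ((3 * H) * (3 * H)) := by gcongr
      _ = 18 * (H : ℝ) ^ 3 * ((p : ℝ) ^ 2)⁻¹ := by
        rw [div_eq_mul_inv]; ring
  have h3 : ((F H p).card : ℝ) ≤
      (((I H).biUnion (fun b => A H p b ×ˢ ({b} ×ˢ A H p b))).card : ℝ) +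
      (((M H p).card : ℝ) * (((I H).card : ℝ) * ((I H).card : ℝ)) +
      (((M H p).card : ℝ) * (((I H).card : ℝ) * ((I H).card : ℝ)) +
      ((M H p).card : ℝ) * (((I H).card : ℝ) * ((I H).card : ℝ)))) := by
    have h4 : (F H p).card ≤ ((I H).biUnion (fun b => A H p b ×ˢ ({b} ×ˢ A H p b))).card +
        ((M H p).card * ((I H).card * (I H).card) + ((I H).card * ((M H p).card * (I H).card) +
          (I H).card * ((I H).card * (M H p).card))) := by
      unfold F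
      refine (Finset.card_union_le _ _).trans (Nat.add_le_add_left ?_ _)
      refine (Finset.card_union_le _ _).trans (Nat.add_le_add ?_ ?_)
      · rw [Finset.card_product, Finset.card_product]
      refine (Finset.card_union_le _ _).trans (Nat.add_le_add ?_ ?_)
      · rw [Finset.card_product, Finset.card_product]
      · rw [Finset.card_product, Finset.card_product]
    have h5 : ((F H p).card : ℝ) ≤ (((((I H).biUnion (fun b => A H p b ×ˢ ({b} ×ˢ A H p b))).card +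
        ((M H p).card * ((I H).card * (I H).card) + ((I H).card * ((M H p).card * (I H).card) +
          (I H).card * ((I H).card * (M H p).card))) : ℕ)) : ℝ) := by exact_mod_cast h4
    refine h5.trans (le_of_eq ?_)
    push_cast
    ring
  linarith

end LARGEP_

open LARGEP_ in
theorem p_LARGEP : T_LARGEP := by
  refine ⟨258, ?_⟩
  intro P H hP hH
  have hsub : {l | l ∈ Box H ∧ ∃ p : ℕ, p.Prime ∧ P ≤ p ∧ Cond p l} ⊆
      (((Finset.Ioo (P - 1) (2 * H)).biUnion (fun p => F H p) : Finset (ℤ × ℤ × ℤ)) :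
        Set (ℤ × ℤ × ℤ)) := by
    rintro ⟨a, b, c⟩ ⟨⟨ha, hb, hc⟩, p, hp, hPp, ha0, hb0, hc0, -, h1, h2⟩
    simp only at ha hb hc ha0 hb0 hc0 h1 h2
    have hpH : p < 2 * H := by
      have : (p : ℤ) < 2 * (H : ℤ) := by
        refine lt_of_lt_of_le h2 ?_
        have : max |a| (max |b| |c|) ≤ (H : ℤ) := max_le ha (max_le hb hc)
        linarith
      exact_mod_cast this
    rw [Finset.mem_coe, Finset.mem_biUnion]
    refine ⟨p, ?_, ?_⟩
    · rw [Finset.mem_Ioo]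
      omega
    have hsq : ∀ x : ℤ, (p : ℤ) ^ ((p - 3) / 2) ∣ x → (p : ℤ) ^ 2 ∣ x := by
      intro x hx
      exact (pow_dvd_pow (p : ℤ) (by omega)).trans hx
    unfold F
    rw [Finset.mem_union, Finset.mem_union, Finset.mem_union]
    rcases h1 with h1 | h1 | h1 | h1
    · left
      rw [Finset.mem_biUnion]
      refine ⟨b, mem_I.2 hb, ?_⟩
      simp only [Finset.mem_product, Finset.mem_singleton, A, Finset.mem_filter, mem_I]
      refine ⟨⟨ha, h1.1⟩, trivial, hc, ?_⟩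
      have := (Int.dvd_neg).2 h1.2
      simpa using this
    · right; left
      simp only [Finset.mem_product, M, Finset.mem_filter, mem_I]
      exact ⟨⟨ha, ha0, hsq a h1⟩, hb, hc⟩
    · right; right; left
      simp only [Finset.mem_product, M, Finset.mem_filter, mem_I]
      exact ⟨ha, ⟨hb, hb0, hsq b h1⟩, hc⟩
    · right; right; right
      simp only [Finset.mem_product, M, Finset.mem_filter, mem_I]
      exact ⟨ha, hb, ⟨hc, hc0, hsq c h1⟩⟩
  have hH0 : (0 : ℝ) ≤ H := Nat.cast_nonneg _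
  calc (Set.ncard {l | l ∈ Box H ∧ ∃ p : ℕ, p.Prime ∧ P ≤ p ∧ Cond p l} : ℝ)
      ≤ (Set.ncard (((Finset.Ioo (P - 1) (2 * H)).biUnion (fun p => F H p) :
          Finset (ℤ × ℤ × ℤ)) : Set (ℤ × ℤ × ℤ)) : ℝ) := by
        exact_mod_cast Set.ncard_le_ncard hsub (Finset.finite_toSet _)
    _ = (((Finset.Ioo (P - 1) (2 * H)).biUnion (fun p => F H p)).card : ℝ) := by
        rw [Set.ncard_coe_finset]
    _ ≤ ((∑ p ∈ Finset.Ioo (P - 1) (2 * H), (F H p).card : ℕ) : ℝ) := by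
        exact_mod_cast Finset.card_biUnion_le
    _ = ∑ p ∈ Finset.Ioo (P - 1) (2 * H), ((F H p).card : ℝ) := by push_cast; rfl
    _ ≤ ∑ p ∈ Finset.Ioo (P - 1) (2 * H), 129 * (H : ℝ) ^ 3 * ((p : ℝ) ^ 2)⁻¹ := by
        apply Finset.sum_le_sum
        intro p hp
        rw [Finset.mem_Ioo] at hp
        exact card_F H p hH (by omega) hp.2
    _ = 129 * (H : ℝ) ^ 3 * ∑ p ∈ Finset.Ioo (P - 1) (2 * H), ((p : ℝ) ^ 2)⁻¹ := by
        rw [Finset.mul_sum]
    _ ≤ 129 * (H : ℝ) ^ 3 * (2 / ((P - 1 : ℕ) + 1 : ℝ)) := by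
        apply mul_le_mul_of_nonneg_left _ (by positivity)
        exact sum_Ioo_inv_sq_le (P - 1) (2 * H)
    _ = 258 * (H : ℝ) ^ 3 / P := by
        have h1 : ((P - 1 : ℕ) : ℝ) + 1 = P := by
          have : P - 1 + 1 = P := by omega
          exact_mod_cast this
        rw [h1]
        ring

end Pool.Agent.FLN
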