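import Pool.Agent.FLN.Targets

set_option autoImplicit false

/-!
# The rational line through a quadratic point and its conjugate
-/

namespace Pool.Agent.FLN

namespace LINE_

/-- A quadratic field contains no nontrivial `p`-th root of unity, `p ≥ 5` prime. -/
theorem eq_one_of_pow {K : Type} [Field K] [NumberField K] (hK : Module.finrank ℚ K = 2) {p : ℕ}
    (hp : p.Prime) (hp5 : 5 ≤ p) {x : K} (hx : x ^ p = 1) : x = 1 := by
  by_contra hne
  have : Fact p.Prime := ⟨hp⟩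
  have hord : orderOf x = p := orderOf_eq_prime hx hne
  have hprim : IsPrimitiveRoot x p := by rw [← hord]; exact IsPrimitiveRoot.orderOf x
  have h1 := Polynomial.cyclotomic_eq_minpoly_rat hprim hp.pos
  have h2 := minpoly.natDegree_le (A := ℚ) x
  rw [← h1, Polynomial.natDegree_cyclotomic, Nat.totient_prime hp, hK] at h2
  omega

theorem rational {K : Type} [Field K] [NumberField K] (hK : Module.finrank ℚ K = 2) {p : ℕ}
    (hp : p.Prime) (hp5 : 5 ≤ p) (σ : K →+* K) (hfix : ∀ x, σ x = x → ∃ r : ℚ, x = r)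
    {A B C : K} (hB : B ≠ 0) (hC : C ≠ 0) (he : A ^ p + B ^ p + C ^ p = 0)
    (hw : A * σ B - B * σ A = 0) : ∃ r s : ℚ, A = r * B ∧ C = s * B := by
  have hσB : σ B ≠ 0 := (map_ne_zero σ).mpr hB
  have hσC : σ C ≠ 0 := (map_ne_zero σ).mpr hC
  obtain ⟨r, hr⟩ := hfix (A / B) (by
    rw [map_div₀, div_eq_div_iff hσB hB]
    linear_combination -hw)
  have hA : A = r * B := by rw [← hr]; field_simp
  have hu : (C / B) ^ p = ((-(r ^ p + 1) : ℚ) : K) := by
    rw [div_pow, div_eq_iff (pow_ne_zero _ hB)]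
    push_cast
    rw [hA, mul_pow] at he
    linear_combination he
  have hσu : σ (C / B) ^ p = (C / B) ^ p := by
    rw [← map_pow, hu, map_ratCast]
  have hCB : C / B ≠ 0 := div_ne_zero hC hB
  have h1 : (σ (C / B) / (C / B)) ^ p = 1 := by
    rw [div_pow, hσu, div_self (pow_ne_zero _ hCB)]
  have h2 := eq_one_of_pow hK hp hp5 h1
  rw [div_eq_one_iff_eq hCB] at h2
  obtain ⟨s, hs⟩ := hfix _ h2
  exact ⟨r, s, hA, by rw [← hs]; field_simp⟩

theorem clear_den (r₁ r₂ r₃ : ℚ) (h₁ : r₁ ≠ 0) : ∃ (t : ℚ) (a b c : ℤ), t ≠ 0 ∧ r₁ = t * a ∧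
    r₂ = t * b ∧ r₃ = t * c ∧ Int.gcd (Int.gcd a b) c = 1 := by
  have d1 : (r₁.den : ℚ) ≠ 0 := by exact_mod_cast r₁.den_nz
  have d2 : (r₂.den : ℚ) ≠ 0 := by exact_mod_cast r₂.den_nz
  have d3 : (r₃.den : ℚ) ≠ 0 := by exact_mod_cast r₃.den_nz
  have e1 : r₁ * r₁.den = r₁.num := Rat.mul_den_eq_num r₁
  have e2 : r₂ * r₂.den = r₂.num := Rat.mul_den_eq_num r₂
  have e3 : r₃ * r₃.den = r₃.num := Rat.mul_den_eq_num r₃
  set n1 : ℤ := r₁.num * r₂.den * r₃.den with hn1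
  set n2 : ℤ := r₂.num * r₁.den * r₃.den with hn2
  set n3 : ℤ := r₃.num * r₁.den * r₂.den with hn3
  have hn10 : n1 ≠ 0 := by
    have h : r₁.num ≠ 0 := Rat.num_ne_zero.mpr h₁
    have h2 : (r₂.den : ℤ) ≠ 0 := by exact_mod_cast r₂.den_nz
    have h3 : (r₃.den : ℤ) ≠ 0 := by exact_mod_cast r₃.den_nz
    exact mul_ne_zero (mul_ne_zero h h2) h3
  set g : ℕ := Int.gcd (Int.gcd n1 n2) n3 with hg
  have hg1 : (g : ℤ) ∣ n1 := (Int.gcd_dvd_left _ _).trans (Int.gcd_dvd_left _ _)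
  have hg2 : (g : ℤ) ∣ n2 := (Int.gcd_dvd_left _ _).trans (Int.gcd_dvd_right _ _)
  have hg3 : (g : ℤ) ∣ n3 := Int.gcd_dvd_right _ _
  have hg0 : g ≠ 0 := by
    rintro h
    rw [h, Nat.cast_zero, zero_dvd_iff] at hg1
    exact hn10 hg1
  obtain ⟨a, ha⟩ := hg1
  obtain ⟨b, hb⟩ := hg2
  obtain ⟨c, hc⟩ := hg3
  have hgcd : g * Int.gcd (Int.gcd a b) c = g := by
    conv_rhs => rw [hg, ha, hb, hc]
    rw [Int.gcd_mul_left, Int.natAbs_natCast, Nat.cast_mul, Int.gcd_mul_left, Int.natAbs_natCast]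
  have hgQ : (g : ℚ) ≠ 0 := by exact_mod_cast hg0
  have ha' : (n1 : ℚ) = g * a := by exact_mod_cast ha
  have hb' : (n2 : ℚ) = g * b := by exact_mod_cast hb
  have hc' : (n3 : ℚ) = g * c := by exact_mod_cast hc
  rw [hn1] at ha'
  rw [hn2] at hb'
  rw [hn3] at hc'
  push_cast at ha' hb' hc'
  refine ⟨g / (r₁.den * r₂.den * r₃.den), a, b, c, ?_, ?_, ?_, ?_, ?_⟩
  · exact div_ne_zero hgQ (mul_ne_zero (mul_ne_zero d1 d2) d3)
  · rw [div_mul_eq_mul_div, ← ha', eq_div_iff (mul_ne_zero (mul_ne_zero d1 d2) d3)]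
    linear_combination ((r₂.den : ℚ) * r₃.den) * e1
  · rw [div_mul_eq_mul_div, ← hb', eq_div_iff (mul_ne_zero (mul_ne_zero d1 d2) d3)]
    linear_combination ((r₁.den : ℚ) * r₃.den) * e2
  · rw [div_mul_eq_mul_div, ← hc', eq_div_iff (mul_ne_zero (mul_ne_zero d1 d2) d3)]
    linear_combination ((r₁.den : ℚ) * r₂.den) * e3
  · exact Nat.eq_of_mul_eq_mul_left (Nat.pos_of_ne_zero hg0) (by rw [hgcd, mul_one])

end LINE_

open LINE_ in
theorem p_LINE (h : T_CONJ) : T_LINE := by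
  intro p K _ _ x y z hp hp5 hq
  obtain ⟨σ, hinv, hfix, δ, hδ, hσδ⟩ := h K hq.quad
  have hodd : Odd p := hp.odd_of_ne_two (by omega)
  have he : x ^ p + y ^ p + (-z) ^ p = 0 := by
    rw [hodd.neg_pow, hq.eqn, add_neg_cancel]
  have hz : -z ≠ 0 := neg_ne_zero.mpr hq.hz
  -- all three coordinates are not proportional to a rational vector
  have irr : ∀ (t : K) (r₁ r₂ r₃ : ℚ), x = r₁ * t → y = r₂ * t → -z = r₃ * t → False := by
    intro t r₁ r₂ r₃ h1 h2 h3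
    have hr : (r₃ : K) ≠ 0 := by
      rintro h0
      rw [h0, zero_mul] at h3
      exact hz h3
    apply hq.irrational
    refine ⟨-r₁ / r₃, -r₂ / r₃, ?_, ?_⟩
    · have : z = -(r₃ * t) := by rw [← h3, neg_neg]
      rw [this, h1]
      push_cast
      field_simp
    · have : z = -(r₃ * t) := by rw [← h3, neg_neg]
      rw [this, h2]
      push_cast
      field_simp
  have anti : ∀ w : K, σ w = -w → ∃ r : ℚ, w = r * δ := by
    intro w hw
    obtain ⟨r, hr⟩ := hfix (w / δ) (by rw [map_div₀, hw, hσδ, neg_div_neg_eq])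
    exact ⟨r, by rw [← hr]; field_simp⟩
  obtain ⟨r₁, h1⟩ := anti (y * σ (-z) - (-z) * σ y) (by
    rw [map_sub, map_mul, map_mul, hinv, hinv]; ring)
  obtain ⟨r₂, h2⟩ := anti ((-z) * σ x - x * σ (-z)) (by
    rw [map_sub, map_mul, map_mul, hinv, hinv]; ring)
  obtain ⟨r₃, h3⟩ := anti (x * σ y - y * σ x) (by
    rw [map_sub, map_mul, map_mul, hinv, hinv]; ring)
  have n1 : r₁ ≠ 0 := by
    rintro rfl
    rw [Rat.cast_zero, zero_mul] at h1
    obtain ⟨r, s, h4, h5⟩ := rational hq.quad hp hp5 σ hfix hz hq.hx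
      (by linear_combination he) h1
    exact irr (-z) s r 1 h5 h4 (by rw [Rat.cast_one, one_mul])
  have n2 : r₂ ≠ 0 := by
    rintro rfl
    rw [Rat.cast_zero, zero_mul] at h2
    obtain ⟨r, s, h4, h5⟩ := rational hq.quad hp hp5 σ hfix hq.hx hq.hy
      (by linear_combination he) h2
    exact irr x 1 s r (by rw [Rat.cast_one, one_mul]) h5 h4
  have n3 : r₃ ≠ 0 := by
    rintro rfl
    rw [Rat.cast_zero, zero_mul] at h3
    obtain ⟨r, s, h4, h5⟩ := rational hq.quad hp hp5 σ hfix hq.hy hz he h3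
    exact irr y r 1 s h4 (by rw [Rat.cast_one, one_mul]) h5
  obtain ⟨t, a, b, c, ht, e1, e2, e3, hgcd⟩ := clear_den r₁ r₂ r₃ n1
  have htK : (t : K) ≠ 0 := by exact_mod_cast ht
  refine ⟨σ, t * δ, a, b, c, ⟨hinv, hfix, hq.hx, hq.hy, hz, he, ?_, ?_, ?_, ?_, ?_, ?_, ?_, hgcd⟩⟩
  · rw [h1, e1]; push_cast; ring
  · rw [h2, e2]; push_cast; ring
  · rw [h3, e3]; push_cast; ring
  · exact mul_ne_zero htK hδ
  · rintro rfl
    exact n1 (by rw [e1, Int.cast_zero, mul_zero])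
  · rintro rfl
    exact n2 (by rw [e2, Int.cast_zero, mul_zero])
  · rintro rfl
    exact n3 (by rw [e3, Int.cast_zero, mul_zero])

end Pool.Agent.FLN
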