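import Pool.Agent.FLN.Targets

set_option autoImplicit false

/-!
# MP_50a406_nt, quadratic points of Fermat curves on rational lines: the prime `p`
-/

namespace Pool.Agent.FLN

open Polynomial
open scoped WithZero

namespace LP_

/-- `(1 + X)^p = 1 + X^p + p X (1 + X R)` -/
theorem exists_R (p : ℕ) (hp : p.Prime) : ∃ R : ℤ[X],
    (1 + X : ℤ[X]) ^ p = 1 + X ^ p + (p : ℤ[X]) * X * (1 + X * R) := by
  obtain ⟨r, hr⟩ := exists_add_pow_prime_eq hp (1 : ℤ[X]) X
  have h0 : r.coeff 0 = 1 := by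
    have h1 : ((1 + X : ℤ[X]) ^ p).coeff 1 = (1 ^ p + X ^ p + (p : ℤ[X]) * 1 * X * r).coeff 1 := by
      rw [hr]
    rw [Polynomial.coeff_one_add_X_pow] at h1
    have hp1 : 1 ≠ p := hp.one_lt.ne
    have e1 : (p : ℤ[X]) * 1 * X * r = C (p : ℤ) * (X * r) := by
      rw [mul_one, mul_assoc]; rfl
    rw [e1, one_pow, coeff_add, coeff_add, coeff_C_mul, coeff_one, coeff_X_pow, if_neg (by norm_num),
      if_neg hp1, show (1 : ℕ) = 0 + 1 from rfl, coeff_X_mul, zero_add, Nat.choose_one_right,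
      zero_add, zero_add] at h1
    have hp0 : (p : ℤ) ≠ 0 := by exact_mod_cast hp.ne_zero
    have h2 : (p : ℤ) * r.coeff 0 = (p : ℤ) * 1 := by rw [mul_one]; exact h1.symm
    exact mul_left_cancel₀ hp0 h2
  refine ⟨r.divX, ?_⟩
  have h1 := Polynomial.divX_mul_X_add r
  rw [h0, map_one] at h1
  rw [hr, one_pow, mul_one]
  conv_lhs => rw [← h1]
  ring

variable {K : Type} [Field K]

theorem v_int {v : Valuation K ℤᵐ⁰} {q e : ℕ} (h : Adm v q e) (n : ℤ) : v (n : K) ≤ 1 := by
  by_cases hn : n = 0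
  · rw [hn, Int.cast_zero, map_zero]
    exact zero_le_one
  · rw [h.2.2 n hn, ← WithZero.exp_zero, WithZero.exp_le_exp]
    omega

theorem v_p {v : Valuation K ℤᵐ⁰} {p e : ℕ} (h : Adm v p e) :
    v (p : K) = WithZero.exp (-(e : ℤ)) := by
  have h1 := h.2.2 (p : ℤ) (by exact_mod_cast h.1.ne_zero)
  rw [Int.cast_natCast] at h1
  rw [h1]
  have : Fact p.Prime := ⟨h.1⟩
  rw [padicValInt.self h.1.one_lt, mul_one]

theorem v_poly {v : Valuation K ℤᵐ⁰} {q e : ℕ} (h : Adm v q e) (P : ℤ[X]) {t : K}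
    (ht : v t ≤ 1) : v (aeval t P) ≤ 1 := by
  rw [Polynomial.aeval_eq_sum_range]
  apply v.map_sum_le
  intro i _
  rw [zsmul_eq_mul, map_mul, map_pow]
  exact mul_le_one' (v_int h _) (pow_le_one' ht i)

/-- the expansion of `(1 + t)^p - 1` -/
theorem expand [CharZero K] {p : ℕ} (R : ℤ[X])
    (hR : (1 + X : ℤ[X]) ^ p = 1 + X ^ p + (p : ℤ[X]) * X * (1 + X * R)) (t : K) :
    (1 + t) ^ p = 1 + t ^ p + (p : K) * t * (1 + t * aeval t R) := by
  have h := congrArg (aeval t) hR
  simpa using h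

theorem lt_one_le {x : ℤᵐ⁰} (h0 : x ≠ 0) (h : x < 1) : ∃ k : ℤ, k ≤ -1 ∧ x = WithZero.exp k := by
  refine ⟨WithZero.log x, ?_, (WithZero.exp_log h0).symm⟩
  rw [← WithZero.exp_log h0, ← WithZero.exp_zero, WithZero.exp_lt_exp] at h
  omega

theorem pow_lt {x : ℤᵐ⁰} (h : x < 1) {p e : ℕ} (hp : 5 ≤ p) (he : e = 1 ∨ e = 2) :
    x ^ (p - 1) < WithZero.exp (-(e : ℤ)) := by
  rcases eq_or_ne x 0 with h0 | h0
  · rw [h0, zero_pow (by omega)]
    exact zero_lt_iff.2 WithZero.exp_ne_zero
  · obtain ⟨k, hk, rfl⟩ := lt_one_le h0 h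
    rw [← WithZero.exp_nsmul, WithZero.exp_lt_exp, nsmul_eq_mul]
    have h1 : ((p - 1 : ℕ) : ℤ) * k ≤ ((p - 1 : ℕ) : ℤ) * (-1) :=
      mul_le_mul_of_nonneg_left hk (by omega)
    omega

end LP_

open LP_ in
theorem p_LP : T_LP := by
  intro K _ _ v p e hA hp5 α β hα hβ hαβ
  have hp := hA.1
  obtain ⟨R, hR⟩ := exists_R p hp
  have hvp := v_p hA
  have hvp0 : v (p : K) < 1 := by
    rw [hvp, ← WithZero.exp_zero, WithZero.exp_lt_exp]
    rcases hA.2.1 with h | h <;> subst h <;> norm_num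
  have hβ0 : v β ≠ 0 := (Valuation.ne_zero_iff v).2 hβ
  have hα0 : v α ≠ 0 := (Valuation.ne_zero_iff v).2 hα
  set t : K := (α - β) / β with ht
  have ht1 : α = β * (1 + t) := by
    rw [ht]; field_simp; ring
  have hδ : α - β = β * t := by
    rw [ht]; field_simp
  have hpow : α ^ p - β ^ p = β ^ p * (t ^ p + (p : K) * t * (1 + t * aeval t R)) := by
    have h1 : α ^ p = β ^ p * (1 + t) ^ p := by rw [ht1, mul_pow]
    rw [h1, expand R hR t]
    ring
  have hvt : v (α - β) = v β * v t := by rw [hδ, map_mul]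
  have hpp : p = (p - 1) + 1 := by omega
  constructor
  · rintro ⟨h1, h2⟩
    have hlt : v t < 1 := by
      rw [h1, hvt] at h2
      by_contra h
      have h3 := le_mul_of_one_le_right' (b := v t) (a := v β) (not_lt.1 h)
      exact absurd h2 (not_lt.2 h3)
    have hR1 : v (aeval t R) ≤ 1 := v_poly hA R hlt.le
    have h3 : v (1 + t * aeval t R) = 1 := by
      apply v.map_one_add_of_lt
      rw [map_mul]
      exact lt_of_le_of_lt (mul_le_of_le_one_right' hR1) hlt
    have h4 : t ^ p + (p : K) * t * (1 + t * aeval t R) =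
        t * (t ^ (p - 1) + (p : K) * (1 + t * aeval t R)) := by
      have : t ^ p = t * t ^ (p - 1) := by
        conv_lhs => rw [hpp, pow_succ, mul_comm]
      rw [this]; ring
    have h5 : v (t ^ (p - 1) + (p : K) * (1 + t * aeval t R)) = v (p : K) := by
      have h6 : v ((p : K) * (1 + t * aeval t R)) = v (p : K) := by
        rw [map_mul, h3, mul_one]
      rw [v.map_add_eq_of_lt_right, h6]
      rw [h6, map_pow, hvp]
      exact pow_lt hlt hp5 hA.2.1
    rw [hpow, map_mul, h4, map_mul, h5, map_pow, hvt, h1]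
    have : v β ^ p = v β * v β ^ (p - 1) := by
      conv_lhs => rw [hpp, pow_succ, mul_comm]
    rw [this, mul_mul_mul_comm, ← mul_assoc]
  · intro h
    by_cases h1 : v α = v β
    · have h2 : ¬ v (α - β) < v α := fun h2 => h ⟨h1, h2⟩
      have hle : v t ≤ 1 := by
        rw [ht, map_div₀]
        apply div_le_one_of_le₀ _ zero_le'
        exact (v.map_sub _ _).trans (by rw [h1, max_self])
      have hge : 1 ≤ v t := by
        by_contra h3
        apply h2
        rw [hvt, h1]
        exact mul_lt_of_lt_one_right (zero_lt_iff.2 hβ0) (not_le.1 h3)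
      have hvt1 : v t = 1 := le_antisymm hle hge
      have hR1 : v (aeval t R) ≤ 1 := v_poly hA R hle
      have h3 : v ((p : K) * t * (1 + t * aeval t R)) < 1 := by
        rw [map_mul, map_mul, hvt1, mul_one]
        have h4 : v (1 + t * aeval t R) ≤ 1 := by
          refine (v.map_add _ _).trans (max_le (by rw [map_one]) ?_)
          rw [map_mul, hvt1, one_mul]
          exact hR1
        exact lt_of_le_of_lt (mul_le_of_le_one_right' h4) hvp0
      have h5 : v (t ^ p + (p : K) * t * (1 + t * aeval t R)) = 1 := by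
        have h6 : v (t ^ p) = 1 := by rw [map_pow, hvt1, one_pow]
        rw [v.map_add_eq_of_lt_left, h6]
        rw [h6]
        exact h3
      rw [hpow, map_mul, h5, mul_one, hvt, hvt1, mul_one, h1, max_self, map_pow]
      conv_lhs => rw [hpp, pow_succ, mul_comm]
    · rcases lt_or_gt_of_ne h1 with h2 | h2
      · rw [v.map_sub_eq_of_lt_right h2, max_eq_right h2.le, v.map_sub_eq_of_lt_right, map_pow]
        · conv_lhs => rw [hpp, pow_succ, mul_comm]
        · rw [map_pow, map_pow]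
          exact pow_lt_pow_left₀ h2 zero_le' hp.ne_zero
      · rw [v.map_sub_eq_of_lt_left h2, max_eq_left h2.le, v.map_sub_eq_of_lt_left, map_pow]
        · conv_lhs => rw [hpp, pow_succ, mul_comm]
        · rw [map_pow, map_pow]
          exact pow_lt_pow_left₀ h2 zero_le' hp.ne_zero

end Pool.Agent.FLN
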