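import Pool.Agent.FLN.Targets

set_option autoImplicit false

/-!
# MP_50a406_nt: Lehmer numbers at the primes `q` which are not `0, 1, -1` modulo `p` (job FLN-LQ)
-/

namespace Pool.Agent.FLN

open NumberField
open scoped WithZero

namespace LQ_

variable {K : Type} [Field K]

theorem adm_int_eq_one {v : Valuation K ℤᵐ⁰} {q e : ℕ} (h : Adm v q e) {n : ℤ}
    (hn : ¬ (q : ℤ) ∣ n) : v (n : K) = 1 := by
  obtain ⟨hq, -, h3⟩ := h
  have := Fact.mk hq
  have hn0 : n ≠ 0 := by
    rintro rfl
    exact hn (dvd_zero _)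
  rw [h3 n hn0]
  have h4 : padicValInt q n = 0 := by
    by_contra h5
    apply hn
    have h6 := padicValInt_dvd (p := q) n
    exact (dvd_pow_self (q : ℤ) h5).trans h6
  rw [h4]
  simp

theorem adm_q_lt {v : Valuation K ℤᵐ⁰} {q e : ℕ} (h : Adm v q e) : v (q : K) < 1 := by
  obtain ⟨hq, he, h3⟩ := h
  have := Fact.mk hq
  have h4 := h3 q (by exact_mod_cast hq.ne_zero)
  rw [Int.cast_natCast] at h4
  rw [h4, padicValInt_self, ← WithZero.exp_zero, WithZero.exp_lt_exp]
  rcases he with rfl | rfl <;> norm_num

theorem unit_case [CharZero K] (σ : K →+* K) (hfix : ∀ x, σ x = x → ∃ r : ℚ, x = r) (v : Valuation K ℤᵐ⁰)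
    (p q e : ℕ) (hv : Adm v q e) (hp : p.Prime) (hpq : ¬ p ∣ q * (q ^ 2 - 1)) (u : K)
    (hu : v u = 1) (hu2 : u * σ u = 1) (hu3 : σ (σ u) = u) :
    v (u ^ p - 1) = v (u - 1) := by
  have hq := hv.1
  have hu0 : u ≠ 0 := left_ne_zero_of_mul_eq_one hu2
  have hgeom : (∑ j ∈ Finset.range p, u ^ j) * (u - 1) = u ^ p - 1 := geom_sum_mul u p
  have hle : v (u - 1) ≤ 1 := (v.map_sub u 1).trans (by rw [hu, map_one, max_self])
  have hpow : ∀ j : ℕ, v (u ^ j) = 1 := fun j => by rw [map_pow, hu, one_pow]
  rcases hle.lt_or_eq with hlt | heq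
  · have h1 : v (∑ j ∈ Finset.range p, (u ^ j - 1)) < 1 := by
      apply v.map_sum_lt one_ne_zero
      intro j _
      rw [← geom_sum_mul u j, map_mul]
      have h2 : v (∑ i ∈ Finset.range j, u ^ i) ≤ 1 :=
        v.map_sum_le fun i _ => (hpow i).le
      calc v (∑ i ∈ Finset.range j, u ^ i) * v (u - 1) ≤ 1 * v (u - 1) := by gcongr
        _ = v (u - 1) := one_mul _
        _ < 1 := hlt
    have h3 : v (p : K) = 1 := by
      have h4 := adm_int_eq_one hv (n := (p : ℤ)) (by
        intro h5
        have h6 : q ∣ p := by exact_mod_cast h5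
        rw [Nat.prime_dvd_prime_iff_eq hq hp] at h6
        apply hpq
        rw [h6]
        exact dvd_mul_right _ _)
      rwa [Int.cast_natCast] at h4
    have h5 : ∑ j ∈ Finset.range p, u ^ j = ∑ j ∈ Finset.range p, (u ^ j - 1) + (p : K) := by
      rw [Finset.sum_sub_distrib, Finset.sum_const, Finset.card_range, nsmul_eq_mul, mul_one]
      ring
    have h6 : v (∑ j ∈ Finset.range p, u ^ j) = 1 := by
      rw [h5, v.map_add_eq_of_lt_right (by rw [h3]; exact h1), h3]
    rw [← hgeom, map_mul, h6, one_mul]
  · rw [heq]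
    by_contra hne
    have hle2 : v (u ^ p - 1) ≤ 1 := (v.map_sub _ _).trans (by rw [hpow, map_one, max_self])
    have hlt : v (u ^ p - 1) < 1 := lt_of_le_of_ne hle2 hne
    -- the residue field
    set A := v.valuationSubring with hA
    have hres : ∀ x : A, IsLocalRing.residue A x = 0 ↔ v (x : K) < 1 := fun x => by
      rw [IsLocalRing.residue_eq_zero_iff]
      exact v.mem_maximalIdeal_iff
    have hqk : ((q : ℕ) : IsLocalRing.ResidueField A) = 0 := by
      have h1 := (hres (q : A)).mpr (by
        have := adm_q_lt hv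
        simpa using this)
      rwa [map_natCast] at h1
    have : Fact q.Prime := ⟨hq⟩
    have : CharP (IsLocalRing.ResidueField A) q := by
      apply (CharP.charP_iff_prime_eq_zero hq).mpr hqk
    -- the elements
    have huA : u ∈ A := hu.le
    set ub : IsLocalRing.ResidueField A := IsLocalRing.residue A ⟨u, huA⟩ with hub
    have hub0 : ub ≠ 0 := by
      intro h
      rw [hub, hres] at h
      exact absurd h (by simp only; rw [hu]; exact lt_irrefl _)
    have hubp : ub ^ p = 1 := by
      have h1 := (hres (⟨u, huA⟩ ^ p - 1)).mpr (by simpa using hlt)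
      rw [map_sub, map_pow, map_one, sub_eq_zero] at h1
      exact h1
    have hub1 : ub ≠ 1 := by
      intro h
      have h1 : IsLocalRing.residue A (⟨u, huA⟩ - 1) = 0 := by
        rw [map_sub, map_one, ← hub, h, sub_self]
      rw [hres] at h1
      have h2 : v (u - 1) < 1 := by simpa using h1
      rw [heq] at h2
      exact lt_irrefl _ h2
    -- the trace
    obtain ⟨r, hr⟩ := hfix (u + σ u) (by rw [map_add, hu3, add_comm])
    have hσu : σ u = u⁻¹ := eq_inv_of_mul_eq_one_right hu2
    have hvσ : v (σ u) = 1 := by rw [hσu, map_inv₀, hu, inv_one]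
    have hvT : v (r : K) ≤ 1 := by
      rw [← hr]
      exact (v.map_add _ _).trans (by rw [hu, hvσ, max_self])
    have hden : ¬ (q : ℤ) ∣ (r.den : ℤ) := by
      intro hdvd
      have hnum : ¬ (q : ℤ) ∣ r.num := by
        intro h1
        have h2 : q ∣ r.num.natAbs := Int.natCast_dvd.mp h1
        have h3 : q ∣ r.den := by exact_mod_cast hdvd
        have h4 := Nat.dvd_gcd h2 h3
        rw [r.reduced.gcd_eq_one] at h4
        exact hq.one_lt.ne' (Nat.dvd_one.mp h4)
      have h1 := adm_int_eq_one hv hnum
      have h2 : v ((r.den : ℤ) : K) < 1 := by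
        obtain ⟨s, hs⟩ := hdvd
        rw [hs]
        push_cast
        rw [map_mul]
        have h3 : v (s : K) ≤ 1 := by
          by_cases hs0 : s = 0
          · subst hs0
            simp
          · rw [hv.2.2 s hs0, ← WithZero.exp_zero, WithZero.exp_le_exp]
            simp only [Left.neg_nonpos_iff]
            positivity
        calc v (q : K) * v (s : K) ≤ v (q : K) * 1 := by gcongr
          _ = v (q : K) := mul_one _
          _ < 1 := adm_q_lt hv
      have h3 : (r : K) * ((r.den : ℤ) : K) = ((r.num : ℤ) : K) := by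
        have : (r : ℚ) * (r.den : ℚ) = r.num := Rat.mul_den_eq_num r
        exact_mod_cast this
      have h4 := congrArg v h3
      rw [map_mul, h1] at h4
      have h5 : v (r : K) * v ((r.den : ℤ) : K) < 1 := by
        calc v (r : K) * v ((r.den : ℤ) : K) ≤ 1 * v ((r.den : ℤ) : K) := by gcongr
          _ = v ((r.den : ℤ) : K) := one_mul _
          _ < 1 := h2
      rw [h4] at h5
      exact lt_irrefl _ h5
    set Tb : IsLocalRing.ResidueField A := IsLocalRing.residue A ⟨(r : K), hvT⟩ with hTb
    have hTq : Tb ^ q = Tb := by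
      have h1 : Tb * ((r.den : ℤ) : IsLocalRing.ResidueField A) =
          ((r.num : ℤ) : IsLocalRing.ResidueField A) := by
        have h2 : (⟨(r : K), hvT⟩ : A) * ((r.den : ℤ) : A) = ((r.num : ℤ) : A) := by
          apply Subtype.ext
          have : (r : ℚ) * (r.den : ℚ) = r.num := Rat.mul_den_eq_num r
          simp only [MulMemClass.coe_mul, Int.cast_natCast]
          push_cast
          exact_mod_cast this
        have h3 := congrArg (IsLocalRing.residue A) h2
        rwa [map_mul, map_intCast, map_intCast] at h3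
      have h4 : ((r.den : ℤ) : IsLocalRing.ResidueField A) ≠ 0 := by
        intro h5
        rw [CharP.intCast_eq_zero_iff (IsLocalRing.ResidueField A) q] at h5
        exact hden h5
      have h5 : ∀ n : ℤ, ((n : ℤ) : IsLocalRing.ResidueField A) ^ q = n := by
        intro n
        have := map_intCast (frobenius (IsLocalRing.ResidueField A) q) n
        rwa [frobenius_def] at this
      have h6 := congrArg (fun x => x ^ q) h1
      simp only [mul_pow, h5] at h6
      rw [← h1] at h6
      exact mul_right_cancel₀ h4 h6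
    have hquad : ub ^ 2 + 1 = Tb * ub := by
      have h1 : (⟨u, huA⟩ : A) ^ 2 + 1 = ⟨(r : K), hvT⟩ * ⟨u, huA⟩ := by
        apply Subtype.ext
        simp only [AddMemClass.coe_add, SubmonoidClass.coe_pow, OneMemClass.coe_one,
          MulMemClass.coe_mul]
        rw [← hr]
        linear_combination - hu2
      have h2 := congrArg (IsLocalRing.residue A) h1
      rwa [map_add, map_pow, map_one, map_mul] at h2
    have hquad2 : (ub ^ q) ^ 2 + 1 = Tb * ub ^ q := by
      have h1 := congrArg (frobenius (IsLocalRing.ResidueField A) q) hquad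
      rw [map_add, map_pow, map_one, map_mul, frobenius_def, frobenius_def, hTq] at h1
      exact h1
    have hprod : (ub ^ q - ub) * (ub ^ q * ub - 1) = 0 := by
      linear_combination ub * hquad2 - ub ^ q * hquad
    have hord : ub ^ (q ^ 2 - 1) = 1 := by
      have hq1 : q ^ 2 - 1 = (q + 1) * (q - 1) := by
        have := Nat.sq_sub_sq q 1
        rwa [one_pow] at this
      rcases mul_eq_zero.mp hprod with h1 | h1
      · have h2 : ub ^ (q - 1) = 1 := by
          have h3 : ub ^ (q - 1) * ub = 1 * ub := by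
            rw [← pow_succ, Nat.sub_add_cancel hq.one_lt.le, one_mul]
            exact sub_eq_zero.mp h1
          exact mul_right_cancel₀ hub0 h3
        rw [hq1, mul_comm, pow_mul, h2, one_pow]
      · have h2 : ub ^ (q + 1) = 1 := by
          rw [pow_succ]
          exact sub_eq_zero.mp h1
        rw [hq1, pow_mul, h2, one_pow]
    have hcop : Nat.gcd p (q ^ 2 - 1) = 1 := by
      rw [← Nat.coprime_iff_gcd_eq_one, Nat.Prime.coprime_iff_not_dvd hp]
      intro h
      exact hpq (Dvd.dvd.mul_left h q)
    apply hub1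
    have h7 := pow_gcd_eq_one.mpr ⟨hubp, hord⟩
    rwa [hcop, pow_one] at h7

end LQ_

open LQ_ in
theorem p_LQ : T_LQ := by
  intro K _ _ σ hinv hfix v p q e hv hp hp5 hpq α hα hne
  have hβ : σ α ≠ 0 := (map_ne_zero σ).mpr hα
  have hp0 : p ≠ 0 := hp.ne_zero
  have hsucc : p = (p - 1) + 1 := by omega
  rcases lt_trichotomy (v α) (v (σ α)) with hlt | heq | hgt
  · rw [v.map_sub_eq_of_lt_right hlt, v.map_sub_eq_of_lt_right (by
      rw [map_pow, map_pow]
      exact pow_lt_pow_left₀ hlt zero_le hp0), max_eq_right hlt.le, map_pow]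
    conv_lhs => rw [hsucc, pow_succ, mul_comm]
  · have hvα : v α ≠ 0 := (Valuation.ne_zero_iff v).mpr hα
    have h1 := unit_case σ hfix v p q e hv hp hpq (α / σ α) (by
      rw [map_div₀, ← heq]
      exact div_self hvα) (by
      rw [map_div₀, hinv]
      field_simp) (hinv _)
    have h2 : α ^ p - (σ α) ^ p = (σ α) ^ p * ((α / σ α) ^ p - 1) := by
      rw [div_pow]
      field_simp
    have h3 : α - σ α = σ α * (α / σ α - 1) := by
      field_simp
    rw [h2, h3, map_mul, map_mul, h1, heq, max_self, map_pow]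
    conv_lhs => rw [hsucc, pow_succ]
    rw [mul_assoc, mul_comm]
  · rw [v.map_sub_eq_of_lt_left hgt, v.map_sub_eq_of_lt_left (by
      rw [map_pow, map_pow]
      exact pow_lt_pow_left₀ hgt zero_le hp0), max_eq_left hgt.le, map_pow]
    conv_lhs => rw [hsucc, pow_succ, mul_comm]

end Pool.Agent.FLN
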