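import Pool.Agent.FLN.Targets

set_option autoImplicit false

/-!
# PRIM: there are many primitive vectors
-/

open Finset

namespace Pool.Agent.FLN

namespace PRIM_

/-- The telescoping bound. -/
lemma sum_cube (n : ℕ) : ∑ g ∈ Icc 2 (n + 1), (1 : ℝ) / (g : ℝ) ^ 3 ≤
    1 / 4 - 1 / (2 * ((n : ℝ) + 1) * (n + 2)) := by
  induction n with
  | zero => norm_num
  | succ n ih =>
    rw [Finset.sum_Icc_succ_top (by omega)]
    have hn : (0 : ℝ) ≤ n := Nat.cast_nonneg n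
    have h1 : (1 : ℝ) / (((n + 1 + 1 : ℕ) : ℝ)) ^ 3 ≤
        1 / (2 * ((n : ℝ) + 1) * (n + 2)) - 1 / (2 * (((n + 1 : ℕ) : ℝ) + 1) * (((n + 1 : ℕ) : ℝ) + 2)) := by
      push_cast
      have e1 : 1 / (2 * ((n : ℝ) + 1) * (n + 2)) - 1 / (2 * ((n : ℝ) + 1 + 1) * ((n : ℝ) + 1 + 2)) =
          1 / (((n : ℝ) + 1) * (n + 2) * (n + 3)) := by
        field_simp
        ring
      rw [e1]
      apply one_div_le_one_div_of_le (by positivity)
      nlinarith [sq_nonneg ((n : ℝ))]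
    linarith

lemma card_mult (H g : ℕ) : ((Icc 1 H).filter (fun a => g ∣ a)).card = H / g := by
  have := Nat.card_multiples H g
  rw [← Nat.Ioc_filter_dvd_card_eq_div H g]
  congr 1

lemma count (H : ℕ) (hH : 1 ≤ H) : (3 / 4 : ℝ) * (H : ℝ) ^ 3 ≤
    (((Icc 1 H ×ˢ Icc 1 H ×ˢ Icc 1 H).filter
      (fun l : ℕ × ℕ × ℕ => Nat.gcd (Nat.gcd l.1 l.2.1) l.2.2 = 1)).card : ℝ) := by
  set B : Finset (ℕ × ℕ × ℕ) := Icc 1 H ×ˢ Icc 1 H ×ˢ Icc 1 H with hB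
  have hcard : B.card = H ^ 3 := by
    rw [hB, card_product, card_product, Nat.card_Icc]
    simp
    ring
  have h1 : B.filter (fun l : ℕ × ℕ × ℕ => ¬ Nat.gcd (Nat.gcd l.1 l.2.1) l.2.2 = 1) ⊆
      (Icc 2 H).biUnion fun g => (Icc 1 H).filter (fun a => g ∣ a) ×ˢ
        (Icc 1 H).filter (fun a => g ∣ a) ×ˢ (Icc 1 H).filter (fun a => g ∣ a) := by
    rintro ⟨a, b, c⟩ hl
    rw [mem_filter, hB, mem_product, mem_product, mem_Icc, mem_Icc, mem_Icc] at hl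
    simp only at hl
    obtain ⟨⟨ha, hb, hc⟩, hg⟩ := hl
    set g := Nat.gcd (Nat.gcd a b) c with hgdef
    have hga : g ∣ a := (Nat.gcd_dvd_left _ _).trans (Nat.gcd_dvd_left _ _)
    have hgb : g ∣ b := (Nat.gcd_dvd_left _ _).trans (Nat.gcd_dvd_right _ _)
    have hgc : g ∣ c := Nat.gcd_dvd_right _ _
    have hg0 : 0 < g := Nat.pos_of_dvd_of_pos hga (by omega)
    have hgH : g ≤ H := (Nat.le_of_dvd (by omega) hga).trans ha.2
    rw [mem_biUnion]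
    refine ⟨g, mem_Icc.2 ⟨by omega, hgH⟩, ?_⟩
    simp only [mem_product, mem_filter, mem_Icc]
    exact ⟨⟨ha, hga⟩, ⟨hb, hgb⟩, ⟨hc, hgc⟩⟩
  have h2 : (B.filter (fun l : ℕ × ℕ × ℕ => ¬ Nat.gcd (Nat.gcd l.1 l.2.1) l.2.2 = 1)).card ≤
      ∑ g ∈ Icc 2 H, (H / g) ^ 3 := by
    refine (card_le_card h1).trans (card_biUnion_le.trans ?_)
    apply Finset.sum_le_sum
    intro g _
    rw [card_product, card_product, card_mult]
    apply le_of_eq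
    ring
  have h3 : ((∑ g ∈ Icc 2 H, (H / g) ^ 3 : ℕ) : ℝ) ≤ (H : ℝ) ^ 3 * (1 / 4) := by
    push_cast
    calc ∑ g ∈ Icc 2 H, (((H / g : ℕ) : ℝ)) ^ 3 ≤ ∑ g ∈ Icc 2 H, (H : ℝ) ^ 3 * (1 / (g : ℝ) ^ 3) := by
          apply Finset.sum_le_sum
          intro g _
          have : ((H / g : ℕ) : ℝ) ≤ (H : ℝ) / g := Nat.cast_div_le
          calc (((H / g : ℕ) : ℝ)) ^ 3 ≤ ((H : ℝ) / g) ^ 3 :=
                pow_le_pow_left₀ (Nat.cast_nonneg _) this 3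
            _ = _ := by rw [div_pow]; ring
      _ = (H : ℝ) ^ 3 * ∑ g ∈ Icc 2 H, 1 / (g : ℝ) ^ 3 := by rw [Finset.mul_sum]
      _ ≤ (H : ℝ) ^ 3 * (1 / 4) := by
          apply mul_le_mul_of_nonneg_left _ (by positivity)
          obtain ⟨n, rfl⟩ : ∃ n, H = n + 1 := ⟨H - 1, by omega⟩
          refine (sum_cube n).trans ?_
          have : (0 : ℝ) ≤ 1 / (2 * ((n : ℝ) + 1) * (n + 2)) := by positivity
          linarith
  have h4 := Finset.card_filter_add_card_filter_not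
    (s := B) (fun l : ℕ × ℕ × ℕ => Nat.gcd (Nat.gcd l.1 l.2.1) l.2.2 = 1)
  rw [hcard] at h4
  have h5 : ((B.filter (fun l : ℕ × ℕ × ℕ => Nat.gcd (Nat.gcd l.1 l.2.1) l.2.2 = 1)).card : ℝ) +
      ((B.filter (fun l : ℕ × ℕ × ℕ => ¬ Nat.gcd (Nat.gcd l.1 l.2.1) l.2.2 = 1)).card : ℝ) =
      (H : ℝ) ^ 3 := by exact_mod_cast h4
  have h6 : ((B.filter (fun l : ℕ × ℕ × ℕ => ¬ Nat.gcd (Nat.gcd l.1 l.2.1) l.2.2 = 1)).card : ℝ) ≤
      ((∑ g ∈ Icc 2 H, (H / g) ^ 3 : ℕ) : ℝ) := by exact_mod_cast h2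
  linarith

lemma finite_Lines (H : ℕ) : (Lines H).Finite := by
  apply Set.Finite.subset (Finset.finite_toSet
    (Icc (-(H : ℤ)) H ×ˢ Icc (-(H : ℤ)) H ×ˢ Icc (-(H : ℤ)) H))
  rintro ⟨a, b, c⟩ ⟨ha, hb, hc, -⟩
  simp only [abs_le] at ha hb hc
  simp only [coe_product, coe_Icc, Set.mem_prod, Set.mem_Icc]
  exact ⟨ha, hb, hc⟩

end PRIM_

open PRIM_ in
theorem p_PRIM : T_PRIM := by
  refine ⟨3 / 4, by norm_num, fun H hH => (count H hH).trans ?_⟩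
  have h1 : (((Icc 1 H ×ˢ Icc 1 H ×ˢ Icc 1 H).filter
      (fun l : ℕ × ℕ × ℕ => Nat.gcd (Nat.gcd l.1 l.2.1) l.2.2 = 1)).card) ≤ (Lines H).ncard := by
    rw [← Set.ncard_coe_finset]
    have := (finite_Lines H).to_subtype
    apply Set.ncard_le_ncard_of_injOn (fun l : ℕ × ℕ × ℕ => ((l.1 : ℤ), (l.2.1 : ℤ), (l.2.2 : ℤ)))
    · rintro ⟨a, b, c⟩ hl
      rw [mem_coe, mem_filter, mem_product, mem_product, mem_Icc, mem_Icc, mem_Icc] at hl
      simp only at hl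
      obtain ⟨⟨ha, hb, hc⟩, hg⟩ := hl
      refine ⟨?_, ?_, ?_, ?_⟩
      · simp only [Nat.abs_cast]
        exact_mod_cast ha.2
      · simp only [Nat.abs_cast]
        exact_mod_cast hb.2
      · simp only [Nat.abs_cast]
        exact_mod_cast hc.2
      · simp only [Int.gcd_natCast_natCast]
        exact hg
    · rintro ⟨a, b, c⟩ _ ⟨a', b', c'⟩ _ h
      simp only [Prod.mk.injEq, Nat.cast_inj] at h
      rw [h.1, h.2.1, h.2.2]
  exact_mod_cast h1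

end Pool.Agent.FLN
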