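import Pool.Agent.FLN.Targets

set_option autoImplicit false

/-!
# FLN-SIGN: signs over a real field
-/

namespace Pool.Agent.FLN.SIGN_

/-- If `A - B = l a`, `A' - B' = l b`, `l ≠ 0` and `A ^ p - B ^ p = A' ^ p - B' ^ p` with `p` odd,
then `a` and `b` have the same sign. -/
theorem sgn {p : ℕ} (hp : Odd p) {A B A' B' l a b : ℝ} (h1 : A - B = l * a)
    (h2 : A' - B' = l * b) (hl : l ≠ 0) (ha : a ≠ 0) (hb : b ≠ 0)
    (hE : A ^ p - B ^ p = A' ^ p - B' ^ p) : 0 < a * b := by
  have key : 0 < (l * a) * (l * b) := by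
    rw [← h1, ← h2]
    have hne1 : A - B ≠ 0 := by rw [h1]; exact mul_ne_zero hl ha
    have hne2 : A' - B' ≠ 0 := by rw [h2]; exact mul_ne_zero hl hb
    rcases lt_or_gt_of_ne hne1 with h | h
    · have h3 : A ^ p < B ^ p := hp.strictMono_pow (by linarith)
      have h4 : A' ^ p < B' ^ p := by linarith
      have h5 : A' < B' := hp.strictMono_pow.lt_iff_lt.1 h4
      exact mul_pos_of_neg_of_neg h (by linarith)
    · have h3 : B ^ p < A ^ p := hp.strictMono_pow (by linarith)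
      have h4 : B' ^ p < A' ^ p := by linarith
      have h5 : B' < A' := hp.strictMono_pow.lt_iff_lt.1 h4
      exact mul_pos h (by linarith)
  have h6 : (l * a) * (l * b) = l ^ 2 * (a * b) := by ring
  rw [h6] at key
  exact (mul_pos_iff_of_pos_left (by positivity)).1 key

end Pool.Agent.FLN.SIGN_

namespace Pool.Agent.FLN

open SIGN_

theorem p_SIGN : T_SIGN := by
  rintro p K _ _ σ X1 X2 X3 l a b c hp hp5 D ⟨f⟩
  have hodd : Odd p := hp.odd_of_ne_two (by omega)
  have hσp : (σ X1) ^ p + (σ X2) ^ p + (σ X3) ^ p = 0 := by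
    have := congrArg σ D.eqn
    simpa using this
  have e1 : (X2 * σ X3) ^ p - (X3 * σ X2) ^ p = (X3 * σ X1) ^ p - (X1 * σ X3) ^ p := by
    simp only [mul_pow]
    linear_combination (σ X3) ^ p * D.eqn - X3 ^ p * hσp
  have e2 : (X3 * σ X1) ^ p - (X1 * σ X3) ^ p = (X1 * σ X2) ^ p - (X2 * σ X1) ^ p := by
    simp only [mul_pow]
    linear_combination (σ X1) ^ p * D.eqn - X1 ^ p * hσp
  have hl : f l ≠ 0 := by simpa using D.l0
  have F1 : f (X2 * σ X3) - f (X3 * σ X2) = f l * (a : ℝ) := by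
    rw [← map_sub, D.la, map_mul, map_intCast]
  have F2 : f (X3 * σ X1) - f (X1 * σ X3) = f l * (b : ℝ) := by
    rw [← map_sub, D.lb, map_mul, map_intCast]
  have F3 : f (X1 * σ X2) - f (X2 * σ X1) = f l * (c : ℝ) := by
    rw [← map_sub, D.lc, map_mul, map_intCast]
  have E1 := congrArg f e1
  have E2 := congrArg f e2
  simp only [map_sub, map_pow] at E1 E2
  have ha : (a : ℝ) ≠ 0 := by exact_mod_cast D.a0
  have hb : (b : ℝ) ≠ 0 := by exact_mod_cast D.b0
  have hc : (c : ℝ) ≠ 0 := by exact_mod_cast D.c0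
  have r1 := sgn hodd F1 F2 hl ha hb E1
  have r2 := sgn hodd F2 F3 hl hb hc E2
  exact ⟨by exact_mod_cast r1, by exact_mod_cast r2⟩

end Pool.Agent.FLN
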