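import Pool.Agent.FLN.Targets

set_option autoImplicit false

/-!
# FLN-SMALLP: the vectors that satisfy the conditions for a fixed exponent
-/

namespace Pool.Agent.FLN.SMALLP_

/-- The integers of absolute value at most `H`. -/
theorem card_abs (H : ℕ) : {n : ℤ | |n| ≤ (H : ℤ)}.ncard = 2 * H + 1 := by
  have : {n : ℤ | |n| ≤ (H : ℤ)} = ((Finset.Icc (-(H : ℤ)) H : Finset ℤ) : Set ℤ) := by
    ext n
    simp [abs_le]
  rw [this, Set.ncard_coe_finset, Int.card_Icc]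
  omega

theorem fin_abs (H : ℕ) : {n : ℤ | |n| ≤ (H : ℤ)}.Finite := by
  apply Set.finite_of_ncard_ne_zero
  rw [card_abs]
  omega

end Pool.Agent.FLN.SMALLP_

namespace Pool.Agent.FLN

open SMALLP_

theorem p_SMALLP (h1 : T_DIV) (h2 : T_DENS) : T_SMALLP := by
  intro p hp hp5 ε hε
  obtain ⟨C, hC⟩ := h2 {q : ℕ | q.Prime ∧ q % p = 2} (fun q hq => hq.1) (h1 p hp hp5) (ε / 9)
    (by positivity)
  refine ⟨9 * |C|, fun H hH => ?_⟩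
  set A : Set ℤ := {n : ℤ | |n| ≤ (H : ℤ) ∧
    ∀ q ∈ {q : ℕ | q.Prime ∧ q % p = 2}, ¬ ((q : ℤ) ∣ n ∧ ¬ (q : ℤ) ^ 2 ∣ n)} with hA
  set B : Set ℤ := {n : ℤ | |n| ≤ (H : ℤ)} with hB
  have hBf : B.Finite := fin_abs H
  have hAf : A.Finite := hBf.subset fun n hn => hn.1
  have hsub : {l | l ∈ Box H ∧ Cond p l} ⊆ A ×ˢ (B ×ˢ B) := by
    rintro ⟨a, b, c⟩ ⟨⟨ha, hb, hc⟩, hcond⟩
    exact ⟨⟨ha, fun q hq => hcond.2.2.2.1 q hq.1 hq.2⟩, hb, hc⟩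
  have hcard : (Set.ncard {l | l ∈ Box H ∧ Cond p l}) ≤ A.ncard * ((2 * H + 1) * (2 * H + 1)) := by
    refine (Set.ncard_le_ncard hsub (hAf.prod (hBf.prod hBf))).trans ?_
    rw [Set.ncard_prod, Set.ncard_prod, hB, card_abs]
  have hA' : (A.ncard : ℝ) ≤ ε / 9 * H + C := hC H
  have hH1 : (1 : ℝ) ≤ H := by exact_mod_cast hH
  have h3 : ((2 * (H : ℝ) + 1) * (2 * H + 1)) ≤ 9 * (H : ℝ) ^ 2 := by nlinarith
  calc ((Set.ncard {l | l ∈ Box H ∧ Cond p l} : ℕ) : ℝ)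
      ≤ ((A.ncard * ((2 * H + 1) * (2 * H + 1)) : ℕ) : ℝ) := by exact_mod_cast hcard
    _ = (A.ncard : ℝ) * ((2 * (H : ℝ) + 1) * (2 * H + 1)) := by push_cast; ring
    _ ≤ (ε / 9 * H + |C|) * (9 * (H : ℝ) ^ 2) := by
        apply mul_le_mul _ h3 (by positivity) (by positivity)
        exact hA'.trans (by linarith [le_abs_self C])
    _ = ε * (H : ℝ) ^ 3 + 9 * |C| * (H : ℝ) ^ 2 := by ring

end Pool.Agent.FLN
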