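import Pool.Agent.FLN.Targets

/-!
# Uniqueness of the line (job UNIQ)
-/

set_option autoImplicit false

namespace Pool.Agent.FLN

theorem p_UNIQ : T_UNIQ := by
  intro p K _ _ σ X1 X2 X3 l a b c D
  have hl := D.l0
  refine ⟨?_, ?_⟩
  · have h : l * ((a : K) * X1 + b * X2 + c * X3) = 0 := by
      linear_combination -X1 * D.la - X2 * D.lb - X3 * D.lc
    exact (mul_eq_zero.1 h).resolve_left hl
  · intro a' b' c' h
    have hs : (a' : K) * σ X1 + b' * σ X2 + c' * σ X3 = 0 := by
      have h2 := congrArg σ h
      simpa using h2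
    have e1 : b' * c = c' * b := by
      have h3 : l * ((b' : K) * c - c' * b) = 0 := by
        linear_combination -(b' : K) * D.lc + (c' : K) * D.lb + X1 * hs - σ X1 * h
      have h4 := (mul_eq_zero.1 h3).resolve_left hl
      have h5 : ((b' * c : ℤ) : K) = ((c' * b : ℤ) : K) := by
        push_cast
        exact sub_eq_zero.1 h4
      exact_mod_cast h5
    have e2 : c' * a = a' * c := by
      have h3 : l * ((c' : K) * a - a' * c) = 0 := by
        linear_combination -(c' : K) * D.la + (a' : K) * D.lc + X2 * hs - σ X2 * h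
      have h4 := (mul_eq_zero.1 h3).resolve_left hl
      have h5 : ((c' * a : ℤ) : K) = ((a' * c : ℤ) : K) := by
        push_cast
        exact sub_eq_zero.1 h4
      exact_mod_cast h5
    have e3 : a' * b = b' * a := by
      have h3 : l * ((a' : K) * b - b' * a) = 0 := by
        linear_combination -(a' : K) * D.lb + (b' : K) * D.la + X3 * hs - σ X3 * h
      have h4 := (mul_eq_zero.1 h3).resolve_left hl
      have h5 : ((a' * b : ℤ) : K) = ((b' * a : ℤ) : K) := by
        push_cast
        exact sub_eq_zero.1 h4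
      exact_mod_cast h5
    have g1 := Int.gcd_eq_gcd_ab a b
    have g2 := Int.gcd_eq_gcd_ab (Int.gcd a b : ℤ) c
    rw [D.gcd] at g2
    obtain ⟨u, v, w, huvw⟩ : ∃ u v w : ℤ, u * a + v * b + w * c = 1 := by
      refine ⟨Int.gcdA a b * Int.gcdA (Int.gcd a b : ℤ) c,
        Int.gcdB a b * Int.gcdA (Int.gcd a b : ℤ) c, Int.gcdB (Int.gcd a b : ℤ) c, ?_⟩
      push_cast at g2
      linear_combination -g2 - Int.gcdA (Int.gcd a b : ℤ) c * g1
    refine ⟨u * a' + v * b' + w * c', ?_, ?_, ?_⟩
    · linear_combination -a' * huvw + v * e3 - w * e2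
    · linear_combination -b' * huvw - u * e3 + w * e1
    · linear_combination -c' * huvw + u * e2 - v * e1

end Pool.Agent.FLN
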