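import Pool.Agent.FLN.Targets
import Pool.Agent.Lib.QuadFermatT1

/-!
# The line `x + y = z` contains only trivial points
-/

set_option autoImplicit false

open Polynomial

namespace Pool.Agent.FLN

theorem UNIT_.integral {K : Type} [Field K] [CharZero K] {p : ℕ} (hp : p.Prime) (hp5 : 5 ≤ p)
    (t : K) (ht : t ≠ 0) (h : (t + 1) ^ p = t ^ p + 1) : IsIntegral ℤ t := by
  obtain ⟨m, rfl⟩ : ∃ m, p = m + 2 := ⟨p - 2, by omega⟩
  have hdvd : ∀ j ∈ Finset.range m, (m + 2) ∣ (m + 2).choose (j + 1) := by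
    intro j hj
    rw [Finset.mem_range] at hj
    exact hp.dvd_choose_self (by omega) (by omega)
  rw [add_pow, Finset.sum_range_succ, Finset.sum_range_succ, Finset.sum_range_succ'] at h
  have hc : ∀ j ∈ Finset.range m, t ^ (j + 1) * 1 ^ (m + 2 - (j + 1)) *
      (((m + 2).choose (j + 1) : ℕ) : K) =
      ((m + 2 : ℕ) : K) * ((((m + 2).choose (j + 1) / (m + 2) : ℕ) : K) * t ^ (j + 1)) := by
    intro j hj
    conv_lhs => rw [← Nat.div_mul_cancel (hdvd j hj)]
    push_cast
    ring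
  rw [Finset.sum_congr rfl hc, ← Finset.mul_sum] at h
  have hsucc : (m + 2).choose (m + 1) = m + 2 := Nat.choose_succ_self_right (m + 1)
  rw [hsucc] at h
  simp only [one_pow, mul_one, pow_zero, Nat.choose_zero_right, Nat.cast_one, Nat.choose_self,
    one_mul] at h
  have h0 : ((m + 2 : ℕ) : K) ≠ 0 := by exact_mod_cast (by omega : m + 2 ≠ 0)
  have h1 : t ^ (m + 1) + ∑ j ∈ Finset.range m,
      ((((m + 2).choose (j + 1) / (m + 2) : ℕ) : K) * t ^ (j + 1)) = 0 := by
    apply mul_left_cancel₀ h0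
    rw [mul_zero]
    linear_combination h
  refine ⟨X ^ (m + 1) + ∑ j ∈ Finset.range m,
    C (((m + 2).choose (j + 1) / (m + 2) : ℕ) : ℤ) * X ^ (j + 1), ?_, ?_⟩
  · apply Polynomial.monic_X_pow_add
    refine (Polynomial.degree_sum_le _ _).trans_lt ?_
    rw [Finset.sup_lt_iff (WithBot.bot_lt_coe _)]
    intro j hj
    rw [Finset.mem_range] at hj
    refine (Polynomial.degree_C_mul_X_pow_le _ _).trans_lt ?_
    exact_mod_cast Nat.succ_lt_succ hj
  · rw [eval₂_add, eval₂_pow, eval₂_X, eval₂_finset_sum, ← h1]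
    congr 1
    refine Finset.sum_congr rfl fun j _ => ?_
    rw [eval₂_mul, eval₂_C, eval₂_pow, eval₂_X]
    congr 1
    simp only [algebraMap_int_eq, eq_intCast, Int.cast_natCast]

theorem p_UNIT : T_UNIT := by
  intro p K _ _ x y z hp hp5 hK hx hy hz h hxy
  refine Pool.Agent.Lib.QuadFermat.no_integral_ratio K hK p hp5 x y z h
    (mul_ne_zero (mul_ne_zero hx hy) hz) (Or.inl ?_)
  refine UNIT_.integral hp hp5 (x / y) (div_ne_zero hx hy) ?_
  have h1 : x / y + 1 = z / y := by
    rw [← hxy]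
    field_simp
  rw [h1, div_pow, div_pow, ← h, add_div, div_self (pow_ne_zero p hy)]

end Pool.Agent.FLN
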