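import Pool.Agent.FLN.Targets

set_option autoImplicit false

/-!
# VAL: the valuations of a quadratic field
-/

namespace Pool.Agent.FLN

open IsDedekindDomain NumberField
open scoped WithZero

namespace VAL_

variable {K : Type} [Field K] [NumberField K]

theorem exists_prime (P : HeightOneSpectrum (𝓞 K)) : ∃ q : ℕ, q.Prime ∧ (q : 𝓞 K) ∈ P.asIdeal := by
  classical
  have hex : ∃ n : ℕ, 0 < n ∧ (n : 𝓞 K) ∈ P.asIdeal := by
    refine ⟨Ideal.absNorm P.asIdeal, ?_, Ideal.absNorm_mem _⟩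
    rw [Nat.pos_iff_ne_zero]
    intro h
    exact P.ne_bot (Ideal.absNorm_eq_zero_iff.1 h)
  obtain ⟨hq0, hq⟩ := Nat.find_spec hex
  refine ⟨Nat.find hex, ?_, hq⟩
  have hmin : ∀ m : ℕ, 0 < m → (m : 𝓞 K) ∈ P.asIdeal → Nat.find hex ≤ m := fun m h1 h2 =>
    Nat.find_min' hex ⟨h1, h2⟩
  generalize Nat.find hex = q at *
  have hq1 : q ≠ 1 := by
    rintro rfl
    rw [Nat.cast_one] at hq
    exact P.isPrime.ne_top ((Ideal.eq_top_iff_one _).2 hq)
  rw [Nat.prime_def]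
  refine ⟨by omega, fun m hm => ?_⟩
  obtain ⟨k, rfl⟩ := hm
  rw [Nat.cast_mul] at hq
  have hm0 : 0 < m := Nat.pos_of_mul_pos_right hq0
  have hk0 : 0 < k := Nat.pos_of_mul_pos_left hq0
  rcases P.isPrime.mem_or_mem hq with h | h
  · right
    have h1 := hmin m hm0 h
    have h2 : m ≤ m * k := Nat.le_mul_of_pos_right m hk0
    omega
  · left
    have h1 := hmin k hk0 h
    by_contra hm1
    have h2 : 2 ≤ m := by omega
    have h3 : 2 * k ≤ m * k := Nat.mul_le_mul_right k h2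
    omega

omit [NumberField K] in
theorem notMem (P : HeightOneSpectrum (𝓞 K)) {q : ℕ} (hq : q.Prime)
    (hqP : (q : 𝓞 K) ∈ P.asIdeal) {n : ℤ} (hn : ¬ (q : ℤ) ∣ n) : (n : 𝓞 K) ∉ P.asIdeal := by
  intro h
  have hc : IsCoprime (q : ℤ) n := by
    rw [Prime.coprime_iff_not_dvd (Nat.prime_iff_prime_int.1 hq)]
    exact hn
  obtain ⟨a, b, hab⟩ := hc
  have h1 : ((a * q + b * n : ℤ) : 𝓞 K) ∈ P.asIdeal := by
    push_cast
    exact P.asIdeal.add_mem (P.asIdeal.mul_mem_left _ hqP) (P.asIdeal.mul_mem_left _ h)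
  rw [hab, Int.cast_one] at h1
  exact P.isPrime.ne_top ((Ideal.eq_top_iff_one _).2 h1)

theorem norm_q (hK : Module.finrank ℚ K = 2) (q : ℕ) :
    Ideal.absNorm (Ideal.span {(q : 𝓞 K)}) = q ^ 2 := by
  rw [Ideal.absNorm_span_singleton]
  have h1 : (q : 𝓞 K) = algebraMap ℤ (𝓞 K) (q : ℤ) := by simp
  rw [h1, Algebra.norm_algebraMap, RingOfIntegers.rank, hK]
  rw [Int.natAbs_pow, Int.natAbs_natCast]

theorem adm (hK : Module.finrank ℚ K = 2) (P : HeightOneSpectrum (𝓞 K)) {q : ℕ} (hq : q.Prime)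
    (hqP : (q : 𝓞 K) ∈ P.asIdeal) : ∃ e : ℕ, Adm (P.valuation K) q e := by
  classical
  have : Fact q.Prime := ⟨hq⟩
  have hq0 : (q : 𝓞 K) ≠ 0 := by exact_mod_cast hq.ne_zero
  obtain ⟨e, he⟩ : ∃ e : ℕ, P.intValuation (q : 𝓞 K) = WithZero.exp (-(e : ℤ)) :=
    ⟨_, P.intValuation_if_neg hq0⟩
  have he0 : e ≠ 0 := by
    rintro rfl
    have h1 := (P.intValuation_lt_one_iff_mem (q : 𝓞 K)).2 hqP
    rw [he] at h1
    simp at h1
  have hdvd : P.asIdeal ^ e ∣ Ideal.span {(q : 𝓞 K)} :=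
    (P.intValuation_le_pow_iff_dvd _ e).1 he.le
  have hN : Ideal.absNorm P.asIdeal ^ e ∣ q ^ 2 := by
    rw [← norm_q hK, ← map_pow]
    exact Ideal.absNorm_dvd_absNorm_of_le (Ideal.le_of_dvd hdvd)
  have hN1 : Ideal.absNorm P.asIdeal ≠ 1 := by
    rw [Ne, Ideal.absNorm_eq_one_iff]
    exact P.isPrime.ne_top
  have hqN : q ∣ Ideal.absNorm P.asIdeal := by
    have h1 : Ideal.absNorm P.asIdeal ∣ q ^ 2 := (dvd_pow_self _ he0).trans hN
    obtain ⟨j, hj, hj'⟩ := (Nat.dvd_prime_pow hq).1 h1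
    rw [hj']
    refine dvd_pow_self _ ?_
    rintro rfl
    exact hN1 (by rw [hj', pow_zero])
  have he2 : e ≤ 2 := by
    have h1 : q ^ e ∣ q ^ 2 := (pow_dvd_pow_of_dvd hqN e).trans hN
    exact (Nat.pow_dvd_pow_iff_le_right hq.one_lt).1 h1
  refine ⟨e, hq, by omega, fun n hn => ?_⟩
  obtain ⟨m, hm⟩ := padicValInt_dvd (p := q) n
  have hm1 : ¬ (q : ℤ) ∣ m := by
    rintro ⟨c, rfl⟩
    have h1 : (q : ℤ) ^ (padicValInt q n + 1) ∣ n := ⟨c, by rw [pow_succ, mul_assoc]; exact hm⟩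
    rw [padicValInt_dvd_iff] at h1
    rcases h1 with h1 | h1
    · exact hn h1
    · omega
  have h2 : (n : K) = algebraMap (𝓞 K) K ((q : 𝓞 K) ^ padicValInt q n * (m : 𝓞 K)) := by
    rw [map_mul, map_pow, map_natCast, map_intCast]
    have := congrArg (fun z : ℤ => (z : K)) hm
    simpa using this
  rw [h2, HeightOneSpectrum.valuation_of_algebraMap, map_mul, map_pow, he]
  have h3 : P.intValuation (m : 𝓞 K) = 1 := by
    rw [HeightOneSpectrum.intValuation_eq_one_iff]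
    exact notMem P hq hqP hm1
  rw [h3, mul_one, ← WithZero.exp_nsmul]
  congr 1
  push_cast
  rw [nsmul_eq_mul]
  ring

end VAL_

theorem p_VAL : T_VAL := by
  intro K _ _ hK
  refine ⟨fun P => ?_, fun q hq => ?_⟩
  · obtain ⟨q, hq, hqP⟩ := VAL_.exists_prime P
    obtain ⟨e, he⟩ := VAL_.adm hK P hq hqP
    exact ⟨q, e, he⟩
  · have hne : Ideal.span {(q : 𝓞 K)} ≠ ⊤ := by
      intro h
      have h1 := VAL_.norm_q hK q
      rw [h, Ideal.absNorm_top] at h1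
      have h2 := hq.one_lt
      nlinarith
    obtain ⟨M, hM, hle⟩ := Ideal.exists_le_maximal _ hne
    have hqM : (q : 𝓞 K) ∈ M := hle (Ideal.mem_span_singleton_self _)
    have hM0 : M ≠ ⊥ := by
      rintro rfl
      have h3 : (q : 𝓞 K) = 0 := by simpa using hqM
      exact hq.ne_zero (by exact_mod_cast h3)
    obtain ⟨e, he⟩ := VAL_.adm hK ⟨M, hM.isPrime, hM0⟩ hq hqM
    exact ⟨_, e, he⟩

end Pool.Agent.FLN
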