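import Pool.Agent.FLN.STR
import Pool.Agent.FLN.CONJ
import Pool.Agent.FLN.VAL
import Pool.Agent.FLN.LINE
import Pool.Agent.FLN.UNIQ
import Pool.Agent.FLN.SIGN
import Pool.Agent.FLN.UNIT
import Pool.Agent.FLN.LQ
import Pool.Agent.FLN.LP
import Pool.Agent.FLN.GQ
import Pool.Agent.FLN.GP1
import Pool.Agent.FLN.GP2
import Pool.Agent.FLN.DIV
import Pool.Agent.FLN.CRT
import Pool.Agent.FLN.DENS
import Pool.Agent.FLN.SMALLP
import Pool.Agent.FLN.LARGEP
import Pool.Agent.FLN.PRIM
import Pool.Agent.FLN.COUNT

set_option autoImplicit false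

/-!
# FLN: final assembly
-/

namespace Pool.Agent.FLN

theorem tSTR : T_STR :=
  p_STR (p_LINE p_CONJ) p_UNIQ p_SIGN p_UNIT (p_GQ p_VAL p_LQ) (p_GP1 p_VAL p_LP)
    (p_GP2 p_VAL p_LP)

theorem tCOUNT : T_COUNT := p_COUNT (p_SMALLP p_DIV (p_DENS p_CRT)) p_LARGEP p_PRIM

theorem two_pow_ge {k : ℕ} (hk : 5 ≤ k) : 4 * k + 1 ≤ 2 ^ k := by
  induction k, hk using Nat.le_induction with
  | base => norm_num
  | succ k hk ih =>
    rw [pow_succ]
    omega

/-- lower bound for the height of the line -/
theorem two_p {p : ℕ} (hp : p.Prime) (h11 : 11 ≤ p) {a b c : ℤ}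
    (hg : Int.gcd (Int.gcd a b) c = 1) (ha : a ≠ 0) (hb : b ≠ 0) (hc : c ≠ 0)
    (hval : ∀ q : ℕ, q.Prime → ¬ p ∣ q * (q ^ 2 - 1) → (p - 1) ∣ 2 * padicValInt q a ∧
      (p - 1) ∣ 2 * padicValInt q b ∧ (p - 1) ∣ 2 * padicValInt q c)
    (hiii : ((p : ℤ) ∣ a - b ∧ (p : ℤ) ∣ b - c) ∨ (p : ℤ) ^ ((p - 3) / 2) ∣ a ∨
      (p : ℤ) ^ ((p - 3) / 2) ∣ b ∨ (p : ℤ) ^ ((p - 3) / 2) ∣ c)
    (hlt : (p : ℤ) < 2 * max |a| (max |b| |c|)) :
    2 * (p : ℤ) - 1 ≤ max |a| (max |b| |c|) := by
  have hodd : Odd p := hp.odd_of_ne_two (by omega)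
  have hpow : ∀ n : ℤ, n ≠ 0 → (p : ℤ) ^ ((p - 3) / 2) ∣ n → 2 * (p : ℤ) - 1 ≤ |n| := by
    intro n hn hd
    have k1 : (p : ℤ) ^ ((p - 3) / 2) ≤ |n| := Int.le_of_dvd (abs_pos.2 hn) ((dvd_abs _ _).2 hd)
    have k2 : (p : ℤ) ^ 2 ≤ (p : ℤ) ^ ((p - 3) / 2) :=
      pow_le_pow_right₀ (by exact_mod_cast hp.one_le) (by omega)
    have k3 : (11 : ℤ) ≤ p := by exact_mod_cast h11
    nlinarith
  rcases hiii with ⟨g1, g2⟩ | g | g | g
  · -- no coefficient is divisible by `p`
    have hall : ∀ n : ℤ, (n = a ∨ n = b ∨ n = c) → ¬ (p : ℤ) ∣ n := by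
      intro n hn hd
      have h3 : (p : ℤ) ∣ a ∧ (p : ℤ) ∣ b ∧ (p : ℤ) ∣ c := by
        rcases hn with rfl | rfl | rfl
        · have hb' : (p : ℤ) ∣ b := by
            have := dvd_sub hd g1
            simpa using this
          have hc' : (p : ℤ) ∣ c := by
            have := dvd_sub hb' g2
            simpa using this
          exact ⟨hd, hb', hc'⟩
        · have ha' : (p : ℤ) ∣ a := by
            have := dvd_add g1 hd
            simpa using this
          have hc' : (p : ℤ) ∣ c := by
            have := dvd_sub hd g2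
            simpa using this
          exact ⟨ha', hd, hc'⟩
        · have hb' : (p : ℤ) ∣ b := by
            have := dvd_add g2 hd
            simpa using this
          have ha' : (p : ℤ) ∣ a := by
            have := dvd_add g1 hb'
            simpa using this
          exact ⟨ha', hb', hd⟩
      have h4 : p ∣ Int.gcd (Int.gcd a b) c := by
        apply Int.dvd_gcd
        · rw [Int.natCast_dvd_natCast]
          exact Int.dvd_gcd h3.1 h3.2.1
        · exact h3.2.2
      rw [hg] at h4
      exact hp.one_lt.ne' (Nat.dvd_one.1 h4)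
    have key : ∀ n : ℤ, (n = a ∨ n = b ∨ n = c) → 2 ≤ |n| → 2 * (p : ℤ) - 1 ≤ |n| := by
      intro n hn h2
      have hn0 : n ≠ 0 := by
        rintro rfl
        simp at h2
      have h3 : n.natAbs ≠ 1 := by
        have h2' := h2
        rw [Int.abs_eq_natAbs] at h2'
        omega
      obtain ⟨q, hq, hqn⟩ := Nat.exists_prime_and_dvd h3
      have hqn' : (q : ℤ) ∣ n := Int.natCast_dvd.2 hqn
      have hqle : (q : ℤ) ≤ |n| := Int.le_of_dvd (abs_pos.2 hn0) ((dvd_abs _ _).2 hqn')
      by_cases hd : p ∣ q * (q ^ 2 - 1)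
      · have hqp : q ≠ p := by
          rintro rfl
          exact hall n hn hqn'
        have hd2 : p ∣ q ^ 2 - 1 := by
          rcases (Nat.Prime.dvd_mul hp).1 hd with h4 | h4
          · exact absurd ((Nat.prime_dvd_prime_iff_eq hp hq).1 h4).symm hqp
          · exact h4
        have h5 : q ^ 2 - 1 = (q - 1) * (q + 1) := by
          have := Nat.sq_sub_sq q 1
          rw [one_pow] at this
          rw [this, mul_comm]
        rw [h5] at hd2
        have hq2 := hq.two_le
        rcases (Nat.Prime.dvd_mul hp).1 hd2 with h6 | h6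
        · obtain ⟨k, hk⟩ := h6
          have hk2 : 2 ≤ k := by
            rcases k with _ | _ | k
            · omega
            · exfalso
              have h7 : q = p + 1 := by omega
              have h8 : Even q := by rw [h7]; exact hodd.add_one
              have := (Nat.Prime.even_iff hq).1 h8
              omega
            · omega
          have : 2 * p ≤ q - 1 := by rw [hk]; nlinarith
          omega
        · obtain ⟨k, hk⟩ := h6
          have hk2 : 2 ≤ k := by
            rcases k with _ | _ | k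
            · omega
            · exfalso
              have h7 : q + 1 = p := by omega
              have h8 : Even q := by
                have : Even (q + 1 + 1) := by rw [h7]; exact hodd.add_one
                rw [Nat.even_add_one, Nat.even_add_one, not_not] at this
                exact this
              have := (Nat.Prime.even_iff hq).1 h8
              omega
            · omega
          have : 2 * p ≤ q + 1 := by rw [hk]; nlinarith
          omega
      · have : Fact q.Prime := ⟨hq⟩
        have h4 : (p - 1) ∣ 2 * padicValInt q n := by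
          have := hval q hq hd
          rcases hn with rfl | rfl | rfl
          · exact this.1
          · exact this.2.1
          · exact this.2.2
        have h5 : 1 ≤ padicValInt q n := by
          rcases (padicValInt_dvd_iff (p := q) 1 n).1 (by simpa using hqn') with h0 | h0
          · exact absurd h0 hn0
          · exact h0
        have h6 : p - 1 ≤ 2 * padicValInt q n := Nat.le_of_dvd (by omega) h4
        have h7 : (q : ℤ) ^ ((p - 1) / 2) ∣ n :=
          (padicValInt_dvd_iff (p := q) _ n).2 (Or.inr (by omega))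
        have h8 : (q : ℤ) ^ ((p - 1) / 2) ≤ |n| :=
          Int.le_of_dvd (abs_pos.2 hn0) ((dvd_abs _ _).2 h7)
        have h9 : (2 : ℤ) ^ ((p - 1) / 2) ≤ (q : ℤ) ^ ((p - 1) / 2) :=
          pow_le_pow_left₀ (by norm_num) (by exact_mod_cast hq.two_le) _
        have h10 := two_pow_ge (k := (p - 1) / 2) (by omega)
        have h11' : (4 * (((p - 1) / 2 : ℕ) : ℤ) + 1) ≤ (2 : ℤ) ^ ((p - 1) / 2) := by
          exact_mod_cast h10
        obtain ⟨m, hm⟩ := hodd
        omega
    by_contra hcon
    rw [not_le] at hcon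
    have hsmall : ∀ n : ℤ, (n = a ∨ n = b ∨ n = c) → |n| ≤ 1 := by
      intro n hn
      by_contra h2
      rw [not_le] at h2
      have h3 := key n hn h2
      have h4 : |n| ≤ max |a| (max |b| |c|) := by
        rcases hn with rfl | rfl | rfl
        · exact le_max_left _ _
        · exact (le_max_left _ _).trans (le_max_right _ _)
        · exact (le_max_right _ _).trans (le_max_right _ _)
      linarith
    have h5 : max |a| (max |b| |c|) ≤ 1 :=
      max_le (hsmall a (Or.inl rfl)) (max_le (hsmall b (Or.inr (Or.inl rfl)))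
        (hsmall c (Or.inr (Or.inr rfl))))
    omega
  · exact (hpow a ha g).trans (le_max_left _ _)
  · exact (hpow b hb g).trans ((le_max_left _ _).trans (le_max_right _ _))
  · exact (hpow c hc g).trans ((le_max_right _ _).trans (le_max_right _ _))

end Pool.Agent.FLN
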