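import Pool.Agent.FLN.Targets

set_option autoImplicit false

/-!
# FLN-STR: the structure of the line of a quadratic point
-/

namespace Pool.Agent.FLN

open Filter Topology

namespace STR_

theorem gcd_rot {a b c : ℤ} (h : Int.gcd (Int.gcd a b) c = 1) :
    Int.gcd (Int.gcd b c) a = 1 := by
  simp only [Int.gcd, Int.natAbs_natCast] at h ⊢
  rw [Nat.gcd_comm, ← Nat.gcd_assoc]
  exact h

/-- cyclic shift of the data -/
theorem rot {p : ℕ} {K : Type} [Field K] {σ : K →+* K} {X1 X2 X3 l : K} {a b c : ℤ}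
    (D : Data p K σ X1 X2 X3 l a b c) : Data p K σ X2 X3 X1 l b c a where
  inv := D.inv
  fix := D.fix
  h1 := D.h2
  h2 := D.h3
  h3 := D.h1
  eqn := by linear_combination D.eqn
  la := D.lb
  lb := D.lc
  lc := D.la
  l0 := D.l0
  a0 := D.b0
  b0 := D.c0
  c0 := D.a0
  gcd := gcd_rot D.gcd

end STR_

open STR_ in
/-- STR: the structure of the line of a quadratic point. -/
theorem p_STR (h1 : T_LINE) (h2 : T_UNIQ) (h3 : T_SIGN) (h4 : T_UNIT) (h5 : T_GQ)
    (h6 : T_GP1) (h7 : T_GP2) : T_STR := by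
  intro p K _ _ x y z hp hp5 h
  obtain ⟨σ, l, a, b, c, D⟩ := h1 p K x y z hp hp5 h
  obtain ⟨hl, hu⟩ := h2 p K σ x y (-z) l a b c D
  have hline : (a : K) * x + b * y = c * z := by linear_combination hl
  have D' := rot D
  have D'' := rot D'
  have hiii : ((p : ℤ) ∣ a - b ∧ (p : ℤ) ∣ b - c) ∨ (p : ℤ) ^ ((p - 3) / 2) ∣ a ∨
      (p : ℤ) ^ ((p - 3) / 2) ∣ b ∨ (p : ℤ) ^ ((p - 3) / 2) ∣ c := by
    by_cases ha : (p : ℤ) ∣ a
    · exact Or.inr (h6 p K σ _ _ _ l a b c hp hp5 h.quad D ha)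
    · by_cases hb : (p : ℤ) ∣ b
      · rcases h6 p K σ _ _ _ l b c a hp hp5 h.quad D' hb with h8 | h8 | h8
        · exact Or.inr (Or.inr (Or.inl h8))
        · exact Or.inr (Or.inr (Or.inr h8))
        · exact Or.inr (Or.inl h8)
      · by_cases hc : (p : ℤ) ∣ c
        · rcases h6 p K σ _ _ _ l c a b hp hp5 h.quad D'' hc with h8 | h8 | h8
          · exact Or.inr (Or.inr (Or.inr h8))
          · exact Or.inr (Or.inl h8)
          · exact Or.inr (Or.inr (Or.inl h8))
        · exact Or.inl ⟨h7 p K σ _ _ _ l a b c hp hp5 h.quad D ha hb hc,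
            h7 p K σ _ _ _ l b c a hp hp5 h.quad D' hb hc ha⟩
  refine ⟨a, b, c, D.gcd, hline, ?_, D.a0, D.b0, D.c0, ?_, hiii, ?_, ?_⟩
  · intro a' b' c' h'
    exact hu a' b' c' (by linear_combination h')
  · intro q hq hpq
    obtain ⟨g1, g2⟩ := h5 p K σ _ _ _ l a b c hp hp5 h.quad D q hq hpq
    obtain ⟨g3, g4⟩ := h5 p K σ _ _ _ l b c a hp hp5 h.quad D' q hq hpq
    obtain ⟨g5, g6⟩ := h5 p K σ _ _ _ l c a b hp hp5 h.quad D'' q hq hpq
    exact ⟨g1, g3, g5, fun k => (g2 k).1, fun k => (g4 k).1, fun k => (g6 k).1⟩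
  · intro hR
    exact h3 p K σ _ _ _ l a b c hp hp5 D hR
  · by_contra hcon
    rw [not_lt] at hcon
    set m := max |a| (max |b| |c|) with hm
    have ma : |a| ≤ m := le_max_left _ _
    have mb : |b| ≤ m := (le_max_left _ _).trans (le_max_right _ _)
    have mc : |c| ≤ m := (le_max_right _ _).trans (le_max_right _ _)
    have hpow : ∀ n : ℤ, n ≠ 0 → |n| ≤ m → ¬ (p : ℤ) ^ ((p - 3) / 2) ∣ n := by
      intro n hn hnm hd
      have k1 : (p : ℤ) ∣ n := dvd_trans (dvd_pow_self _ (by omega)) hd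
      have k2 : (p : ℤ) ≤ |n| := Int.le_of_dvd (abs_pos.2 hn) ((dvd_abs _ _).2 k1)
      have k3 : (0 : ℤ) < p := by exact_mod_cast hp.pos
      linarith
    have hdiff : ∀ n n' : ℤ, |n| ≤ m → |n'| ≤ m → (p : ℤ) ∣ n - n' → n = n' := by
      intro n n' hn hn' hd
      by_contra hne
      have k1 : (p : ℤ) ≤ |n - n'| :=
        Int.le_of_dvd (abs_pos.2 (sub_ne_zero.2 hne)) ((dvd_abs _ _).2 hd)
      have k2 : |n - n'| ≤ |n| + |n'| := abs_sub _ _
      have k3 : (p : ℤ) = 2 * m := by linarith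
      have k4 : Odd p := hp.odd_of_ne_two (by omega)
      have k5 : Odd (p : ℤ) := by exact_mod_cast k4
      rw [k3] at k5
      exact absurd k5 (by simp)
    rcases hiii with ⟨g1, g2⟩ | g | g | g
    · have e1 := hdiff a b ma mb g1
      have e2 := hdiff b c mb mc g2
      have hxyz : x + y = z := by
        have ha0 : (a : K) ≠ 0 := by exact_mod_cast D.a0
        rw [← e2, ← e1] at hline
        apply mul_left_cancel₀ ha0
        linear_combination hline
      exact h.nontrivial (h4 p K x y z hp hp5 h.quad h.hx h.hy h.hz h.eqn hxyz)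
    · exact hpow a D.a0 ma g
    · exact hpow b D.b0 mb g
    · exact hpow c D.c0 mc g

/-- the arithmetic conditions for a line with a point -/
theorem cond_of_point (h : T_STR) (l : ℤ × ℤ × ℤ) (hl : Int.gcd (Int.gcd l.1 l.2.1) l.2.2 = 1)
    (hp : HasPoint l.1 l.2.1 l.2.2) : ∃ p : ℕ, p.Prime ∧ 5 ≤ p ∧ Cond p l := by
  obtain ⟨p, K, _, _, x, y, z, hpp, hp5, hq, hline⟩ := hp
  obtain ⟨a, b, c, hg, _, hu, ha, hb, hc, hval, hiii, _, hlt⟩ := h p K x y z hpp hp5 hq
  obtain ⟨t, e1, e2, e3⟩ := hu _ _ _ hline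
  refine ⟨p, hpp, hp5, ?_⟩
  have ht : t = 1 ∨ t = -1 := by
    have h1 : t.natAbs ∣ Int.gcd (Int.gcd l.1 l.2.1) l.2.2 := by
      apply Int.dvd_gcd
      · rw [Int.natCast_dvd_natCast]
        apply Int.dvd_gcd
        · rw [e1]; exact Int.natAbs_dvd.2 (Dvd.intro _ rfl)
        · rw [e2]; exact Int.natAbs_dvd.2 (Dvd.intro _ rfl)
      · rw [e3]; exact Int.natAbs_dvd.2 (Dvd.intro _ rfl)
    rw [hl] at h1
    have h2 : t.natAbs = 1 := Nat.dvd_one.1 h1
    omega
  have key : ∀ q : ℕ, q.Prime → q % p = 2 → ¬ ((q : ℤ) ∣ a ∧ ¬ (q : ℤ) ^ 2 ∣ a) := by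
    rintro q hq hqp ⟨k1, k2⟩
    have hnd : ¬ p ∣ q * (q ^ 2 - 1) := by
      intro hd
      rcases (Nat.Prime.dvd_mul hpp).1 hd with hd | hd
      · have := Nat.mod_eq_zero_of_dvd hd
        omega
      · have h3 : (q : ZMod p) = 2 := by
          have h4 : ((q % p : ℕ) : ZMod p) = (q : ZMod p) := ZMod.natCast_mod q p
          rw [← h4, hqp]
          norm_num
        have h5 : ((q ^ 2 - 1 : ℕ) : ZMod p) = 0 := (ZMod.natCast_eq_zero_iff _ _).2 hd
        have h6 : 1 ≤ q ^ 2 := Nat.one_le_pow _ _ hq.pos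
        rw [Nat.cast_sub h6] at h5
        push_cast at h5
        rw [h3] at h5
        have h7 : ((3 : ℕ) : ZMod p) = 0 := by
          push_cast
          linear_combination h5
        have h8 := (ZMod.natCast_eq_zero_iff _ _).1 h7
        have := Nat.le_of_dvd (by norm_num) h8
        omega
    obtain ⟨g1, -⟩ := hval q hq hnd
    have : Fact q.Prime := ⟨hq⟩
    have h1 : padicValInt q a = 1 := by
      have k3 : 1 ≤ padicValInt q a := by
        have := (padicValInt_dvd_iff (p := q) 1 a).1 (by simpa using k1)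
        rcases this with h0 | h0
        · exact absurd h0 ha
        · exact h0
      have k4 : ¬ 2 ≤ padicValInt q a := fun h0 => k2 ((padicValInt_dvd_iff (p := q) 2 a).2 (Or.inr h0))
      omega
    rw [h1] at g1
    have := Nat.le_of_dvd (by norm_num) g1
    omega
  rcases ht with rfl | rfl
  · simp only [one_mul] at e1 e2 e3
    unfold Cond
    rw [e1, e2, e3]
    exact ⟨ha, hb, hc, key, hiii, hlt⟩
  · simp only [neg_mul, one_mul] at e1 e2 e3
    unfold Cond
    rw [e1, e2, e3]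
    refine ⟨neg_ne_zero.2 ha, neg_ne_zero.2 hb, neg_ne_zero.2 hc, ?_, ?_, ?_⟩
    · intro q hq hqp
      rw [dvd_neg, dvd_neg]
      exact key q hq hqp
    · rw [dvd_neg, dvd_neg, dvd_neg]
      rcases hiii with ⟨g1, g2⟩ | g
      · left
        constructor
        · have : -a - -b = -(a - b) := by ring
          rw [this, dvd_neg]
          exact g1
        · have : -b - -c = -(b - c) := by ring
          rw [this, dvd_neg]
          exact g2
      · exact Or.inr g
    · rw [abs_neg, abs_neg, abs_neg]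
      exact hlt

/-- one hundred per cent of the lines have no point -/
theorem lines (h : T_STR) (hc : T_COUNT) :
    Tendsto (fun H : ℕ => (Set.ncard {l | l ∈ Lines H ∧ HasPoint l.1 l.2.1 l.2.2} : ℝ) /
      ((Lines H).ncard : ℝ)) atTop (𝓝 0) := by
  have h1 := hc {l | Int.gcd (Int.gcd l.1 l.2.1) l.2.2 = 1 ∧ HasPoint l.1 l.2.1 l.2.2}
    (fun l hl => cond_of_point h l hl.1 hl.2)
  refine h1.congr fun H => ?_
  congr 3
  ext l
  constructor
  · rintro ⟨h2, h3⟩
    exact ⟨h2, h3.2⟩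
  · rintro ⟨h2, h3⟩
    exact ⟨h2, h2.2.2.2, h3⟩

end Pool.Agent.FLN
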