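import Pool.Agent.FLN.Defs

set_option autoImplicit false

/-!
# MP_50a406_nt, quadratic points of Fermat curves on rational lines: targets

Proofs: `Blueprint.lean.txt`.
-/

namespace Pool.Agent.FLN

open Filter Topology IsDedekindDomain NumberField
open scoped WithZero

/-! ## Number fields -/

/-- CONJ: the conjugation of a quadratic field. -/
def T_CONJ : Prop := ∀ (K : Type) [Field K] [NumberField K], Module.finrank ℚ K = 2 →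
  ∃ σ : K →+* K, (∀ x, σ (σ x) = x) ∧ (∀ x, σ x = x → ∃ r : ℚ, x = r) ∧
    ∃ δ : K, δ ≠ 0 ∧ σ δ = -δ

/-- `v` is a discrete valuation over the prime `q` with ramification index `e ≤ 2`. -/
def Adm {K : Type} [Field K] (v : Valuation K ℤᵐ⁰) (q e : ℕ) : Prop :=
  q.Prime ∧ (e = 1 ∨ e = 2) ∧
    ∀ n : ℤ, n ≠ 0 → v (n : K) = WithZero.exp (-((e * padicValInt q n : ℕ) : ℤ))

/-- VAL: the valuations of a quadratic field. -/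
def T_VAL : Prop := ∀ (K : Type) [Field K] [NumberField K], Module.finrank ℚ K = 2 →
  (∀ P : HeightOneSpectrum (𝓞 K), ∃ q e : ℕ, Adm (P.valuation K) q e) ∧
  ∀ q : ℕ, q.Prime → ∃ (P : HeightOneSpectrum (𝓞 K)) (e : ℕ), Adm (P.valuation K) q e

/-- A homogeneous solution with its rational line. -/
structure Data (p : ℕ) (K : Type) [Field K] (σ : K →+* K) (X1 X2 X3 l : K) (a b c : ℤ) :
    Prop where
  inv : ∀ x, σ (σ x) = x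
  fix : ∀ x, σ x = x → ∃ r : ℚ, x = r
  h1 : X1 ≠ 0
  h2 : X2 ≠ 0
  h3 : X3 ≠ 0
  eqn : X1 ^ p + X2 ^ p + X3 ^ p = 0
  la : X2 * σ X3 - X3 * σ X2 = l * a
  lb : X3 * σ X1 - X1 * σ X3 = l * b
  lc : X1 * σ X2 - X2 * σ X1 = l * c
  l0 : l ≠ 0
  a0 : a ≠ 0
  b0 : b ≠ 0
  c0 : c ≠ 0
  gcd : Int.gcd (Int.gcd a b) c = 1

/-- LINE: the line through a quadratic point and its conjugate. -/
def T_LINE : Prop := ∀ (p : ℕ) (K : Type) [Field K] [NumberField K] (x y z : K), p.Prime →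
  5 ≤ p → IsQuadPoint p K x y z → ∃ (σ : K →+* K) (l : K) (a b c : ℤ),
    Data p K σ x y (-z) l a b c

/-- UNIQ: uniqueness of the line. -/
def T_UNIQ : Prop := ∀ (p : ℕ) (K : Type) [Field K] [NumberField K] (σ : K →+* K)
  (X1 X2 X3 l : K) (a b c : ℤ), Data p K σ X1 X2 X3 l a b c →
  (a : K) * X1 + b * X2 + c * X3 = 0 ∧
  ∀ a' b' c' : ℤ, (a' : K) * X1 + b' * X2 + c' * X3 = 0 →
    ∃ t : ℤ, a' = t * a ∧ b' = t * b ∧ c' = t * c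

/-- SIGN: over a real field the three coefficients have the same sign. -/
def T_SIGN : Prop := ∀ (p : ℕ) (K : Type) [Field K] [NumberField K] (σ : K →+* K)
  (X1 X2 X3 l : K) (a b c : ℤ), p.Prime → 5 ≤ p → Data p K σ X1 X2 X3 l a b c →
  Nonempty (K →+* ℝ) → 0 < a * b ∧ 0 < b * c

/-- UNIT: the line `x + y = z` contains only trivial points. -/
def T_UNIT : Prop := ∀ (p : ℕ) (K : Type) [Field K] [NumberField K] (x y z : K), p.Prime →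
  5 ≤ p → Module.finrank ℚ K = 2 → x ≠ 0 → y ≠ 0 → z ≠ 0 → x ^ p + y ^ p = z ^ p → x + y = z →
  ∃ m : ℕ, 0 < m ∧ (x / z) ^ m = 1 ∧ (y / z) ^ m = 1

/-! ## Local analysis -/

/-- LQ: primes `q` which are not `0, 1, -1` modulo `p`. -/
def T_LQ : Prop := ∀ (K : Type) [Field K] [CharZero K] (σ : K →+* K), (∀ x, σ (σ x) = x) →
  (∀ x, σ x = x → ∃ r : ℚ, x = r) → ∀ (v : Valuation K ℤᵐ⁰) (p q e : ℕ), Adm v q e →
  p.Prime → 5 ≤ p → ¬ p ∣ q * (q ^ 2 - 1) → ∀ α : K, α ≠ 0 → σ α ≠ α →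
  v (α ^ p - (σ α) ^ p) = v (α - σ α) * max (v α) (v (σ α)) ^ (p - 1)

/-- LP: the prime `p`. -/
def T_LP : Prop := ∀ (K : Type) [Field K] [CharZero K] (v : Valuation K ℤᵐ⁰) (p e : ℕ),
  Adm v p e → 5 ≤ p → ∀ α β : K, α ≠ 0 → β ≠ 0 → α ≠ β →
  (v α = v β ∧ v (α - β) < v α →
    v (α ^ p - β ^ p) = v (α - β) * v α ^ (p - 1) * v (p : K)) ∧
  (¬ (v α = v β ∧ v (α - β) < v α) →
    v (α ^ p - β ^ p) = v (α - β) * max (v α) (v β) ^ (p - 1))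

/-- GQ: the coefficients of the line at the primes `q` which are not `0, 1, -1` modulo `p`. -/
def T_GQ : Prop := ∀ (p : ℕ) (K : Type) [Field K] [NumberField K] (σ : K →+* K)
  (X1 X2 X3 l : K) (a b c : ℤ), p.Prime → 5 ≤ p → Module.finrank ℚ K = 2 →
  Data p K σ X1 X2 X3 l a b c → ∀ q : ℕ, q.Prime → ¬ p ∣ q * (q ^ 2 - 1) →
  (p - 1) ∣ 2 * padicValInt q a ∧ ((q : ℤ) ∣ a → ¬ (q : ℤ) ∣ b ∧ ¬ (q : ℤ) ∣ c)

/-- GP1: the coefficients of the line at `p`, if `p` divides one of them. -/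
def T_GP1 : Prop := ∀ (p : ℕ) (K : Type) [Field K] [NumberField K] (σ : K →+* K)
  (X1 X2 X3 l : K) (a b c : ℤ), p.Prime → 5 ≤ p → Module.finrank ℚ K = 2 →
  Data p K σ X1 X2 X3 l a b c → (p : ℤ) ∣ a → (p : ℤ) ^ ((p - 3) / 2) ∣ a ∨
    (p : ℤ) ^ ((p - 3) / 2) ∣ b ∨ (p : ℤ) ^ ((p - 3) / 2) ∣ c

/-- GP2: the coefficients of the line at `p`, if `p` divides none of them. -/
def T_GP2 : Prop := ∀ (p : ℕ) (K : Type) [Field K] [NumberField K] (σ : K →+* K)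
  (X1 X2 X3 l : K) (a b c : ℤ), p.Prime → 5 ≤ p → Module.finrank ℚ K = 2 →
  Data p K σ X1 X2 X3 l a b c → ¬ (p : ℤ) ∣ a → ¬ (p : ℤ) ∣ b → ¬ (p : ℤ) ∣ c →
  (p : ℤ) ∣ a - b

/-! ## Counting -/

/-- DIV: the sum of the reciprocals of the primes congruent to 2 modulo `p` diverges. -/
def T_DIV : Prop := ∀ p : ℕ, p.Prime → 5 ≤ p →
  ¬ Summable (Set.indicator {q : ℕ | q.Prime ∧ q % p = 2} fun q => (1 : ℝ) / q)

/-- CRT: number of the integers in a period which are exactly divisible by none of the primes of a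
finite set. -/
def T_CRT : Prop := ∀ S : Finset ℕ, (∀ q ∈ S, q.Prime) →
  ((Finset.range (∏ q ∈ S, q ^ 2)).filter fun n => ∀ q ∈ S, ¬ (q ∣ n ∧ ¬ q ^ 2 ∣ n)).card =
    ∏ q ∈ S, (q ^ 2 - q + 1)

/-- DENS: a set of primes with divergent sum of reciprocals: almost all integers are exactly
divisible by one of them. -/
def T_DENS : Prop := ∀ S : Set ℕ, (∀ q ∈ S, q.Prime) →
  (¬ Summable (Set.indicator S fun q => (1 : ℝ) / q)) → ∀ ε : ℝ, 0 < ε → ∃ C : ℝ,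
  ∀ N : ℕ, (Set.ncard {n : ℤ | |n| ≤ (N : ℤ) ∧ ∀ q ∈ S, ¬ ((q : ℤ) ∣ n ∧ ¬ (q : ℤ) ^ 2 ∣ n)} : ℝ)
    ≤ ε * N + C

/-- The arithmetic conditions for the exponent `p`. -/
def Cond (p : ℕ) (l : ℤ × ℤ × ℤ) : Prop :=
  l.1 ≠ 0 ∧ l.2.1 ≠ 0 ∧ l.2.2 ≠ 0 ∧
  (∀ q : ℕ, q.Prime → q % p = 2 → ¬ ((q : ℤ) ∣ l.1 ∧ ¬ (q : ℤ) ^ 2 ∣ l.1)) ∧
  (((p : ℤ) ∣ l.1 - l.2.1 ∧ (p : ℤ) ∣ l.2.1 - l.2.2) ∨ (p : ℤ) ^ ((p - 3) / 2) ∣ l.1 ∨
    (p : ℤ) ^ ((p - 3) / 2) ∣ l.2.1 ∨ (p : ℤ) ^ ((p - 3) / 2) ∣ l.2.2) ∧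
  (p : ℤ) < 2 * max |l.1| (max |l.2.1| |l.2.2|)

/-- The integer vectors in a cube. -/
def Box (H : ℕ) : Set (ℤ × ℤ × ℤ) :=
  {l | |l.1| ≤ (H : ℤ) ∧ |l.2.1| ≤ (H : ℤ) ∧ |l.2.2| ≤ (H : ℤ)}

/-- SMALLP: the vectors that satisfy the conditions for a fixed exponent. -/
def T_SMALLP : Prop := ∀ p : ℕ, p.Prime → 5 ≤ p → ∀ ε : ℝ, 0 < ε → ∃ C : ℝ, ∀ H : ℕ, 1 ≤ H →
  (Set.ncard {l | l ∈ Box H ∧ Cond p l} : ℝ) ≤ ε * (H : ℝ) ^ 3 + C * (H : ℝ) ^ 2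

/-- LARGEP: the vectors that satisfy the conditions for a large exponent. -/
def T_LARGEP : Prop := ∃ C : ℝ, ∀ P H : ℕ, 7 ≤ P → 1 ≤ H →
  (Set.ncard {l | l ∈ Box H ∧ ∃ p : ℕ, p.Prime ∧ P ≤ p ∧ Cond p l} : ℝ) ≤
    C * (H : ℝ) ^ 3 / P

/-- PRIM: there are many lines. -/
def T_PRIM : Prop := ∃ c : ℝ, 0 < c ∧ ∀ H : ℕ, 1 ≤ H →
  c * (H : ℝ) ^ 3 ≤ ((Lines H).ncard : ℝ)

/-- COUNT: one hundred per cent of the lines do not satisfy the conditions. -/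
def T_COUNT : Prop := ∀ Bad : Set (ℤ × ℤ × ℤ), (∀ l ∈ Bad, ∃ p : ℕ, p.Prime ∧ 5 ≤ p ∧ Cond p l) →
  Tendsto (fun H : ℕ => (Set.ncard {l | l ∈ Lines H ∧ l ∈ Bad} : ℝ) / ((Lines H).ncard : ℝ))
    atTop (𝓝 0)

/-- STR: the structure of the line of a quadratic point. -/
def T_STR : Prop := ∀ (p : ℕ) (K : Type) [Field K] [NumberField K] (x y z : K), p.Prime →
  5 ≤ p → IsQuadPoint p K x y z → ∃ a b c : ℤ, Int.gcd (Int.gcd a b) c = 1 ∧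
    (a : K) * x + b * y = c * z ∧
    (∀ a' b' c' : ℤ, (a' : K) * x + b' * y = c' * z → ∃ t : ℤ, a' = t * a ∧ b' = t * b ∧ c' = t * c) ∧
    a ≠ 0 ∧ b ≠ 0 ∧ c ≠ 0 ∧
    (∀ q : ℕ, q.Prime → ¬ p ∣ q * (q ^ 2 - 1) → (p - 1) ∣ 2 * padicValInt q a ∧
      (p - 1) ∣ 2 * padicValInt q b ∧ (p - 1) ∣ 2 * padicValInt q c ∧
      ((q : ℤ) ∣ a → ¬ (q : ℤ) ∣ b) ∧ ((q : ℤ) ∣ b → ¬ (q : ℤ) ∣ c) ∧
      ((q : ℤ) ∣ c → ¬ (q : ℤ) ∣ a)) ∧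
    (((p : ℤ) ∣ a - b ∧ (p : ℤ) ∣ b - c) ∨ (p : ℤ) ^ ((p - 3) / 2) ∣ a ∨
      (p : ℤ) ^ ((p - 3) / 2) ∣ b ∨ (p : ℤ) ^ ((p - 3) / 2) ∣ c) ∧
    (Nonempty (K →+* ℝ) → 0 < a * b ∧ 0 < b * c) ∧
    (p : ℤ) < 2 * max |a| (max |b| |c|)

end Pool.Agent.FLN
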